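import Mathlib
import Pool.Agent.Lib_helper38.AGN.Defs
import Pool.Agent.Lib_helper58.AGG.G3
import Pool.Agent.Lib_helper58.AGG.G4

set_option autoImplicit false

/-! AGN, block G1: the rank of a family of functions of gadgets and of a sum -/

namespace Pool.Agent.AGN

open Finset Filter Pool.Agent.XA Pool.Agent.AGG Pool.Agent.AGN Pool.Agent.Lib_helper10.LogRank

variable {ι : Type} [Fintype ι] [DecidableEq ι] {A B : ι → Type} [∀ i, Fintype (A i)]
  [∀ i, Fintype (B i)] {V : Type} [AddCommGroup V] [Fintype V] {Q : Type} [Fintype Q]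

/-- the test functions -/
noncomputable def g1_fn {A : ι → Type} (p : ∀ i, Bool → A i → ℝ)
    (k : Finset ι × AddChar V ℂ) (x : (∀ i, A i) × V) : ℂ :=
  (∏ i, (p i (decide (i ∈ k.1)) (x.1 i) : ℂ)) * (starRingEnd ℂ) (k.2 x.2)

/-- the matrix entries between the test functions, for one function -/
theorem g1_main {G : ∀ i, A i → B i → Bool} {l m : ι → Bool → ℝ}
    (p : ∀ i, Bool → A i → ℝ) (q : ∀ i, Bool → B i → ℝ)
    (hpq : ∀ i s t, (∑ a, ∑ b, p i s a * q i t b = if s = t then l i s else 0) ∧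
      (∑ a, ∑ b, p i s a * q i t b * (if G i a b then 1 else 0) = if s = t then m i s else 0))
    (a : Finset ι → AddChar V ℂ → ℂ)
    (M : (∀ i, A i) × V → (∀ i, B i) × V → ℝ)
    (hM : ∀ x y, (M x y : ℂ) = ∑ u : Finset ι, ∑ χ : AddChar V ℂ,
      a u χ * (∏ i ∈ u, if G i (x.1 i) (y.1 i) then 1 else 0) * χ (x.2 + y.2))
    (k k' : Finset ι × AddChar V ℂ) :
    ∑ x, ∑ y, g1_fn p k x * (M x y : ℂ) * g1_fn q k' y =
      if k = k' then (Fintype.card V : ℂ) ^ 2 * ∑ u : Finset ι, a u k.2 *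
        ∏ i, (if i ∈ u then (m i (decide (i ∈ k.1)) : ℂ) else (l i (decide (i ∈ k.1)) : ℂ))
      else 0 := by
  classical
  -- the sums over a gadget
  have hgad : ∀ (i : ι) (s t : Bool) (c : Bool), ∑ x, ∑ y, (p i s x : ℂ) * (q i t y : ℂ) *
      (if c then (if G i x y then 1 else 0) else 1) =
      if s = t then (if c then (m i s : ℂ) else (l i s : ℂ)) else 0 := by
    intro i s t c
    obtain ⟨h1, h2⟩ := hpq i s t
    cases c with
    | false =>
      have h3 := congrArg (fun x : ℝ => (x : ℂ)) h1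
      simp only [Complex.ofReal_sum, Complex.ofReal_mul, apply_ite (fun x : ℝ => (x : ℂ)),
        Complex.ofReal_zero] at h3
      simpa using h3
    | true =>
      have h3 := congrArg (fun x : ℝ => (x : ℂ)) h2
      simp only [Complex.ofReal_sum, Complex.ofReal_mul, apply_ite (fun x : ℝ => (x : ℂ)),
        Complex.ofReal_zero, Complex.ofReal_one] at h3
      simpa using h3
  set P : Finset ι × AddChar V ℂ → (∀ i, A i) × V → ℂ := fun k x =>
    (∏ i, (p i (decide (i ∈ k.1)) (x.1 i) : ℂ)) * (starRingEnd ℂ) (k.2 x.2) with hP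
  set Q' : Finset ι × AddChar V ℂ → (∀ i, B i) × V → ℂ := fun k y =>
    (∏ i, (q i (decide (i ∈ k.1)) (y.1 i) : ℂ)) * (starRingEnd ℂ) (k.2 y.2) with hQ
  -- the main computation
  have hmain : ∀ k k' : Finset ι × AddChar V ℂ, ∑ x, ∑ y, P k x * (M x y : ℂ) * Q' k' y =
      ∑ u : Finset ι, ∑ ψ : AddChar V ℂ, a u ψ *
        ((∏ i, if decide (i ∈ k.1) = decide (i ∈ k'.1) then
            (if i ∈ u then (m i (decide (i ∈ k.1)) : ℂ) else (l i (decide (i ∈ k.1)) : ℂ)) else 0) *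
        (if k.2 = ψ then (Fintype.card V : ℂ) else 0) *
        (if k'.2 = ψ then (Fintype.card V : ℂ) else 0)) := by
    intro k k'
    have h1 : ∀ x y, P k x * (M x y : ℂ) * Q' k' y = ∑ u : Finset ι, ∑ ψ : AddChar V ℂ, a u ψ *
        ((∏ i, ((p i (decide (i ∈ k.1)) (x.1 i) : ℂ) * (q i (decide (i ∈ k'.1)) (y.1 i) : ℂ) *
          (if i ∈ u then (if G i (x.1 i) (y.1 i) then 1 else 0) else 1))) *
        ((starRingEnd ℂ) (k.2 x.2) * ψ x.2) * ((starRingEnd ℂ) (k'.2 y.2) * ψ y.2)) := by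
      intro x y
      rw [hM, hP, hQ]
      simp only
      rw [Finset.mul_sum, Finset.sum_mul]
      refine Finset.sum_congr rfl fun u _ => ?_
      rw [Finset.mul_sum, Finset.sum_mul]
      refine Finset.sum_congr rfl fun ψ _ => ?_
      rw [AddChar.map_add_eq_mul, Finset.prod_mul_distrib, Finset.prod_mul_distrib]
      have h2 : ∏ i, (if i ∈ u then (if G i (x.1 i) (y.1 i) then (1 : ℂ) else 0) else 1) =
          ∏ i ∈ u, if G i (x.1 i) (y.1 i) then 1 else 0 := by
        rw [Finset.prod_ite_mem, Finset.univ_inter]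
      rw [h2]
      ring
    have h3 : ∀ x, ∑ y, P k x * (M x y : ℂ) * Q' k' y = ∑ u : Finset ι, ∑ ψ : AddChar V ℂ,
        ∑ y : (∀ i, B i) × V, a u ψ *
        ((∏ i, ((p i (decide (i ∈ k.1)) (x.1 i) : ℂ) * (q i (decide (i ∈ k'.1)) (y.1 i) : ℂ) *
          (if i ∈ u then (if G i (x.1 i) (y.1 i) then 1 else 0) else 1))) *
        ((starRingEnd ℂ) (k.2 x.2) * ψ x.2) * ((starRingEnd ℂ) (k'.2 y.2) * ψ y.2)) := by
      intro x
      rw [Finset.sum_congr rfl fun y _ => h1 x y, Finset.sum_comm]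
      refine Finset.sum_congr rfl fun u _ => ?_
      rw [Finset.sum_comm]
    rw [Finset.sum_congr rfl fun x _ => h3 x, Finset.sum_comm]
    refine Finset.sum_congr rfl fun u _ => ?_
    rw [Finset.sum_comm]
    refine Finset.sum_congr rfl fun ψ _ => ?_
    have h4 : ∀ x : (∀ i, A i) × V, ∑ y : (∀ i, B i) × V, a u ψ *
        ((∏ i, ((p i (decide (i ∈ k.1)) (x.1 i) : ℂ) * (q i (decide (i ∈ k'.1)) (y.1 i) : ℂ) *
          (if i ∈ u then (if G i (x.1 i) (y.1 i) then 1 else 0) else 1))) *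
        ((starRingEnd ℂ) (k.2 x.2) * ψ x.2) * ((starRingEnd ℂ) (k'.2 y.2) * ψ y.2)) =
        a u ψ * ∑ y : (∀ i, B i) × V,
        ((∏ i, ((p i (decide (i ∈ k.1)) (x.1 i) : ℂ) * (q i (decide (i ∈ k'.1)) (y.1 i) : ℂ) *
          (if i ∈ u then (if G i (x.1 i) (y.1 i) then 1 else 0) else 1))) *
        ((starRingEnd ℂ) (k.2 x.2) * ψ x.2) * ((starRingEnd ℂ) (k'.2 y.2) * ψ y.2)) := by
      intro x
      rw [Finset.mul_sum]
    rw [Finset.sum_congr rfl fun x _ => h4 x, ← Finset.mul_sum]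
    congr 1
    have h5 := g4_split (fun (x : ∀ i, A i) (y : ∀ i, B i) =>
      ∏ i, ((p i (decide (i ∈ k.1)) (x i) : ℂ) * (q i (decide (i ∈ k'.1)) (y i) : ℂ) *
          (if i ∈ u then (if G i (x i) (y i) then 1 else 0) else 1)))
      (fun v => (starRingEnd ℂ) (k.2 v) * ψ v) (fun v => (starRingEnd ℂ) (k'.2 v) * ψ v)
    rw [h5, g4_orth, g4_orth]
    have h6 := g4_prod (fun i (x : A i) (y : B i) =>
      (p i (decide (i ∈ k.1)) x : ℂ) * (q i (decide (i ∈ k'.1)) y : ℂ) *
          (if i ∈ u then (if G i x y then 1 else 0) else 1))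
    rw [h6]
    have h7 : ∀ i, ∑ x, ∑ y, (p i (decide (i ∈ k.1)) x : ℂ) * (q i (decide (i ∈ k'.1)) y : ℂ) *
          (if i ∈ u then (if G i x y then (1 : ℂ) else 0) else 1) =
        if decide (i ∈ k.1) = decide (i ∈ k'.1) then
            (if i ∈ u then (m i (decide (i ∈ k.1)) : ℂ) else (l i (decide (i ∈ k.1)) : ℂ)) else 0 := by
      intro i
      have h8 := hgad i (decide (i ∈ k.1)) (decide (i ∈ k'.1)) (decide (i ∈ u))
      simpa using h8
    rw [Finset.prod_congr rfl fun i _ => h7 i]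
  -- off the diagonal
  have hd : ∀ k k' : Finset ι × AddChar V ℂ, k ≠ k' →
      ∑ x, ∑ y, P k x * (M x y : ℂ) * Q' k' y = 0 := by
    intro k k' hkk
    rw [hmain]
    refine Finset.sum_eq_zero fun u _ => Finset.sum_eq_zero fun ψ _ => ?_
    by_cases h1 : k.1 = k'.1
    · have h2 : k.2 ≠ k'.2 := fun h => hkk (Prod.ext h1 h)
      by_cases h3 : k.2 = ψ
      · rw [if_neg (fun h4 : k'.2 = ψ => h2 (h3.trans h4.symm)), mul_zero, mul_zero]
      · rw [if_neg h3, mul_zero, zero_mul, mul_zero]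
    · obtain ⟨i, hi⟩ : ∃ i, ¬ (i ∈ k.1 ↔ i ∈ k'.1) := by
        by_contra hc
        push Not at hc
        exact h1 (Finset.ext hc)
      have h2 : (∏ i, if decide (i ∈ k.1) = decide (i ∈ k'.1) then
            (if i ∈ u then (m i (decide (i ∈ k.1)) : ℂ) else (l i (decide (i ∈ k.1)) : ℂ)) else 0) =
          0 := by
        refine Finset.prod_eq_zero (mem_univ i) ?_
        rw [if_neg]
        rw [decide_eq_decide]
        exact hi
      rw [h2, zero_mul, zero_mul, mul_zero]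
  -- the diagonal
  have hdiag : ∀ k : Finset ι × AddChar V ℂ, ∑ x, ∑ y, P k x * (M x y : ℂ) * Q' k y =
      (Fintype.card V : ℂ) ^ 2 * ∑ u : Finset ι, a u k.2 *
      ∏ i, (if i ∈ u then (m i (decide (i ∈ k.1)) : ℂ) else (l i (decide (i ∈ k.1)) : ℂ)) := by
    intro k
    rw [hmain, Finset.mul_sum]
    refine Finset.sum_congr rfl fun u _ => ?_
    rw [Finset.sum_eq_single k.2]
    · rw [if_pos rfl]
      have h1 : (∏ i, if decide (i ∈ k.1) = decide (i ∈ k.1) then
            (if i ∈ u then (m i (decide (i ∈ k.1)) : ℂ) else (l i (decide (i ∈ k.1)) : ℂ)) else 0) =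
          ∏ i, (if i ∈ u then (m i (decide (i ∈ k.1)) : ℂ) else (l i (decide (i ∈ k.1)) : ℂ)) :=
        Finset.prod_congr rfl fun i _ => if_pos rfl
      rw [h1]
      ring
    · intro ψ _ hψ
      rw [if_neg (fun h => hψ h.symm), mul_zero, mul_zero]
    · intro h
      exact absurd (mem_univ _) h
  have e1 : ∀ x y, g1_fn p k x * (M x y : ℂ) * g1_fn q k' y = P k x * (M x y : ℂ) * Q' k' y :=
    fun x y => rfl
  rw [Finset.sum_congr rfl fun x _ => Finset.sum_congr rfl fun y _ => e1 x y]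
  by_cases hkk : k = k'
  · rw [if_pos hkk, ← hkk]
    exact hdiag k
  · rw [if_neg hkk]
    exact hd k k' hkk

open Classical in
theorem rank_fam {G : ∀ i, A i → B i → Bool} {l m : ι → Bool → ℝ}
    (hG : ∀ i, Diag (G i) (l i) (m i)) (a : Q → Finset ι → AddChar V ℂ → ℂ)
    (M : (∀ i, A i) × V → Q × (∀ i, B i) × V → ℝ)
    (hM : ∀ x y, (M x y : ℂ) = ∑ u : Finset ι, ∑ χ : AddChar V ℂ,
      a y.1 u χ * (∏ i ∈ u, if G i (x.1 i) (y.2.1 i) then 1 else 0) * χ (x.2 + y.2.2)) :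
    (univ.filter fun p : Finset ι × AddChar V ℂ => ∃ s : Q, ∑ u : Finset ι, a s u p.2 *
      ∏ i, (if i ∈ u then (m i (decide (i ∈ p.1)) : ℂ) else (l i (decide (i ∈ p.1)) : ℂ)) ≠
        0).card ≤ (Matrix.of M).rank := by
  choose p q hpq using hG
  have hV : (Fintype.card V : ℂ) ≠ 0 := g1_card_ne
  set Fn : Q → Finset ι × AddChar V ℂ → ℂ := fun s k => ∑ u : Finset ι, a s u k.2 *
      ∏ i, (if i ∈ u then (m i (decide (i ∈ k.1)) : ℂ) else (l i (decide (i ∈ k.1)) : ℂ)) with hFn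
  set S : Finset (Finset ι × AddChar V ℂ) := univ.filter fun k => ∃ s : Q, Fn s k ≠ 0 with hS
  have hsel : ∀ k : S, ∃ s : Q, Fn s k.1 ≠ 0 := by
    intro k
    exact (Finset.mem_filter.mp k.2).2
  choose sel hsel' using hsel
  have key : ∀ k k' : S, ∑ x, ∑ y : Q × (∀ i, B i) × V, g1_fn p k.1 x * (M x y : ℂ) *
      (if y.1 = sel k' then g1_fn q k'.1 y.2 else 0) =
      if k.1 = k'.1 then (Fintype.card V : ℂ) ^ 2 * Fn (sel k') k.1 else 0 := by
    intro k k'
    rw [hFn, ← g1_main p q hpq (a (sel k')) (fun x y => M x (sel k', y))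
      (fun x y => hM x (sel k', y)) k.1 k'.1]
    apply Finset.sum_congr rfl
    intro x _
    rw [Fintype.sum_prod_type, Finset.sum_eq_single (sel k')]
    · apply Finset.sum_congr rfl
      intro y _
      rw [if_pos rfl]
    · intro s _ hs
      apply Finset.sum_eq_zero
      intro y _
      rw [if_neg hs, mul_zero]
    · intro h
      exact absurd (Finset.mem_univ _) h
  have h1 := rank_diag (K := S) M (fun k x => g1_fn p k.1 x)
    (fun k y => if y.1 = sel k then g1_fn q k.1 y.2 else 0) (by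
      intro k k' hkk
      rw [key k k', if_neg (fun h => hkk (Subtype.ext h))])
  refine le_trans (le_of_eq ?_) h1
  rw [Finset.filter_true_of_mem, Finset.card_univ, Fintype.card_coe]
  intro k _
  rw [key k k, if_pos rfl]
  exact mul_ne_zero (pow_ne_zero 2 hV) (hsel' k)

end Pool.Agent.AGN
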