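import Mathlib
import Pool.Agent.Lib_helper38.AGN.Defs
import Pool.Agent.Lib_helper38.AGG.Defs
import Pool.Agent.Lib_helper35.XA.G1
import Pool.Agent.Lib_helper16.XA.G4
import Pool.Agent.Lib_helper58.AGG.G5
import Pool.Agent.Lib_helper58.AGG.G6
import Pool.Agent.Lib_helper58.AGN.G1

set_option autoImplicit false

/-! AGN, G2: number and size of the monomials of a family -/

namespace Pool.Agent.AGN

open Finset Filter Pool.Agent.XA Pool.Agent.AGG Pool.Agent.AGN Pool.Agent.Lib_helper10.LogRank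

/-- the product which selects `u = T` -/
theorem g2_prod {ι : Type} [Fintype ι] [DecidableEq ι] (u T : Finset ι) :
    (∏ i, (if i ∈ u then (((if decide (i ∈ T) = true then 1 else 0 : ℝ)) : ℂ) else
      (((if decide (i ∈ T) = true then 0 else 1 : ℝ)) : ℂ))) = if u = T then 1 else 0 := by
  by_cases h : u = T
  · subst h
    rw [if_pos rfl]
    apply Finset.prod_eq_one
    intro i _
    by_cases hi : i ∈ u <;> simp [hi]
  · rw [if_neg h]
    have h1 : ∃ i, ¬ (i ∈ u ↔ i ∈ T) := by
      by_contra hc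
      push Not at hc
      exact h (Finset.ext hc)
    obtain ⟨i, hi⟩ := h1
    apply Finset.prod_eq_zero (Finset.mem_univ i)
    by_cases hu : i ∈ u
    · have hT : i ∉ T := fun hT => hi ⟨fun _ => hT, fun _ => hu⟩
      simp [hu, hT]
    · have hT : i ∈ T := by
        by_contra hT
        exact hi ⟨fun h => absurd h hu, fun h => absurd h hT⟩
      simp [hu, hT]

theorem g2_sum {ι : Type} [Fintype ι] [DecidableEq ι] (α : Finset ι → ℂ) (T : Finset ι) :
    (∑ u : Finset ι, α u *
      ∏ i, (if i ∈ u then (((if decide (i ∈ T) = true then 1 else 0 : ℝ)) : ℂ) else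
      (((if decide (i ∈ T) = true then 0 else 1 : ℝ)) : ℂ))) = α T := by
  rw [Finset.sum_eq_single T]
  · rw [g2_prod, if_pos rfl, mul_one]
  · intro u _ hu
    rw [g2_prod, if_neg hu, mul_zero]
  · intro h
    exact absurd (Finset.mem_univ T) h

variable {ι : Type} [Fintype ι] [DecidableEq ι] {A B : ι → Type} [∀ i, Fintype (A i)]
  [∀ i, Fintype (B i)] {V : Type} [AddCommGroup V] [Fintype V] {Q : Type} [Fintype Q]

open Classical in
theorem fam_basic {G : ∀ i, A i → B i → Bool} (N : Finset ι)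
    (hG : ∀ i, Diag (G i) (fun s => if s then 0 else 1) (fun s => if s then 1 else 0))
    (hN : ∀ i ∈ N, ∃ e : ℝ, e ≠ 0 ∧ Diag (G i) (fun s => if s then 0 else e) (fun _ => 1))
    (φ : Q → Finset ι → V → ℝ) (M : (∀ i, A i) × V → Q × (∀ i, B i) × V → ℝ)
    (hM : ∀ x y, M x y = φ y.1 (univ.filter fun i => G i (x.1 i) (y.2.1 i) = true)
      (x.2 + y.2.2)) {R : ℕ} (hR : (Matrix.of M).rank ≤ R) :
    (univ.filter fun p : Finset ι × AddChar V ℂ => ∃ s, coef (φ s) p.1 p.2 ≠ 0).card ≤ R ∧
      ∀ s u χ, coef (φ s) u χ ≠ 0 → (3 / 2 : ℝ) ^ (u ∩ N).card ≤ R := by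
  have hMexp : ∀ x y, (M x y : ℂ) = ∑ u : Finset ι, ∑ χ : AddChar V ℂ,
      (fun s : Q => coef (φ s)) y.1 u χ * (∏ i ∈ u, if G i (x.1 i) (y.2.1 i) then 1 else 0) *
        χ (x.2 + y.2.2) := by
    intro x y
    rw [hM, coef_expand]
    refine Finset.sum_congr rfl fun u _ => Finset.sum_congr rfl fun χ _ => ?_
    congr 2
    refine Finset.prod_congr rfl fun i _ => ?_
    have h3 : (i ∈ univ.filter fun i => G i (x.1 i) (y.2.1 i) = true) ↔
        G i (x.1 i) (y.2.1 i) = true :=
      ⟨fun h => (Finset.mem_filter.1 h).2, fun h => Finset.mem_filter.2 ⟨Finset.mem_univ i, h⟩⟩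
    by_cases h2 : G i (x.1 i) (y.2.1 i) = true
    · rw [if_pos h2, if_pos (h3.2 h2)]
    · rw [if_neg h2, if_neg (fun h => h2 (h3.1 h))]
  obtain ⟨e, he0, heD⟩ : ∃ e : ι → ℝ, (∀ i, e i ≠ 0) ∧
      ∀ i ∈ N, Diag (G i) (fun s => if s then 0 else e i) (fun _ => 1) := by
    have h1 : ∀ i, ∃ e : ℝ, e ≠ 0 ∧
        (i ∈ N → Diag (G i) (fun s => if s then 0 else e) (fun _ => 1)) := by
      intro i
      by_cases hi : i ∈ N
      · obtain ⟨e, he, hd⟩ := hN i hi
        exact ⟨e, he, fun _ => hd⟩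
      · exact ⟨1, one_ne_zero, fun h => absurd h hi⟩
    choose e he hd using h1
    exact ⟨e, he, hd⟩
  constructor
  · have h1 := rank_fam hG (fun s : Q => coef (φ s)) M hMexp
    refine le_trans ?_ (h1.trans hR)
    apply card_le_card
    intro p hp
    rw [mem_filter] at hp ⊢
    refine ⟨mem_univ _, ?_⟩
    obtain ⟨s, hs⟩ := hp.2
    refine ⟨s, ?_⟩
    have h2 := g2_sum (fun u => coef (φ s) u p.2) p.1
    rw [h2]
    exact hs
  · intro s u χ hu
    obtain ⟨σ, hσ, hcount⟩ := three_half N he0 (fun w => coef (φ s) w χ) hu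
    refine hcount.trans ?_
    have hD : ∀ i, Diag (G i) ((fun i s => if s then 0 else if i ∈ σ then e i else 1) i)
        ((fun i s => if i ∈ σ then 1 else if s then 1 else 0) i) := by
      intro i
      by_cases hi : i ∈ σ
      · have h3 := heD i (hσ hi)
        simpa only [if_pos hi] using h3
      · simpa only [if_neg hi] using hG i
    have h4 := rank_fam hD (fun s : Q => coef (φ s)) M hMexp
    have h5 : (univ.filter fun T : Finset ι => ∑ w : Finset ι, coef (φ s) w χ *
      ∏ i, (if i ∈ w then (((if i ∈ σ then 1 else if i ∈ T then 1 else 0 : ℝ)) : ℂ) else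
        (((if i ∈ T then 0 else if i ∈ σ then e i else 1 : ℝ)) : ℂ)) ≠ 0).card ≤
        (Matrix.of M).rank := by
      refine le_trans ?_ h4
      refine card_le_card_of_injOn (fun T => (T, χ)) ?_ ?_
      · intro T hT
        rw [mem_coe, mem_filter] at hT
        rw [mem_coe, mem_filter]
        refine ⟨mem_univ _, s, ?_⟩
        simpa only [decide_eq_true_eq] using hT.2
      · intro T _ T' _ h
        exact (Prod.mk.injEq _ _ _ _ ▸ h).1
    exact_mod_cast h5.trans hR

end Pool.Agent.AGN
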