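import Mathlib
import Pool.Agent.Lib_helper38.AGN.Defs
import Pool.Agent.Lib_helper58.AGG.G6

set_option autoImplicit false

/-! AGN, block G3: the coordinates in `N` become coordinates in a group -/

namespace Pool.Agent.AGN

open Finset Filter Pool.Agent.XA Pool.Agent.AGG Pool.Agent.Lib_helper10.LogRank Pool.Agent.AGN

variable {ι : Type} [Fintype ι] [DecidableEq ι] {V : Type} [AddCommGroup V] [Fintype V]

theorem g3_neg (S : Finset ι) : ∑ B ∈ S.powerset, (-1 : ℂ) ^ B.card = if S = ∅ then 1 else 0 := by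
  have h := Finset.sum_powerset_neg_one_pow_card (x := S)
  have h2 := congrArg (fun n : ℤ => (n : ℂ)) h
  push_cast at h2
  rw [h2]

theorem g3_mob (u t : Finset ι) :
    ∑ z ∈ u.powerset, (-1 : ℂ) ^ (u \ z).card * (if t ⊆ z then 1 else 0) =
      if t = u then 1 else 0 := by
  have h1 : ∑ z ∈ u.powerset, (-1 : ℂ) ^ (u \ z).card * (if t ⊆ z then 1 else 0) =
      ∑ B ∈ u.powerset, (-1 : ℂ) ^ B.card * (if t ⊆ u \ B then 1 else 0) := by
    refine Finset.sum_bij' (fun z _ => u \ z) (fun B _ => u \ B) ?_ ?_ ?_ ?_ ?_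
    · intro z _
      exact mem_powerset.2 sdiff_subset
    · intro B _
      exact mem_powerset.2 sdiff_subset
    · intro z hz
      exact Finset.sdiff_sdiff_eq_self (mem_powerset.1 hz)
    · intro B hB
      exact Finset.sdiff_sdiff_eq_self (mem_powerset.1 hB)
    · intro z hz
      rw [Finset.sdiff_sdiff_eq_self (mem_powerset.1 hz)]
  rw [h1]
  by_cases htu : t ⊆ u
  · have h2 : ∑ B ∈ u.powerset, (-1 : ℂ) ^ B.card * (if t ⊆ u \ B then 1 else 0) =
        ∑ B ∈ (u \ t).powerset, (-1 : ℂ) ^ B.card := by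
      have h3 : (u \ t).powerset = u.powerset.filter fun B => t ⊆ u \ B := by
        ext B
        simp only [mem_powerset, mem_filter, subset_sdiff, disjoint_comm, htu, true_and]
      rw [h3, sum_filter]
      refine sum_congr rfl fun B _ => ?_
      split_ifs <;> simp
    rw [h2, g3_neg]
    by_cases h3 : t = u
    · rw [if_pos h3, if_pos (by rw [h3, sdiff_self]; rfl)]
    · rw [if_neg h3, if_neg (fun h4 => h3 (Subset.antisymm htu
        (sdiff_eq_empty_iff_subset.1 h4)))]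
  · rw [if_neg (fun h => htu (by rw [h]))]
    refine sum_eq_zero fun B _ => ?_
    rw [if_neg (fun h => htu (h.trans sdiff_subset)), mul_zero]

theorem g3_sub (z N M u : Finset ι) (hM : M ⊆ N) :
    u ⊆ (z \ N) ∪ M ↔ u \ N ⊆ z ∧ u ∩ N ⊆ M := by
  constructor
  · intro h
    constructor
    · intro x hx
      obtain ⟨hxu, hxN⟩ := mem_sdiff.1 hx
      rcases mem_union.1 (h hxu) with h1 | h1
      · exact (mem_sdiff.1 h1).1
      · exact absurd (hM h1) hxN
    · intro x hx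
      obtain ⟨hxu, hxN⟩ := mem_inter.1 hx
      rcases mem_union.1 (h hxu) with h1 | h1
      · exact absurd hxN (mem_sdiff.1 h1).2
      · exact h1
  · rintro ⟨h1, h2⟩ x hx
    by_cases hxN : x ∈ N
    · exact mem_union_right _ (h2 (mem_inter.2 ⟨hx, hxN⟩))
    · exact mem_union_left _ (mem_sdiff.2 ⟨h1 (mem_sdiff.2 ⟨hx, hxN⟩), hxN⟩)

/-- the average over the new coordinates -/
noncomputable def g3E (N : Finset ι) (ψ : AddChar (V × (ι → ZMod 2)) ℂ) (w : Finset ι) : ℂ :=
  ∑ s : ι → ZMod 2, (starRingEnd ℂ) (ψ (0, s)) *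
    (if w ⊆ N.filter (fun i => s i = 1) then 1 else 0)

theorem g3_ft (N : Finset ι) (φ : Finset ι → V → ℝ) (z : Finset ι)
    (ψ : AddChar (V × (ι → ZMod 2)) ℂ) :
    ft (conv N φ z) ψ = (Fintype.card (ι → ZMod 2) : ℂ)⁻¹ *
      ∑ s : ι → ZMod 2, (starRingEnd ℂ) (ψ (0, s)) *
        ft (φ ((z \ N) ∪ N.filter fun i => s i = 1))
          (ψ.compAddMonoidHom (AddMonoidHom.inl V (ι → ZMod 2))) := by
  unfold ft
  rw [Fintype.card_prod, Nat.cast_mul, mul_inv, Fintype.sum_prod_type, sum_comm, mul_assoc,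
    mul_left_comm, mul_sum]
  congr 1
  refine sum_congr rfl fun s _ => ?_
  rw [mul_sum, mul_left_comm, mul_sum, mul_sum]
  refine sum_congr rfl fun v _ => ?_
  have h1 : ψ (v, s) = ψ (v, 0) * ψ (0, s) := by
    rw [← AddChar.map_add_eq_mul]
    simp
  have h2 : (ψ.compAddMonoidHom (AddMonoidHom.inl V (ι → ZMod 2))) v = ψ (v, 0) := rfl
  rw [h1, h2, map_mul]
  unfold conv
  ring

theorem g3_sl (N : Finset ι) (φ : Finset ι → V → ℝ) (z : Finset ι)
    (ψ : AddChar (V × (ι → ZMod 2)) ℂ) :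
    ft (conv N φ z) ψ = (Fintype.card (ι → ZMod 2) : ℂ)⁻¹ * ∑ u : Finset ι,
      (if u \ N ⊆ z then 1 else 0) * (coef φ u
        (ψ.compAddMonoidHom (AddMonoidHom.inl V (ι → ZMod 2))) * g3E N ψ (u ∩ N)) := by
  rw [g3_ft]
  congr 1
  set χ := ψ.compAddMonoidHom (AddMonoidHom.inl V (ι → ZMod 2)) with hχ
  have h1 : ∀ s : ι → ZMod 2, (starRingEnd ℂ) (ψ (0, s)) *
      ft (φ ((z \ N) ∪ N.filter fun i => s i = 1)) χ = ∑ u : Finset ι,
      (if u \ N ⊆ z then 1 else 0) * (coef φ u χ * ((starRingEnd ℂ) (ψ (0, s)) *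
        (if u ∩ N ⊆ N.filter (fun i => s i = 1) then 1 else 0))) := by
    intro s
    rw [← congrFun (sl_coef φ _) χ]
    unfold sl
    rw [mul_sum, ← Finset.sum_subset (Finset.subset_univ
      ((z \ N) ∪ N.filter fun i => s i = 1).powerset)]
    · refine sum_congr rfl fun u hu => ?_
      have h2 := (g3_sub z N _ u (filter_subset _ _)).1 (mem_powerset.1 hu)
      rw [if_pos h2.1, if_pos h2.2]
      ring
    · intro u _ hu
      by_cases h3 : u \ N ⊆ z
      · have h4 : ¬ u ∩ N ⊆ N.filter (fun i => s i = 1) := fun h5 =>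
          hu (mem_powerset.2 ((g3_sub z N _ u (filter_subset _ _)).2 ⟨h3, h5⟩))
        rw [if_neg h4]
        ring
      · rw [if_neg h3]
        ring
  rw [sum_congr rfl fun s _ => h1 s, sum_comm]
  refine sum_congr rfl fun u _ => ?_
  rw [← mul_sum, ← mul_sum]
  rfl

theorem g3_coef (N : Finset ι) (φ : Finset ι → V → ℝ) (u : Finset ι)
    (ψ : AddChar (V × (ι → ZMod 2)) ℂ) :
    coef (conv N φ) u ψ = (Fintype.card (ι → ZMod 2) : ℂ)⁻¹ * ∑ v : Finset ι,
      (if v \ N = u then 1 else 0) * (coef φ v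
        (ψ.compAddMonoidHom (AddMonoidHom.inl V (ι → ZMod 2))) * g3E N ψ (v ∩ N)) := by
  unfold coef
  have h1 : ∀ z ∈ u.powerset, (-1 : ℂ) ^ (u \ z).card * ft (conv N φ z) ψ =
      (Fintype.card (ι → ZMod 2) : ℂ)⁻¹ * ∑ v : Finset ι,
        ((-1 : ℂ) ^ (u \ z).card * (if v \ N ⊆ z then 1 else 0)) * (coef φ v
        (ψ.compAddMonoidHom (AddMonoidHom.inl V (ι → ZMod 2))) * g3E N ψ (v ∩ N)) := by
    intro z _
    rw [g3_sl, mul_left_comm, mul_sum]
    congr 1
    refine sum_congr rfl fun v _ => ?_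
    ring
  rw [sum_congr rfl h1, ← mul_sum, sum_comm]
  congr 1
  refine sum_congr rfl fun v _ => ?_
  rw [← sum_mul, g3_mob]
  rfl

theorem g3_E {N w : Finset ι} (hw : w ⊆ N) {ψ : AddChar (V × (ι → ZMod 2)) ℂ}
    (h : g3E N ψ w ≠ 0) : Sset ψ ⊆ w := by
  classical
  intro i hi
  by_contra hiw
  unfold Sset at hi
  have hψ := (mem_filter.1 hi).2
  apply h
  have h1 : g3E N ψ w = (starRingEnd ℂ) (ψ (0, Pi.single i 1)) * g3E N ψ w := by
    conv_lhs => unfold g3E
    rw [← Equiv.sum_comp (Equiv.addRight (Pi.single i 1 : ι → ZMod 2))]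
    unfold g3E
    rw [mul_sum]
    refine sum_congr rfl fun s _ => ?_
    rw [Equiv.coe_addRight]
    have h2 : ψ (0, s + Pi.single i 1) = ψ (0, s) * ψ (0, Pi.single i 1) := by
      rw [← AddChar.map_add_eq_mul]
      simp
    have h3 : w ⊆ N.filter (fun j => (s + Pi.single i 1 : ι → ZMod 2) j = 1) ↔
        w ⊆ N.filter (fun j => s j = 1) := by
      have h4 : ∀ j ∈ w, (s + Pi.single i 1 : ι → ZMod 2) j = s j := by
        intro j hj
        have hji : j ≠ i := fun h5 => hiw (h5 ▸ hj)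
        rw [Pi.add_apply, Pi.single_eq_of_ne hji, add_zero]
      constructor
      · intro h5 j hj
        have h6 := mem_filter.1 (h5 hj)
        exact mem_filter.2 ⟨h6.1, (h4 j hj) ▸ h6.2⟩
      · intro h5 j hj
        have h6 := mem_filter.1 (h5 hj)
        exact mem_filter.2 ⟨h6.1, (h4 j hj).trans h6.2⟩
    rw [h2, map_mul]
    by_cases h5 : w ⊆ N.filter (fun j => s j = 1)
    · rw [if_pos h5, if_pos (h3.2 h5)]
      ring
    · rw [if_neg h5, if_neg (fun h6 => h5 (h3.1 h6))]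
      ring
  have h2 : (1 - (starRingEnd ℂ) (ψ (0, Pi.single i 1))) * g3E N ψ w = 0 := by
    rw [sub_mul, one_mul, ← h1, sub_self]
  rcases mul_eq_zero.1 h2 with h3 | h3
  · exfalso
    apply hψ
    have h4 : (starRingEnd ℂ) (ψ (0, Pi.single i 1)) = 1 := (sub_eq_zero.1 h3).symm
    have h5 := congrArg (starRingEnd ℂ) h4
    rwa [Complex.conj_conj, map_one] at h5
  · exact h3

theorem conv_rel {N : Finset ι} {φ : Finset ι → V → ℝ} {u : Finset ι}
    {ψ : AddChar (V × (ι → ZMod 2)) ℂ} (h : coef (conv N φ) u ψ ≠ 0) :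
    Disjoint u N ∧ ∃ w ⊆ N, Sset ψ ⊆ w ∧
      coef φ (u ∪ w) (ψ.compAddMonoidHom (AddMonoidHom.inl V (ι → ZMod 2))) ≠ 0 := by
  classical
  rw [g3_coef] at h
  obtain ⟨v, -, hv⟩ := exists_ne_zero_of_sum_ne_zero (right_ne_zero_of_mul h)
  have h1 : v \ N = u := by
    by_contra h2
    rw [if_neg h2, zero_mul] at hv
    exact hv rfl
  rw [if_pos h1, one_mul] at hv
  have h2 := left_ne_zero_of_mul hv
  have h3 := right_ne_zero_of_mul hv
  refine ⟨?_, v ∩ N, inter_subset_right, g3_E inter_subset_right h3, ?_⟩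
  · rw [← h1]
    exact sdiff_disjoint
  · rw [← h1, sdiff_union_inter]
    exact h2

end Pool.Agent.AGN
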