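import Mathlib
import Pool.Agent.Lib_helper38.AGN.Defs
import Pool.Agent.Lib_helper38.AGG.Defs
import Pool.Agent.Lib_helper35.XA.G1
import Pool.Agent.Lib_helper16.XA.G4
import Pool.Agent.Lib_helper58.AGN.G3

set_option autoImplicit false

/-! AGN block G4: the number of monomials after the conversion -/

namespace Pool.Agent.AGN

open Finset Filter Pool.Agent.XA Pool.Agent.AGG Pool.Agent.Lib_helper10.LogRank Pool.Agent.AGN

variable {ι : Type} [Fintype ι] [DecidableEq ι] {V : Type} [AddCommGroup V] [Fintype V]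

theorem g4_pow {k R : ℕ} (h : (3 / 2 : ℝ) ^ k ≤ R) : 2 ^ k ≤ R ^ 2 := by
  have h1 : (2 : ℝ) ^ k ≤ (R : ℝ) ^ 2 := by
    calc (2 : ℝ) ^ k ≤ ((3 / 2 : ℝ) ^ 2) ^ k := by
          apply pow_le_pow_left₀ (by norm_num) (by norm_num)
      _ = ((3 / 2 : ℝ) ^ k) ^ 2 := by rw [← pow_mul, ← pow_mul, mul_comm]
      _ ≤ (R : ℝ) ^ 2 := pow_le_pow_left₀ (by positivity) h 2
  exact_mod_cast h1

theorem g4_sq (ψ : AddChar (V × (ι → ZMod 2)) ℂ) (i : ι) :
    ψ (0, Pi.single i 1) = 1 ∨ ψ (0, Pi.single i 1) = -1 := by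
  have h : ψ (0, Pi.single i 1) * ψ (0, Pi.single i 1) = 1 := by
    rw [← AddChar.map_add_eq_mul]
    have h2 : ((0, Pi.single i 1) + (0, Pi.single i 1) : V × (ι → ZMod 2)) = 0 := by
      rw [Prod.mk_add_mk, add_zero, ← Pi.single_add]
      have : (1 + 1 : ZMod 2) = 0 := by decide
      rw [this, Pi.single_zero]
      rfl
    rw [h2, AddChar.map_zero_eq_one]
  exact mul_self_eq_one_iff.1 h

theorem g4_sum {A : Type} [AddCommGroup A] (ψ : AddChar A ℂ) {J : Type} (f : J → A)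
    (s : Finset J) : ψ (∑ i ∈ s, f i) = ∏ i ∈ s, ψ (f i) := by
  classical
  induction s using Finset.induction_on with
  | empty => rw [Finset.sum_empty, Finset.prod_empty, AddChar.map_zero_eq_one]
  | insert a t ha ih => rw [Finset.sum_insert ha, Finset.prod_insert ha, AddChar.map_add_eq_mul, ih]

theorem g4_apply (ψ : AddChar (V × (ι → ZMod 2)) ℂ) (v : V) (s : ι → ZMod 2) :
    ψ (v, s) = ψ (v, 0) * ∏ i, ψ (0, Pi.single i (s i)) := by
  have h1 : (v, s) = ((v, 0) + ∑ i, (0, Pi.single i (s i)) : V × (ι → ZMod 2)) := by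
    have h2 : ∑ i, ((0, Pi.single i (s i)) : V × (ι → ZMod 2)) =
        AddMonoidHom.inr V (ι → ZMod 2) (∑ i, Pi.single i (s i)) := by
      rw [map_sum]
      rfl
    rw [h2, Finset.univ_sum_single]
    simp
  conv_lhs => rw [h1]
  rw [AddChar.map_add_eq_mul, g4_sum]

theorem g4_ext {ψ ψ' : AddChar (V × (ι → ZMod 2)) ℂ}
    (h1 : ψ.compAddMonoidHom (AddMonoidHom.inl V (ι → ZMod 2)) =
      ψ'.compAddMonoidHom (AddMonoidHom.inl V (ι → ZMod 2)))
    (h2 : Sset ψ = Sset ψ') : ψ = ψ' := by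
  classical
  ext p
  obtain ⟨v, s⟩ := p
  rw [g4_apply ψ, g4_apply ψ']
  have h3 : ψ (v, 0) = ψ' (v, 0) := by
    have := DFunLike.congr_fun h1 v
    simpa [AddChar.compAddMonoidHom_apply] using this
  rw [h3]
  congr 1
  refine Finset.prod_congr rfl fun i _ => ?_
  have h4 : ψ (0, Pi.single i 1) = ψ' (0, Pi.single i 1) := by
    have h5 : i ∈ Sset ψ ↔ i ∈ Sset ψ' := by rw [h2]
    unfold Sset at h5
    simp only [mem_filter, mem_univ, true_and] at h5
    rcases g4_sq ψ i with h | h <;> rcases g4_sq ψ' i with h' | h'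
    · rw [h, h']
    · exfalso
      have h6 : ψ' (0, Pi.single i 1) ≠ 1 := by rw [h']; norm_num
      exact (h5.2 h6) h
    · exfalso
      have h6 : ψ (0, Pi.single i 1) ≠ 1 := by rw [h]; norm_num
      exact (h5.1 h6) h'
    · rw [h, h']
  have h01 : ∀ a : ZMod 2, a = 0 ∨ a = 1 := by decide
  rcases h01 (s i) with h | h
  · rw [h, Pi.single_zero]
    have h7 : ((0, 0) : V × (ι → ZMod 2)) = 0 := rfl
    rw [h7, AddChar.map_zero_eq_one, AddChar.map_zero_eq_one]
  · rw [h, h4]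

open Classical in
theorem conv_count {Q : Type} [Fintype Q] {N : Finset ι} {φ : Q → Finset ι → V → ℝ} {R : ℕ}
    (h1 : (univ.filter fun p : Finset ι × AddChar V ℂ =>
      ∃ s, coef (φ s) p.1 p.2 ≠ 0).card ≤ R)
    (h2 : ∀ s u χ, coef (φ s) u χ ≠ 0 → (3 / 2 : ℝ) ^ (u ∩ N).card ≤ R) :
    (univ.filter fun p : Finset ι × AddChar (V × (ι → ZMod 2)) ℂ =>
      ∃ s, coef (conv N (φ s)) p.1 p.2 ≠ 0).card ≤ R ^ 3 ∧
      ∀ s u ψ, coef (conv N (φ s)) u ψ ≠ 0 → (Sset ψ).card ≤ tt (R ^ 3) := by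
  constructor
  · set K0 := univ.filter fun p : Finset ι × AddChar V ℂ => ∃ s, coef (φ s) p.1 p.2 ≠ 0 with hK0
    set T := K0.sigma (fun p => (p.1 ∩ N).powerset) with hT
    let g : (Σ _ : Finset ι × AddChar V ℂ, Finset ι) →
        Finset ι × AddChar (V × (ι → ZMod 2)) ℂ := fun t =>
      (t.1.1 \ N, if h : ∃ ψ : AddChar (V × (ι → ZMod 2)) ℂ,
        ψ.compAddMonoidHom (AddMonoidHom.inl V (ι → ZMod 2)) = t.1.2 ∧ Sset ψ = t.2
        then h.choose else 1)
    have hsub : (univ.filter fun p : Finset ι × AddChar (V × (ι → ZMod 2)) ℂ =>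
        ∃ s, coef (conv N (φ s)) p.1 p.2 ≠ 0) ⊆ T.image g := by
      rintro ⟨u, ψ⟩ hp
      simp only [mem_filter, mem_univ, true_and] at hp
      obtain ⟨s, hs⟩ := hp
      obtain ⟨hd, w, hw, hS, hc⟩ := conv_rel hs
      rw [mem_image]
      refine ⟨⟨(u ∪ w, ψ.compAddMonoidHom (AddMonoidHom.inl V (ι → ZMod 2))), Sset ψ⟩, ?_, ?_⟩
      · rw [hT, mem_sigma]
        refine ⟨?_, ?_⟩
        · rw [hK0]
          exact mem_filter.2 ⟨mem_univ _, s, hc⟩
        · rw [mem_powerset]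
          intro i hi
          exact mem_inter.2 ⟨mem_union_right _ (hS hi), hw (hS hi)⟩
      · have hex : ∃ ψ' : AddChar (V × (ι → ZMod 2)) ℂ,
            ψ'.compAddMonoidHom (AddMonoidHom.inl V (ι → ZMod 2)) =
              ψ.compAddMonoidHom (AddMonoidHom.inl V (ι → ZMod 2)) ∧ Sset ψ' = Sset ψ :=
          ⟨ψ, rfl, rfl⟩
        show ((u ∪ w) \ N, dite _ _ _) = (u, ψ)
        rw [dif_pos hex]
        have e1 : (u ∪ w) \ N = u := by
          ext i
          simp only [Finset.mem_sdiff, Finset.mem_union]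
          constructor
          · rintro ⟨h | h, hn⟩
            · exact h
            · exact (hn (hw h)).elim
          · intro h
            exact ⟨Or.inl h, fun hn => (Finset.disjoint_left.1 hd) h hn⟩
        rw [e1, g4_ext hex.choose_spec.1 hex.choose_spec.2]
    calc _ ≤ (T.image g).card := card_le_card hsub
      _ ≤ T.card := card_image_le
      _ = ∑ p ∈ K0, 2 ^ (p.1 ∩ N).card := by
          rw [hT, card_sigma]
          exact Finset.sum_congr rfl fun p _ => card_powerset _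
      _ ≤ ∑ _p ∈ K0, R ^ 2 := by
          refine Finset.sum_le_sum fun p hp => ?_
          rw [hK0] at hp
          simp only [mem_filter, mem_univ, true_and] at hp
          obtain ⟨s, hs⟩ := hp
          exact g4_pow (h2 s _ _ hs)
      _ = K0.card * R ^ 2 := by rw [sum_const, smul_eq_mul]
      _ ≤ R * R ^ 2 := Nat.mul_le_mul_right _ h1
      _ = R ^ 3 := by ring
  · intro s u ψ hs
    obtain ⟨hd, w, hw, hS, hc⟩ := conv_rel hs
    have h3 := h2 s _ _ hc
    have h4 := g4_pow h3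
    have hR : 1 ≤ R := by
      rcases Nat.eq_zero_or_pos R with h | h
      · exfalso
        rw [h] at h4
        have : 0 < 2 ^ ((u ∪ w) ∩ N).card := by positivity
        simp at h4
      · exact h
    have h5 : (Sset ψ).card ≤ ((u ∪ w) ∩ N).card := by
      apply card_le_card
      intro i hi
      exact mem_inter.2 ⟨mem_union_right _ (hS hi), hw (hS hi)⟩
    have h6 : 2 ^ ((u ∪ w) ∩ N).card ≤ R ^ 3 :=
      h4.trans (Nat.pow_le_pow_right hR (by norm_num))
    unfold tt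
    calc (Sset ψ).card ≤ ((u ∪ w) ∩ N).card := h5
      _ = Nat.clog 2 (2 ^ ((u ∪ w) ∩ N).card) := (Nat.clog_pow 2 _ (by norm_num)).symm
      _ ≤ Nat.clog 2 (R ^ 3) := Nat.clog_mono_right 2 h6

theorem sset_sub (ψ ψ' : AddChar (V × (ι → ZMod 2)) ℂ) :
    Sset (ψ - ψ') ⊆ Sset ψ ∪ Sset ψ' := by
  classical
  intro i hi
  rw [mem_union]
  by_contra hno
  push Not at hno
  obtain ⟨h1, h2⟩ := hno
  unfold Sset at hi h1 h2
  simp only [mem_filter, mem_univ, true_and, not_not] at hi h1 h2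
  apply hi
  rw [AddChar.sub_apply', h1, h2, div_one]

end Pool.Agent.AGN
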