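import Mathlib
import Pool.Agent.Lib_helper38.AGN.Defs

set_option autoImplicit false

/-! AGN, block G6: covers by rectangles -/

namespace Pool.Agent.AGN

open Finset Filter Pool.Agent.XA Pool.Agent.AGG Pool.Agent.AGN Pool.Agent.Lib_helper10.LogRank

section covers

variable {X Y : Type}

open Classical in
/-- a cover indexed by any finite type with at most `2 ^ κ` elements -/
theorem g6_of {I : Type} [Fintype I] {κ : ℕ} (hI : Fintype.card I ≤ 2 ^ κ) {A : Finset X}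
    {B : Finset Y} {φ : X → Y → ℂ} (RX : I → Finset X) (RY : I → Finset Y)
    (h1 : ∀ x ∈ A, ∀ y ∈ B, ∃ i, x ∈ RX i ∧ y ∈ RY i)
    (h2 : ∀ i, ∀ x ∈ RX i, ∀ x' ∈ RX i, ∀ y ∈ RY i, ∀ y' ∈ RY i, φ x y = φ x' y') :
    Cov κ A B φ := by
  obtain ⟨e⟩ : Nonempty (I ↪ Fin (2 ^ κ)) :=
    Function.Embedding.nonempty_of_card_le (by rw [Fintype.card_fin]; exact hI)
  refine ⟨fun j => if h : ∃ i, e i = j then RX h.choose else ∅,
    fun j => if h : ∃ i, e i = j then RY h.choose else ∅, ?_, ?_⟩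
  · intro x hx y hy
    obtain ⟨i, hi1, hi2⟩ := h1 x hx y hy
    refine ⟨e i, ?_⟩
    have h : ∃ i', e i' = e i := ⟨i, rfl⟩
    have hc : h.choose = i := e.injective h.choose_spec
    simp only [dif_pos h, hc]
    exact ⟨hi1, hi2⟩
  · intro j x hx x' hx' y hy y' hy'
    by_cases h : ∃ i, e i = j
    · simp only [dif_pos h] at hx hx' hy hy'
      exact h2 _ x hx x' hx' y hy y' hy'
    · simp [dif_neg h] at hx

theorem cov_mono {κ κ' : ℕ} (h : κ ≤ κ') {A A' : Finset X} {B B' : Finset Y} (hA : A' ⊆ A)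
    (hB : B' ⊆ B) {φ : X → Y → ℂ} (hφ : Cov κ A B φ) : Cov κ' A' B' φ := by
  obtain ⟨RX, RY, h1, h2⟩ := hφ
  refine g6_of ?_ RX RY (fun x hx y hy => h1 x (hA hx) y (hB hy)) h2
  rw [Fintype.card_fin]
  exact Nat.pow_le_pow_right (by norm_num) h

theorem cov_mul {κ κ' : ℕ} {A : Finset X} {B : Finset Y} {φ φ' : X → Y → ℂ}
    (h : Cov κ A B φ) (h' : Cov κ' A B φ') :
    Cov (κ + κ') A B (fun x y => φ x y * φ' x y) := by
  classical
  obtain ⟨RX, RY, h1, h2⟩ := h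
  obtain ⟨RX', RY', h1', h2'⟩ := h'
  refine g6_of (I := Fin (2 ^ κ) × Fin (2 ^ κ')) ?_ (fun p => RX p.1 ∩ RX' p.2)
    (fun p => RY p.1 ∩ RY' p.2) ?_ ?_
  · rw [Fintype.card_prod, Fintype.card_fin, Fintype.card_fin, pow_add]
  · intro x hx y hy
    obtain ⟨i, hi1, hi2⟩ := h1 x hx y hy
    obtain ⟨j, hj1, hj2⟩ := h1' x hx y hy
    exact ⟨(i, j), mem_inter.2 ⟨hi1, hj1⟩, mem_inter.2 ⟨hi2, hj2⟩⟩
  · rintro ⟨i, j⟩ x hx x' hx' y hy y' hy'
    simp only [mem_inter] at hx hx' hy hy'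
    rw [h2 i x hx.1 x' hx'.1 y hy.1 y' hy'.1, h2' j x hx.2 x' hx'.2 y hy.2 y' hy'.2]

theorem cov_left {κ : ℕ} (A : Finset X) (B : Finset Y) (f : X → ℂ)
    (h : (A.image f).card ≤ 2 ^ κ) : Cov κ A B (fun x _ => f x) := by
  classical
  refine g6_of (I := {c // c ∈ A.image f}) ?_ (fun c => A.filter fun x => f x = c.1)
    (fun _ => B) ?_ ?_
  · rw [Fintype.card_coe]
    exact h
  · intro x hx y hy
    exact ⟨⟨f x, mem_image_of_mem f hx⟩, mem_filter.2 ⟨hx, rfl⟩, hy⟩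
  · rintro c x hx x' hx' y - y' -
    rw [(mem_filter.1 hx).2, (mem_filter.1 hx').2]

theorem cov_right {κ : ℕ} (A : Finset X) (B : Finset Y) (f : Y → ℂ)
    (h : (B.image f).card ≤ 2 ^ κ) : Cov κ A B (fun _ y => f y) := by
  classical
  refine g6_of (I := {c // c ∈ B.image f}) ?_ (fun _ => A)
    (fun c => B.filter fun y => f y = c.1) ?_ ?_
  · rw [Fintype.card_coe]
    exact h
  · intro x hx y hy
    exact ⟨⟨f y, mem_image_of_mem f hy⟩, hx, mem_filter.2 ⟨hy, rfl⟩⟩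
  · rintro c x - x' - y hy y' hy'
    rw [(mem_filter.1 hy).2, (mem_filter.1 hy').2]

/-- combination of the covers of the two halves of a rectangle -/
theorem g6_sum {κ : ℕ} {A A₀ A₁ : Finset X} {B B₀ B₁ : Finset Y} {φ φ₀ φ₁ : X → Y → ℂ}
    (h₀ : Cov κ A₀ B₀ φ₀) (h₁ : Cov κ A₁ B₁ φ₁) (PX : X → Bool → Prop) (PY : Y → Bool → Prop)
    (hA : ∀ x ∈ A, ∀ y ∈ B, (x ∈ A₀ ∧ y ∈ B₀ ∧ PX x false ∧ PY y false) ∨
      (x ∈ A₁ ∧ y ∈ B₁ ∧ PX x true ∧ PY y true))
    (e₀ : ∀ x y, PX x false → PY y false → φ x y = φ₀ x y)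
    (e₁ : ∀ x y, PX x true → PY y true → φ x y = φ₁ x y) : Cov (κ + 1) A B φ := by
  classical
  obtain ⟨RX, RY, h1, h2⟩ := h₀
  obtain ⟨RX', RY', h1', h2'⟩ := h₁
  refine g6_of (I := Fin (2 ^ κ) ⊕ Fin (2 ^ κ)) ?_
    (Sum.elim (fun i => (RX i).filter fun x => PX x false)
      (fun i => (RX' i).filter fun x => PX x true))
    (Sum.elim (fun i => (RY i).filter fun y => PY y false)
      (fun i => (RY' i).filter fun y => PY y true)) ?_ ?_
  · rw [Fintype.card_sum, Fintype.card_fin, pow_succ, mul_two]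
  · intro x hx y hy
    rcases hA x hx y hy with ⟨a, b, c, d⟩ | ⟨a, b, c, d⟩
    · obtain ⟨i, hi1, hi2⟩ := h1 x a y b
      exact ⟨Sum.inl i, mem_filter.2 ⟨hi1, c⟩, mem_filter.2 ⟨hi2, d⟩⟩
    · obtain ⟨i, hi1, hi2⟩ := h1' x a y b
      exact ⟨Sum.inr i, mem_filter.2 ⟨hi1, c⟩, mem_filter.2 ⟨hi2, d⟩⟩
  · rintro (i | i) x hx x' hx' y hy y' hy'
    · obtain ⟨a, b⟩ := mem_filter.1 hx
      obtain ⟨a', b'⟩ := mem_filter.1 hx'
      obtain ⟨c, d⟩ := mem_filter.1 hy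
      obtain ⟨c', d'⟩ := mem_filter.1 hy'
      rw [e₀ x y b d, e₀ x' y' b' d']
      exact h2 i x a x' a' y c y' c'
    · obtain ⟨a, b⟩ := mem_filter.1 hx
      obtain ⟨a', b'⟩ := mem_filter.1 hx'
      obtain ⟨c, d⟩ := mem_filter.1 hy
      obtain ⟨c', d'⟩ := mem_filter.1 hy'
      rw [e₁ x y b d, e₁ x' y' b' d']
      exact h2' i x a x' a' y c y' c'

theorem g6_prot (A : Finset X) (B : Finset Y) (π : Protocol X Y) (f : Bool → ℂ) :
    Cov π.cost A B (fun x y => f (π.eval x y)) := by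
  classical
  induction π with
  | leaf b =>
    refine g6_of (I := Unit) (by simpa using Nat.one_le_two_pow) (fun _ => A) (fun _ => B)
      (fun x hx y hy => ⟨(), hx, hy⟩) ?_
    intro i x _ x' _ y _ y' _
    simp [Protocol.eval]
  | alice s t₀ t₁ ih₀ ih₁ =>
    have k₀ := cov_mono (le_max_left t₀.cost t₁.cost) (Finset.Subset.refl A)
      (Finset.Subset.refl B) ih₀
    have k₁ := cov_mono (le_max_right t₀.cost t₁.cost) (Finset.Subset.refl A)
      (Finset.Subset.refl B) ih₁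
    refine g6_sum k₀ k₁ (fun x b => s x = b) (fun _ _ => True) ?_ ?_ ?_
    · intro x hx y hy
      cases hs : s x
      · exact Or.inl ⟨hx, hy, rfl, trivial⟩
      · exact Or.inr ⟨hx, hy, rfl, trivial⟩
    · intro x y hx _
      simp only [Protocol.eval, hx]
      simp
    · intro x y hx _
      simp only [Protocol.eval, hx]
      simp
  | bob s t₀ t₁ ih₀ ih₁ =>
    have k₀ := cov_mono (le_max_left t₀.cost t₁.cost) (Finset.Subset.refl A)
      (Finset.Subset.refl B) ih₀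
    have k₁ := cov_mono (le_max_right t₀.cost t₁.cost) (Finset.Subset.refl A)
      (Finset.Subset.refl B) ih₁
    refine g6_sum k₀ k₁ (fun _ _ => True) (fun y b => s y = b) ?_ ?_ ?_
    · intro x hx y hy
      cases hs : s y
      · exact Or.inl ⟨hx, hy, trivial, rfl⟩
      · exact Or.inr ⟨hx, hy, trivial, rfl⟩
    · intro x y _ hy
      simp only [Protocol.eval, hy]
      simp
    · intro x y _ hy
      simp only [Protocol.eval, hy]
      simp

theorem cov_prot {κ : ℕ} (A : Finset X) (B : Finset Y) (π : Protocol X Y) (h : π.cost ≤ κ)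
    (f : Bool → ℂ) : Cov κ A B (fun x y => f (π.eval x y)) :=
  cov_mono h (Finset.Subset.refl A) (Finset.Subset.refl B) (g6_prot A B π f)

end covers

end Pool.Agent.AGN
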