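import Mathlib
import Pool.Agent.Lib_helper38.AGN.Defs
import Pool.Agent.Lib_helper38.AGG.Defs
import Pool.Agent.Lib_helper35.XA.G1
import Pool.Agent.Lib_helper16.XA.G4
import Pool.Agent.Lib_helper58.AGN.G6

set_option autoImplicit false

/-! AGN, block G7: the rectangles of a point of the converted group -/

namespace Pool.Agent.AGN

open Finset Filter Pool.Agent.XA Pool.Agent.AGG Pool.Agent.AGN Pool.Agent.Lib_helper10.LogRank

/-- the protocol on larger inputs -/
def g7_comap {X Y X' Y' : Type} (α : X → X') (β : Y → Y') : Protocol X' Y' → Protocol X Y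
  | Protocol.leaf b => Protocol.leaf b
  | Protocol.alice s t₀ t₁ => Protocol.alice (fun x => s (α x)) (g7_comap α β t₀) (g7_comap α β t₁)
  | Protocol.bob s t₀ t₁ => Protocol.bob (fun y => s (β y)) (g7_comap α β t₀) (g7_comap α β t₁)

theorem g7_comap_cost {X Y X' Y' : Type} (α : X → X') (β : Y → Y') (π : Protocol X' Y') :
    (g7_comap α β π).cost = π.cost := by
  induction π with
  | leaf b => rfl
  | alice s t₀ t₁ ih₀ ih₁ => simp only [g7_comap, Protocol.cost, ih₀, ih₁]
  | bob s t₀ t₁ ih₀ ih₁ => simp only [g7_comap, Protocol.cost, ih₀, ih₁]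

theorem g7_comap_eval {X Y X' Y' : Type} (α : X → X') (β : Y → Y') (π : Protocol X' Y') (x : X)
    (y : Y) : (g7_comap α β π).eval x y = π.eval (α x) (β y) := by
  induction π with
  | leaf b => rfl
  | alice s t₀ t₁ ih₀ ih₁ => simp only [g7_comap, Protocol.eval, ih₀, ih₁]
  | bob s t₀ t₁ ih₀ ih₁ => simp only [g7_comap, Protocol.eval, ih₀, ih₁]

/-- a product of coverable functions -/
theorem g7_prod {X Y J : Type} [DecidableEq J] {κ : ℕ} (A : Finset X) (B : Finset Y)
    (S : Finset J) (g : J → X → Y → ℂ) (h : ∀ i ∈ S, Cov κ A B (g i)) :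
    Cov (S.card * κ) A B (fun x y => ∏ i ∈ S, g i x y) := by
  classical
  induction S using Finset.induction_on with
  | empty =>
    simp only [card_empty, zero_mul, prod_empty]
    refine cov_left A B (fun _ => (1 : ℂ)) ?_
    rw [pow_zero]
    refine (card_le_card (t := {1}) ?_).trans (by simp)
    intro c hc
    obtain ⟨x, -, rfl⟩ := mem_image.1 hc
    simp
  | insert i S hi ih =>
    have h1 := cov_mul (h i (mem_insert_self i S)) (ih fun j hj => h j (mem_insert_of_mem hj))
    rw [card_insert_of_notMem hi]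
    have e : (S.card + 1) * κ = κ + S.card * κ := by ring
    rw [e]
    simp only [prod_insert hi]
    exact h1

/-- the number of values -/
theorem g7_card {W Z : Type} [AddCommGroup W] {r : ℕ} (t : AddChar W ℂ) (hpos : 0 < addOrderOf t)
    (ht : addOrderOf t ≤ r ^ 6) (A : Finset Z) (w : Z → W) :
    (A.image fun z => t (w z)).card ≤ 2 ^ (6 * tt r) := by
  classical
  have h1 : (A.image fun z => t (w z)) ⊆ Polynomial.nthRootsFinset (addOrderOf t) (1 : ℂ) := by
    intro c hc
    obtain ⟨z, -, rfl⟩ := mem_image.1 hc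
    rw [Polynomial.mem_nthRootsFinset hpos, ← AddChar.nsmul_apply, addOrderOf_nsmul_eq_zero]
    rfl
  have h2 : (Polynomial.nthRootsFinset (addOrderOf t) (1 : ℂ)).card ≤ addOrderOf t := by
    unfold Polynomial.nthRootsFinset
    exact (Multiset.toFinset_card_le _).trans (Polynomial.card_nthRoots _ _)
  have h3 : r ≤ 2 ^ tt r := Nat.le_pow_clog (by norm_num) r
  calc (A.image fun z => t (w z)).card
      ≤ (Polynomial.nthRootsFinset (addOrderOf t) (1 : ℂ)).card := card_le_card h1
    _ ≤ r ^ 6 := h2.trans ht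
    _ ≤ (2 ^ tt r) ^ 6 := Nat.pow_le_pow_left h3 6
    _ = 2 ^ (6 * tt r) := by rw [← pow_mul, mul_comm]

theorem cov_pt {ι : Type} [Fintype ι] [DecidableEq ι] {A B : ι → Type} [∀ i, Fintype (A i)]
    [∀ i, Fintype (B i)] {V : Type} [AddCommGroup V] [Fintype V] {Q : Type} [Fintype Q]
    {G : ∀ i, A i → B i → Bool} {κ r : ℕ} (hr : 2 ≤ r)
    (hG : ∀ i, ∃ π : Protocol (A i) (B i), (∀ a b, π.eval a b = G i a b) ∧ π.cost ≤ κ)
    (N : Finset ι) (t : AddChar (V × (ι → ZMod 2)) ℂ) (ht : addOrderOf t ≤ r ^ 6)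
    (hs : (Sset t).card ≤ 2 * tt r) :
    Cov (12 * tt r * (1 + κ)) univ univ
      (fun (x : (∀ i, A i) × V) (y : Q × (∀ i, B i) × V) =>
        t (x.2 + y.2.2, fun i => if i ∈ N ∧ G i (x.1 i) (y.2.1 i) = true then 1 else 0)) := by
  classical
  have hpos : 0 < addOrderOf t := addOrderOf_pos t
  -- the parts
  obtain ⟨g, hg⟩ : ∃ g : ι → ((∀ i, A i) × V) → (Q × (∀ i, B i) × V) → ℂ,
      g = fun i x y => t (0, Pi.single i
        (if i ∈ N ∧ G i (x.1 i) (y.2.1 i) = true then (1 : ZMod 2) else 0)) := ⟨_, rfl⟩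
  have key : ∀ (x : (∀ i, A i) × V) (y : Q × (∀ i, B i) × V),
      t (x.2 + y.2.2, fun i => if i ∈ N ∧ G i (x.1 i) (y.2.1 i) = true then 1 else 0) =
        t (x.2, 0) * (t (y.2.2, 0) * ∏ i ∈ Sset t, g i x y) := by
    intro x y
    obtain ⟨s, hs'⟩ : ∃ s : ι → ZMod 2,
        s = fun i => if i ∈ N ∧ G i (x.1 i) (y.2.1 i) = true then 1 else 0 := ⟨_, rfl⟩
    have h1 : ((x.2 + y.2.2, s) : V × (ι → ZMod 2)) =
        (x.2, 0) + ((y.2.2, 0) + ∑ i, ((0, Pi.single i (s i)) : V × (ι → ZMod 2))) := by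
      have h2 : ∑ i, ((0, Pi.single i (s i)) : V × (ι → ZMod 2)) = (0, s) := by
        have h3 := Finset.univ_sum_single s
        have h4 : ∑ i, ((0, Pi.single i (s i)) : V × (ι → ZMod 2)) =
            AddMonoidHom.inr V (ι → ZMod 2) (∑ i, Pi.single i (s i)) := by
          rw [map_sum]
          rfl
        rw [h4, h3]
        rfl
      rw [h2]
      simp
    rw [← hs', h1, AddChar.map_add_eq_mul, AddChar.map_add_eq_mul]
    congr 2
    have h5 : ∀ S : Finset ι, t (∑ i ∈ S, ((0, Pi.single i (s i)) : V × (ι → ZMod 2))) =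
        ∏ i ∈ S, t (0, Pi.single i (s i)) := by
      intro S
      induction S using Finset.induction_on with
      | empty => simp
      | insert i S hi ih => rw [sum_insert hi, prod_insert hi, AddChar.map_add_eq_mul, ih]
    rw [h5]
    symm
    have h6 : ∀ i, g i x y = t (0, Pi.single i (s i)) := by
      intro i
      rw [hg, hs']
    simp only [h6]
    refine prod_subset (subset_univ _) fun i _ hi => ?_
    have h7 : t (0, Pi.single i 1) = 1 := by
      by_contra hne
      exact hi (by simp [Sset, hne])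
    rw [hs']
    simp only
    split_ifs with hc
    · exact h7
    · rw [Pi.single_zero]
      exact AddChar.map_zero_eq_one t
  simp only [key]
  -- the three covers
  have c1 : Cov (6 * tt r) (univ : Finset ((∀ i, A i) × V)) (univ : Finset (Q × (∀ i, B i) × V))
      (fun x _ => t (x.2, 0)) :=
    cov_left univ univ (fun x : (∀ i, A i) × V => t (x.2, 0))
      (g7_card t hpos ht univ fun x : (∀ i, A i) × V => (x.2, 0))
  have c2 : Cov (6 * tt r) (univ : Finset ((∀ i, A i) × V)) (univ : Finset (Q × (∀ i, B i) × V))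
      (fun _ y => t (y.2.2, 0)) :=
    cov_right univ univ (fun y : Q × (∀ i, B i) × V => t (y.2.2, 0))
      (g7_card t hpos ht univ fun y : Q × (∀ i, B i) × V => (y.2.2, 0))
  have c3 : Cov ((Sset t).card * κ) (univ : Finset ((∀ i, A i) × V))
      (univ : Finset (Q × (∀ i, B i) × V)) (fun x y => ∏ i ∈ Sset t, g i x y) := by
    refine g7_prod univ univ (Sset t) g fun i _ => ?_
    obtain ⟨π, hπ, hκ⟩ := hG i
    have h1 := cov_prot (univ : Finset ((∀ i, A i) × V)) (univ : Finset (Q × (∀ i, B i) × V))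
      (g7_comap (fun x : (∀ i, A i) × V => x.1 i) (fun y : Q × (∀ i, B i) × V => y.2.1 i) π)
      ((g7_comap_cost _ _ π).le.trans hκ)
      (fun b => t (0, Pi.single i (if i ∈ N ∧ b = true then (1 : ZMod 2) else 0)))
    have h2 : g i = fun (x : (∀ i, A i) × V) (y : Q × (∀ i, B i) × V) =>
        t (0, Pi.single i (if i ∈ N ∧ (g7_comap (fun x : (∀ i, A i) × V => x.1 i)
          (fun y : Q × (∀ i, B i) × V => y.2.1 i) π).eval x y = true then (1 : ZMod 2)
            else 0)) := by
      funext x y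
      rw [g7_comap_eval, hπ, hg]
    rw [h2]
    exact h1
  have c4 := cov_mul c1 (cov_mul c2 c3)
  refine cov_mono ?_ (Finset.Subset.refl _) (Finset.Subset.refl _) c4
  have h1 : (Sset t).card * κ ≤ 2 * tt r * κ := Nat.mul_le_mul_right κ hs
  have h2 : 12 * tt r * (1 + κ) = 12 * tt r + 12 * (tt r * κ) := by ring
  have h3 : 2 * tt r * κ = 2 * (tt r * κ) := by ring
  rw [h2]
  rw [h3] at h1
  omega

end Pool.Agent.AGN
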