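import Mathlib
import Pool.Agent.Lib_helper38.AGN.Defs
import Pool.Agent.Lib_helper58.AGG.C1
import Pool.Agent.Lib_helper58.XA.Main

set_option autoImplicit false

/-! AGN, block H1: certificates for all groups -/

namespace Pool.Agent.AGN

open Finset Filter Pool.Agent.XA Pool.Agent.AGG Pool.Agent.AGN Pool.Agent.Lib_helper10.LogRank

theorem cert_all {δ : ℝ} (hδ : 0 < δ) : ∃ C : ℝ, 0 ≤ C ∧ ∀ r : ℕ, 2 ≤ r → ∃ d : ℕ, 1 ≤ d ∧
    (d : ℝ) ≤ C * (r : ℝ) ^ δ ∧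
    ∀ (V : Type) [AddCommGroup V] [Fintype V] [DecidableEq V], Cert r d V := by
  obtain ⟨C, hC, h⟩ := cert_exists no_aworld hδ
  refine ⟨C + 1, by positivity, ?_⟩
  intro r hr
  have hr1 : (1 : ℝ) ≤ r := by
    have : 1 ≤ r := by omega
    exact_mod_cast this
  have hp : (1 : ℝ) ≤ (r : ℝ) ^ δ := Real.one_le_rpow hr1 hδ.le
  refine ⟨⌊C * (r : ℝ) ^ δ⌋₊ + 1, by omega, ?_, ?_⟩
  · have h1 : (⌊C * (r : ℝ) ^ δ⌋₊ : ℝ) ≤ C * (r : ℝ) ^ δ := Nat.floor_le (by positivity)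
    push_cast
    linarith
  · intro V _ _ _ F hF hc ho ξ
    obtain ⟨T, hT, h1, h2⟩ := h r hr V F hF hc ho ξ
    exact ⟨T, (Nat.le_floor hT).trans (Nat.le_succ _), h1, h2⟩

end Pool.Agent.AGN
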