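import Mathlib
import Pool.Agent.Lib_helper38.AGN.Defs

set_option autoImplicit false

namespace Pool.Agent.AGN

open Finset Filter Pool.Agent.AGG Pool.Agent.AGN

/-- the bound for the logarithm -/
theorem h2n_log {δ : ℝ} (hδ : 0 < δ) : ∃ C : ℝ, 1 ≤ C ∧ ∀ R : ℕ, 2 ≤ R →
    (tt (R ^ 3) : ℝ) ≤ C * (R : ℝ) ^ δ := by
  refine ⟨3 * (1 / (δ * Real.log 2)) + 1 + 1, by
    have : 0 ≤ 3 * (1 / (δ * Real.log 2)) := by positivity
    linarith, fun R hR => ?_⟩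
  have hR1 : (1 : ℝ) ≤ R := by exact_mod_cast (by omega : 1 ≤ R)
  have hR0 : (0 : ℝ) < R := by linarith
  have h1 : (1 : ℝ) ≤ (R : ℝ) ^ δ := Real.one_le_rpow hR1 hδ.le
  have h2 : Real.log R ≤ (R : ℝ) ^ δ / δ := Real.log_le_rpow_div hR0.le hδ
  have h3 : (tt (R ^ 3) : ℝ) ≤ Real.logb 2 ((R ^ 3 : ℕ) : ℝ) + 1 := by
    unfold tt
    have hn : (1 : ℝ) < ((R ^ 3 : ℕ) : ℝ) := by
      exact_mod_cast Nat.one_lt_pow (by norm_num) (by omega)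
    have := Real.ceil_logb_natCast (b := 2) (r := ((R ^ 3 : ℕ) : ℝ)) (by positivity)
    have h4 : ((Nat.clog 2 (R ^ 3) : ℕ) : ℝ) = ((⌈Real.logb 2 ((R ^ 3 : ℕ) : ℝ)⌉ : ℤ) : ℝ) := by
      rw [show ((2 : ℝ)) = ((2 : ℕ) : ℝ) by norm_num, this, Int.clog_natCast]
      simp
    rw [h4]
    exact (Int.ceil_lt_add_one _).le
  have h5 : Real.logb 2 ((R ^ 3 : ℕ) : ℝ) = 3 * (Real.log R / Real.log 2) := by
    push_cast
    rw [Real.logb, Real.log_pow]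
    ring
  have hl2 : 0 < Real.log 2 := Real.log_pos (by norm_num)
  have h6 : Real.log R / Real.log 2 ≤ (1 / (δ * Real.log 2)) * (R : ℝ) ^ δ := by
    rw [div_le_iff₀ hl2]
    calc Real.log R ≤ (R : ℝ) ^ δ / δ := h2
      _ = (1 / (δ * Real.log 2)) * (R : ℝ) ^ δ * Real.log 2 := by field_simp
  nlinarith [h3, h5, h6, h1]

theorem h2n_up {a b k : ℝ} (h0 : 0 ≤ b) (h : a ≤ b) (hk : 1 ≤ k) : a ≤ b * k :=
  h.trans (le_mul_of_one_le_right h0 hk)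

theorem h2n_pow {n K x : ℝ} (hn : 0 ≤ n) (h : n ≤ K * x ^ 20) :
    2 * (8 * n) ^ 100 ≤ 2 * (8 * K) ^ 100 * x ^ 2000 := by
  have h0 : 8 * n ≤ 8 * K * x ^ 20 := by linarith
  have h1 : 0 ≤ 8 * n := by linarith
  have h2 := pow_le_pow_left₀ h1 h0 100
  rw [mul_pow (8 * K) (x ^ 20) 100, ← pow_mul x 20 100] at h2
  have h3 : (20 * 100 : ℕ) = 2000 := by norm_num
  rw [h3] at h2
  rw [mul_assoc 2 ((8 * K) ^ 100) (x ^ 2000)]
  exact mul_le_mul_of_nonneg_left h2 (by norm_num)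

theorem h2n_F (r d κ : ℕ) : (pF r d κ : ℝ) =
    2 * ((tt r : ℝ) * (((pE r d κ : ℝ) + 2) * ((pq r d : ℝ) * ((tt r : ℝ) + 1) + 1) +
      ((tt r : ℝ) + 3))) + 2 := by
  unfold pF
  generalize pE r d κ = e
  generalize pq r d = q
  generalize tt r = t
  push_cast
  ring

theorem h2n_end {x C T k e q K5 K6 : ℝ} (hx : 1 ≤ x) (hC : 1 ≤ C) (hT0 : 0 ≤ T) (hT : T ≤ C * x)
    (hk : 1 ≤ k) (he0 : 0 ≤ e) (hq0 : 0 ≤ q) (hK5 : 0 < K5) (hK6 : 0 < K6)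
    (he : e ≤ K6 * x ^ 21 * k) (hq : q ≤ K5 * x ^ 2000) :
    2 * (T * ((e + 2) * (q * (T + 1) + 1) + (T + 3))) + 2 ≤
      (2 * C * ((K6 + 2) * (2 * K5 * C + 1) + C + 3) + 2) * x ^ 2023 * k := by
  have hx0 : 0 < x := by linarith
  have hC0 : 0 < C := by linarith
  have hk0 : 0 < k := by linarith
  have h1x : ∀ n : ℕ, (1 : ℝ) ≤ x ^ n := fun n => one_le_pow₀ hx
  have hE2 : e + 2 ≤ (K6 + 2) * x ^ 21 * k := by
    have h1 : (2 : ℝ) ≤ 2 * x ^ 21 * k :=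
      h2n_up (mul_nonneg (by norm_num) (by linarith [h1x 21])) (by linarith [h1x 21]) hk
    have h2 : (K6 + 2) * x ^ 21 * k = K6 * x ^ 21 * k + 2 * x ^ 21 * k := by
      ring
    rw [h2]
    exact add_le_add he h1
  have hq2 : q * (T + 1) + 1 ≤ (2 * K5 * C + 1) * x ^ 2001 := by
    have hCx : 1 ≤ C * x := one_le_mul_of_one_le_of_one_le hC hx
    have h1 : T + 1 ≤ 2 * (C * x) := by linarith
    have h2 : q * (T + 1) ≤ (K5 * x ^ 2000) * (2 * (C * x)) :=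
      mul_le_mul hq h1 (by linarith) (by positivity)
    have h3 : (K5 * x ^ 2000) * (2 * (C * x)) = 2 * K5 * C * (x ^ 2000 * x) := by ring
    have h4 : x ^ 2000 * x = x ^ 2001 := (pow_succ x 2000).symm
    rw [h3, h4] at h2
    rw [add_mul]
    exact add_le_add h2 (by linarith [h1x 2001])
  have hprod : (e + 2) * (q * (T + 1) + 1) ≤
      (K6 + 2) * (2 * K5 * C + 1) * x ^ 2022 * k := by
    have h1 := mul_le_mul hE2 hq2 (by positivity) (by positivity)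
    have h2 : x ^ 21 * x ^ 2001 = x ^ 2022 := by rw [← pow_add]
    calc _ ≤ (K6 + 2) * x ^ 21 * k * ((2 * K5 * C + 1) * x ^ 2001) := h1
      _ = (K6 + 2) * (2 * K5 * C + 1) * (x ^ 21 * x ^ 2001) * k := by ring
      _ = _ := by rw [h2]
  have hT3 : T + 3 ≤ (C + 3) * x ^ 2022 * k := by
    have h1 : x ≤ x ^ 2022 := by
      calc x = x ^ 1 := (pow_one x).symm
        _ ≤ x ^ 2022 := pow_le_pow_right₀ hx (by norm_num)
    have h2 : T ≤ C * x ^ 2022 := hT.trans (mul_le_mul_of_nonneg_left h1 hC0.le)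
    have h3 : T + 3 ≤ (C + 3) * x ^ 2022 := by
      rw [add_mul]
      exact add_le_add h2 (by linarith [h1x 2022])
    exact h2n_up (mul_nonneg (by linarith) (by linarith [h1x 2022])) h3 hk
  have hS : (e + 2) * (q * (T + 1) + 1) + (T + 3) ≤
      ((K6 + 2) * (2 * K5 * C + 1) + C + 3) * x ^ 2022 * k := by
    calc _ ≤ (K6 + 2) * (2 * K5 * C + 1) * x ^ 2022 * k +
          (C + 3) * x ^ 2022 * k := add_le_add hprod hT3
      _ = _ := by ring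
  have hTS := mul_le_mul hT hS (by positivity) (by positivity)
  have h9 : x * x ^ 2022 = x ^ 2023 := (pow_succ' x 2022).symm
  have h10 : (2 : ℝ) ≤ 2 * x ^ 2023 * k :=
    h2n_up (mul_nonneg (by norm_num) (by linarith [h1x 2023])) (by linarith [h1x 2023]) hk
  have h11 : 2 * (T * ((e + 2) * (q * (T + 1) + 1) + (T + 3))) ≤
      2 * (C * x * (((K6 + 2) * (2 * K5 * C + 1) + C + 3) * x ^ 2022 * k)) :=
    mul_le_mul_of_nonneg_left hTS (by norm_num)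
  calc _ ≤ 2 * (C * x * (((K6 + 2) * (2 * K5 * C + 1) + C + 3) * x ^ 2022 * k)) +
        2 * x ^ 2023 * k := add_le_add h11 h10
    _ = 2 * C * ((K6 + 2) * (2 * K5 * C + 1) + C + 3) * (x * x ^ 2022) * k +
        2 * x ^ 2023 * k := by ring
    _ = _ := by rw [h9]; ring

/-- the chain of inequalities -/
theorem h2n_chain {r d κ : ℕ} {x C D : ℝ} (hx : 1 ≤ x) (hC : 1 ≤ C) (hD : 1 ≤ D)
    (hT1 : (1 : ℝ) ≤ tt r) (hT : (tt r : ℝ) ≤ C * x) (hd1 : (1 : ℝ) ≤ d)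
    (hd : (d : ℝ) ≤ D * x ^ 3) {K2 K3 K4 K5 K6 : ℝ} (hK2 : K2 = 28000 * D ^ 2 * C ^ 3)
    (hK3 : K3 = 11 * C * K2) (hK4 : K4 = 100 * K3 ^ 2) (hK5 : K5 = 2 * (8 * K4) ^ 100)
    (hK6 : K6 = 2 * C * K4 + 16 * C * K2) :
    (pF r d (12 * tt r * (1 + κ)) : ℝ) ≤
      (2 * C * ((K6 + 2) * (2 * K5 * C + 1) + C + 3) + 2) * x ^ 2023 * (1 + κ) := by
  have hx0 : 0 < x := by linarith
  have hC0 : 0 < C := by linarith
  have hD0 : 0 < D := by linarith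
  have hK20 : 0 < K2 := by rw [hK2]; positivity
  have hK30 : 0 < K3 := by rw [hK3]; positivity
  have hK40 : 0 < K4 := by rw [hK4]; positivity
  have hK50 : 0 < K5 := by rw [hK5]; positivity
  have hK60 : 0 < K6 := by rw [hK6]; positivity
  have hκ : (1 : ℝ) ≤ 1 + κ := by
    have : (0 : ℝ) ≤ κ := Nat.cast_nonneg κ
    linarith
  have hmono : ∀ {a b : ℕ}, a ≤ b → x ^ a ≤ x ^ b := fun h => pow_le_pow_right₀ hx h
  have h1x : ∀ n : ℕ, (1 : ℝ) ≤ x ^ n := fun n => one_le_pow₀ hx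
  obtain ⟨T, hTd⟩ : ∃ T : ℝ, T = (tt r : ℝ) := ⟨_, rfl⟩
  rw [← hTd] at hT1 hT
  obtain ⟨δ, hδd⟩ : ∃ δ : ℝ, δ = (d : ℝ) := ⟨_, rfl⟩
  rw [← hδd] at hd1 hd
  have hT0 : 0 < T := by linarith
  have hδ0 : 0 < δ := by linarith
  have hpD : (pD r : ℝ) ≤ 10 * C ^ 2 * x ^ 2 := by
    have : (pD r : ℝ) = (T + 2) ^ 2 + 1 := by unfold pD; push_cast; rw [hTd]
    rw [this]
    have h1 : (T + 2) ^ 2 + 1 ≤ 10 * T ^ 2 := by nlinarith
    have h2 : T ^ 2 ≤ (C * x) ^ 2 := pow_le_pow_left₀ hT0.le hT 2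
    nlinarith
  have hpD1 : (1 : ℝ) ≤ pD r := by
    unfold pD
    push_cast
    nlinarith [sq_nonneg ((tt r : ℝ) + 2)]
  have hpT : (pT r d : ℝ) ≤ K2 * x ^ 9 := by
    have : (pT r d : ℝ) = 2800 * (δ ^ 2 * (T * (pD r : ℝ))) := by
      unfold pT; push_cast; rw [hTd, hδd]; ring
    rw [this]
    have h1 : δ ^ 2 ≤ (D * x ^ 3) ^ 2 := pow_le_pow_left₀ hδ0.le hd 2
    have h2 : T * (pD r : ℝ) ≤ (C * x) * (10 * C ^ 2 * x ^ 2) :=
      mul_le_mul hT hpD (by linarith) (by positivity)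
    have h3 : δ ^ 2 * (T * (pD r : ℝ)) ≤ (D * x ^ 3) ^ 2 * ((C * x) * (10 * C ^ 2 * x ^ 2)) :=
      mul_le_mul h1 h2 (by positivity) (by positivity)
    calc 2800 * (δ ^ 2 * (T * (pD r : ℝ)))
        ≤ 2800 * ((D * x ^ 3) ^ 2 * ((C * x) * (10 * C ^ 2 * x ^ 2))) :=
          mul_le_mul_of_nonneg_left h3 (by norm_num)
      _ = K2 * x ^ 9 := by rw [hK2]; ring
  have hpT1 : (1 : ℝ) ≤ pT r d := by
    have : (pT r d : ℝ) = 2800 * (δ ^ 2 * (T * (pD r : ℝ))) := by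
      unfold pT; push_cast; rw [hTd, hδd]; ring
    rw [this]
    have h1 : (1 : ℝ) ≤ δ ^ 2 := one_le_pow₀ hd1
    have h2 : (1 : ℝ) ≤ T * (pD r : ℝ) := by nlinarith
    have h3 : (1 : ℝ) ≤ δ ^ 2 * (T * (pD r : ℝ)) := by nlinarith
    linarith
  have hpc : (pc r d : ℝ) + 1 ≤ K3 * x ^ 10 := by
    have : (pc r d : ℝ) = 10 * (T * (pT r d : ℝ)) := by unfold pc; push_cast; rw [hTd]; ring
    rw [this]
    have h1 : (1 : ℝ) ≤ T * (pT r d : ℝ) := by nlinarith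
    have h2 : T * (pT r d : ℝ) ≤ (C * x) * (K2 * x ^ 9) :=
      mul_le_mul hT hpT (by linarith) (by positivity)
    calc 10 * (T * (pT r d : ℝ)) + 1 ≤ 11 * (T * (pT r d : ℝ)) := by linarith
      _ ≤ 11 * ((C * x) * (K2 * x ^ 9)) := mul_le_mul_of_nonneg_left h2 (by norm_num)
      _ = K3 * x ^ 10 := by rw [hK3]; ring
  have hpN : (pN r d : ℝ) ≤ K4 * x ^ 20 := by
    have : (pN r d : ℝ) = 100 * ((pc r d : ℝ) + 1) ^ 2 := by unfold pN; push_cast; ring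
    rw [this]
    have h1 : ((pc r d : ℝ) + 1) ^ 2 ≤ (K3 * x ^ 10) ^ 2 :=
      pow_le_pow_left₀ (by positivity) hpc 2
    calc 100 * ((pc r d : ℝ) + 1) ^ 2 ≤ 100 * (K3 * x ^ 10) ^ 2 :=
          mul_le_mul_of_nonneg_left h1 (by norm_num)
      _ = K4 * x ^ 20 := by rw [hK4]; ring
  have hpq : (pq r d : ℝ) ≤ K5 * x ^ 2000 := by
    have h00 : (pq r d : ℝ) = 2 * (8 * (pN r d : ℝ)) ^ 100 := by
      unfold pq; rw [Nat.cast_mul, Nat.cast_pow, Nat.cast_mul]; norm_num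
    obtain ⟨n, hn⟩ : ∃ n : ℝ, n = (pN r d : ℝ) := ⟨_, rfl⟩
    have hn0 : 0 ≤ n := by rw [hn]; exact Nat.cast_nonneg _
    rw [← hn] at h00 hpN
    rw [h00, hK5]
    exact h2n_pow hn0 hpN
  have hpE : (pE r d (12 * tt r * (1 + κ)) : ℝ) ≤ K6 * x ^ 21 * (1 + κ) := by
    have : (pE r d (12 * tt r * (1 + κ)) : ℝ) = 2 * (T * (pN r d : ℝ)) + 4 * (T * (pT r d : ℝ)) +
        12 * (T * (pT r d : ℝ)) * (1 + κ) := by
      unfold pE; push_cast; rw [hTd]; ring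
    rw [this]
    have h1 : T * (pN r d : ℝ) ≤ (C * x) * (K4 * x ^ 20) :=
      mul_le_mul hT hpN (by positivity) (by positivity)
    have h2 : T * (pT r d : ℝ) ≤ (C * x) * (K2 * x ^ 9) :=
      mul_le_mul hT hpT (by linarith) (by positivity)
    have h3 : (C * x) * (K2 * x ^ 9) ≤ C * K2 * x ^ 21 := by
      calc (C * x) * (K2 * x ^ 9) = C * K2 * x ^ 10 := by ring
        _ ≤ C * K2 * x ^ 21 := mul_le_mul_of_nonneg_left (hmono (by norm_num)) (by positivity)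
    have h4 : (C * x) * (K4 * x ^ 20) = C * K4 * x ^ 21 := by ring
    have h5 : 0 ≤ C * K4 * x ^ 21 := by positivity
    have h6 : 0 ≤ C * K2 * x ^ 21 := by positivity
    have h7 : T * (pT r d : ℝ) ≤ C * K2 * x ^ 21 := h2.trans h3
    have h8 : T * (pN r d : ℝ) ≤ C * K4 * x ^ 21 := h1.trans h4.le
    calc 2 * (T * (pN r d : ℝ)) + 4 * (T * (pT r d : ℝ)) + 12 * (T * (pT r d : ℝ)) * (1 + κ)
        ≤ 2 * (C * K4 * x ^ 21) * (1 + κ) + 4 * (C * K2 * x ^ 21) * (1 + κ) +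
          12 * (C * K2 * x ^ 21) * (1 + κ) := by
          have e1 : 2 * (T * (pN r d : ℝ)) ≤ 2 * (C * K4 * x ^ 21) * (1 + κ) :=
            h2n_up (mul_nonneg (by norm_num) h5)
              (mul_le_mul_of_nonneg_left h8 (by norm_num)) hκ
          have e2 : 4 * (T * (pT r d : ℝ)) ≤ 4 * (C * K2 * x ^ 21) * (1 + κ) :=
            h2n_up (mul_nonneg (by norm_num) h6)
              (mul_le_mul_of_nonneg_left h7 (by norm_num)) hκ
          have e3 : 12 * (T * (pT r d : ℝ)) * (1 + κ) ≤ 12 * (C * K2 * x ^ 21) * (1 + κ) :=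
            mul_le_mul_of_nonneg_right (by linarith) (by linarith)
          linarith
      _ = K6 * x ^ 21 * (1 + κ) := by rw [hK6]; ring
  have hF : (pF r d (12 * tt r * (1 + κ)) : ℝ) =
      2 * (T * (((pE r d (12 * tt r * (1 + κ)) : ℝ) + 2) * ((pq r d : ℝ) * (T + 1) + 1) +
        (T + 3))) + 2 := by
    rw [hTd]
    exact h2n_F r d (12 * tt r * (1 + κ))
  rw [hF]
  obtain ⟨e, he⟩ : ∃ e : ℝ, e = (pE r d (12 * tt r * (1 + κ)) : ℝ) := ⟨_, rfl⟩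
  obtain ⟨q, hq⟩ : ∃ q : ℝ, q = (pq r d : ℝ) := ⟨_, rfl⟩
  have he0 : 0 ≤ e := by rw [he]; exact Nat.cast_nonneg _
  have hq0 : 0 ≤ q := by rw [hq]; exact Nat.cast_nonneg _
  rw [← he] at hpE ⊢
  rw [← hq] at hpq ⊢
  exact h2n_end hx hC hT0.le hT hκ he0 hq0 hK50 hK60 hpE hpq

theorem num_final {ε C₀ : ℝ} (hε : 0 < ε) (hC₀ : 0 ≤ C₀) : ∃ C : ℝ, 0 ≤ C ∧ ∀ R d κ : ℕ,
    2 ≤ R → 1 ≤ d → (d : ℝ) ≤ C₀ * ((R ^ 3 : ℕ) : ℝ) ^ (ε / 10000) →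
    (pF (R ^ 3) d (12 * tt (R ^ 3) * (1 + κ)) : ℝ) ≤ C * (R : ℝ) ^ ε * (1 + κ) := by
  obtain ⟨C, hC, hlog⟩ := h2n_log (δ := ε / 10000) (by positivity)
  obtain ⟨D, hD⟩ : ∃ D : ℝ, D = C₀ + 1 := ⟨_, rfl⟩
  have hD1 : 1 ≤ D := by rw [hD]; linarith
  obtain ⟨K2, hK2⟩ : ∃ K2 : ℝ, K2 = 28000 * D ^ 2 * C ^ 3 := ⟨_, rfl⟩
  obtain ⟨K3, hK3⟩ : ∃ K3 : ℝ, K3 = 11 * C * K2 := ⟨_, rfl⟩
  obtain ⟨K4, hK4⟩ : ∃ K4 : ℝ, K4 = 100 * K3 ^ 2 := ⟨_, rfl⟩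
  obtain ⟨K5, hK5⟩ : ∃ K5 : ℝ, K5 = 2 * (8 * K4) ^ 100 := ⟨_, rfl⟩
  obtain ⟨K6, hK6⟩ : ∃ K6 : ℝ, K6 = 2 * C * K4 + 16 * C * K2 := ⟨_, rfl⟩
  have hC0 : 0 < C := by linarith
  have hD0 : 0 < D := by linarith
  have hK20 : 0 < K2 := by rw [hK2]; positivity
  have hK30 : 0 < K3 := by rw [hK3]; positivity
  have hK40 : 0 < K4 := by rw [hK4]; positivity
  have hK50 : 0 < K5 := by rw [hK5]; positivity
  have hK60 : 0 < K6 := by rw [hK6]; positivity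
  refine ⟨2 * C * ((K6 + 2) * (2 * K5 * C + 1) + C + 3) + 2, by positivity, ?_⟩
  intro R d κ hR hd hdC
  have hR1 : (1 : ℝ) ≤ R := by exact_mod_cast (by omega : 1 ≤ R)
  have hR0 : (0 : ℝ) < R := by linarith
  obtain ⟨x, hx⟩ : ∃ x : ℝ, x = (R : ℝ) ^ (ε / 10000) := ⟨_, rfl⟩
  have hx1 : 1 ≤ x := by rw [hx]; exact Real.one_le_rpow hR1 (by positivity)
  have hT1 : (1 : ℝ) ≤ tt (R ^ 3) := by
    have : 1 ≤ tt (R ^ 3) := by
      unfold tt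
      exact Nat.clog_pos (by norm_num) (by
        calc 2 ≤ R := hR
          _ ≤ R ^ 3 := Nat.le_self_pow (by norm_num) R)
    exact_mod_cast this
  have hdx : (d : ℝ) ≤ D * x ^ 3 := by
    have h1 : ((R ^ 3 : ℕ) : ℝ) ^ (ε / 10000) = x ^ 3 := by
      push_cast
      rw [hx, ← Real.rpow_natCast, ← Real.rpow_natCast, ← Real.rpow_mul hR0.le,
        ← Real.rpow_mul hR0.le]
      ring_nf
    rw [h1] at hdC
    have h2 : 0 ≤ x ^ 3 := by positivity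
    calc (d : ℝ) ≤ C₀ * x ^ 3 := hdC
      _ ≤ D * x ^ 3 := mul_le_mul_of_nonneg_right (by rw [hD]; linarith) h2
  have hch := h2n_chain (r := R ^ 3) (d := d) (κ := κ) hx1 hC hD1 hT1
    (by rw [hx]; exact hlog R hR) (by exact_mod_cast hd) hdx hK2 hK3 hK4 hK5 hK6
  refine hch.trans ?_
  have hxp : x ^ 2023 ≤ (R : ℝ) ^ ε := by
    rw [hx, ← Real.rpow_natCast, ← Real.rpow_mul hR0.le]
    refine Real.rpow_le_rpow_of_exponent_le hR1 ?_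
    push_cast
    nlinarith
  have hκ : (0 : ℝ) ≤ 1 + κ := by positivity
  exact mul_le_mul_of_nonneg_right (mul_le_mul_of_nonneg_left hxp (by positivity)) hκ

end Pool.Agent.AGN
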