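import Mathlib
import Pool.Agent.Lib_helper38.AGN.Defs
import Pool.Agent.Lib_helper10.AndRank.Rect

set_option autoImplicit false

/-! AGN, block R1: the most popular event -/

namespace Pool.Agent.AGN

open Finset Filter Pool.Agent.XA Pool.Agent.AGG Pool.Agent.Lib_helper10.LogRank
  Pool.Agent.Lib_helper10.AndRank Pool.Agent.AGN

theorem r1_enum {α : Type} (S R : Finset α) (hR : R ⊆ S) (n : ℕ) (h : R.card ≤ n) :
    ∃ f : Fin n → Option ↥S, ∀ a : ↥S, (∃ i, f i = some a) ↔ a.1 ∈ R := by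
  refine ⟨fun i => if hi : (i : ℕ) < R.card then
    some ⟨(R.equivFin.symm ⟨i, hi⟩).1, hR (R.equivFin.symm ⟨i, hi⟩).2⟩ else none, fun a => ?_⟩
  constructor
  · rintro ⟨i, hi⟩
    simp only at hi
    split_ifs at hi with h1
    have h2 := Option.some.inj hi
    rw [← h2]
    exact (R.equivFin.symm ⟨i, h1⟩).2
  · intro ha
    refine ⟨⟨(R.equivFin ⟨a.1, ha⟩ : ℕ), lt_of_lt_of_le (R.equivFin ⟨a.1, ha⟩).2 h⟩, ?_⟩
    simp only
    rw [dif_pos (R.equivFin ⟨a.1, ha⟩).2]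
    congr 1
    apply Subtype.ext
    simp

theorem r1_tt {r : ℕ} (hr : 2 ≤ r) : 1 ≤ tt r ∧ r ≤ 2 ^ tt r := by
  constructor
  · exact Nat.clog_pos (by norm_num) hr
  · exact Nat.le_pow_clog (by norm_num) r

theorem r1_card {r d κ : ℕ} (hr : 2 ≤ r) {a b : ℕ} (ha : a ≤ r) (hb : b ≤ r + r * r) :
    (a + 1) ^ pN r d * ((b + 1) ^ pT r d * (2 ^ κ) ^ pT r d) ≤ 2 ^ pE r d κ := by
  obtain ⟨h1, h2⟩ := r1_tt hr
  have h3 : a + 1 ≤ 2 ^ (2 * tt r) := by
    have h4 : 2 * 2 ^ tt r ≤ 2 ^ (2 * tt r) := by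
      rw [← pow_succ']
      exact Nat.pow_le_pow_right (by norm_num) (by omega)
    omega
  have h5 : b + 1 ≤ 2 ^ (4 * tt r) := by
    have h6 : r + 1 ≤ 2 ^ (2 * tt r) := by
      have h4 : 2 * 2 ^ tt r ≤ 2 ^ (2 * tt r) := by
        rw [← pow_succ']
        exact Nat.pow_le_pow_right (by norm_num) (by omega)
      omega
    calc b + 1 ≤ (r + 1) * (r + 1) := by nlinarith
      _ ≤ 2 ^ (2 * tt r) * 2 ^ (2 * tt r) := Nat.mul_le_mul h6 h6
      _ = 2 ^ (4 * tt r) := by rw [← pow_add]; congr 1; ring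
  calc (a + 1) ^ pN r d * ((b + 1) ^ pT r d * (2 ^ κ) ^ pT r d)
      ≤ (2 ^ (2 * tt r)) ^ pN r d * ((2 ^ (4 * tt r)) ^ pT r d * (2 ^ κ) ^ pT r d) :=
        Nat.mul_le_mul (Nat.pow_le_pow_left h3 _)
          (Nat.mul_le_mul (Nat.pow_le_pow_left h5 _) le_rfl)
    _ = 2 ^ pE r d κ := by
        rw [← pow_mul, ← pow_mul, ← pow_mul, ← pow_add, ← pow_add]
        congr 1
        unfold pE
        ring

variable {ι : Type} [Fintype ι] [DecidableEq ι] {V : Type} [AddCommGroup V] [Fintype V]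
  [DecidableEq V] {X Y : Type}

theorem r1_Ns (S : Finset V) {r : ℕ} (h : S.card ≤ r) : (Ns S).card ≤ r + r * r := by
  unfold Ns
  refine (card_union_le _ _).trans (add_le_add h ?_)
  refine card_image_le.trans ?_
  rw [card_product]
  exact Nat.mul_le_mul h h

/-- the set of an event -/
def r1U {K₁ : Finset (Finset ι)} {n : ℕ} (R : Fin n → Option ↥K₁) : Finset ι :=
  univ.biUnion fun i => (R i).elim ∅ (fun u => u.1)

/-- the characters of an event -/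
def r1T {N₁ : Finset V} {n : ℕ} (T : Fin n → Option ↥N₁) : Finset V :=
  univ.biUnion fun i => (T i).elim ∅ (fun t => {t.1})

theorem r1_U {K₁ R : Finset (Finset ι)} (hR : R ⊆ K₁) {n : ℕ} {f : Fin n → Option ↥K₁}
    (hf : ∀ a : ↥K₁, (∃ i, f i = some a) ↔ a.1 ∈ R) : r1U f = R.biUnion id := by
  ext p
  simp only [r1U, mem_biUnion, mem_univ, true_and, id]
  constructor
  · rintro ⟨i, hi⟩
    rcases hfi : f i with _ | a
    · rw [hfi] at hi
      simp at hi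
    · rw [hfi] at hi
      exact ⟨a.1, (hf a).1 ⟨i, hfi⟩, hi⟩
  · rintro ⟨u, hu, hp⟩
    obtain ⟨i, hi⟩ := (hf ⟨u, hR hu⟩).2 hu
    refine ⟨i, ?_⟩
    rw [hi]
    exact hp

theorem r1_T {N₁ T : Finset V} (hT : T ⊆ N₁) {n : ℕ} {f : Fin n → Option ↥N₁}
    (hf : ∀ a : ↥N₁, (∃ i, f i = some a) ↔ a.1 ∈ T) : r1T f = T := by
  ext p
  simp only [r1T, mem_biUnion, mem_univ, true_and]
  constructor
  · rintro ⟨i, hi⟩
    rcases hfi : f i with _ | a
    · rw [hfi] at hi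
      simp at hi
    · rw [hfi] at hi
      have : p = a.1 := by simpa using hi
      rw [this]
      exact (hf a).1 ⟨i, hfi⟩
  · intro hp
    obtain ⟨i, hi⟩ := (hf ⟨p, hT hp⟩).2 hp
    refine ⟨i, ?_⟩
    rw [hi]
    simp

theorem event_pop {r d κ : ℕ} (hr : 2 ≤ r) {A : Finset X} {B : Finset Y} (hA : A.Nonempty)
    (hB : B.Nonempty) {P : X → Finset ι} {Q : Y → Finset ι} {ζ : X → Y → AddChar V ℂ}
    {K : Finset (Finset ι × V)} (hK : K.card ≤ r)
    (hcov : ∀ t ∈ Ns (K.image Prod.snd), Cov κ A B fun x y => ζ x y t)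
    (Φ : Finset X → Y → Finset ι → Finset V → X → Prop)
    (h : ∀ A₀ ⊆ A, A₀.Nonempty → ∀ y ∈ B, ∃ R ⊆ K.image Prod.fst, R.card ≤ pN r d ∧
      ∃ T ⊆ Ns (K.image Prod.snd), T.card ≤ pT r d ∧ ∃ x ∈ A₀, R.biUnion id ⊆ P x ∩ Q y ∧
        Φ A₀ y (R.biUnion id) T x) :
    ∃ A₀ ⊆ A, ∃ (U : Finset ι) (T : Finset V), ∃ A₁ ⊆ A₀, ∃ B₁ ⊆ B,
      A.card ≤ 2 ^ (pE r d κ + 1) * A₁.card ∧ B.card ≤ 2 ^ (pE r d κ + 1) * B₁.card ∧
      (∀ x ∈ A₁, ∀ y ∈ B₁, U ⊆ P x ∩ Q y) ∧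
      (∀ t ∈ T, ∀ x ∈ A₁, ∀ x' ∈ A₁, ∀ y ∈ B₁, ∀ y' ∈ B₁, ζ x y t = ζ x' y' t) ∧
      ∀ y ∈ B₁, ∃ x ∈ A₁, Φ A₀ y U T x := by
  classical
  set K₁ := K.image Prod.fst with hK₁
  set N₁ := Ns (K.image Prod.snd) with hN₁
  have hc : ∀ t : ↥N₁, Cov κ A B fun x y => ζ x y t.1 := fun t => hcov t.1 t.2
  choose RX RY h1 h2 using hc
  let E := (Fin (pN r d) → Option ↥K₁) × ((Fin (pT r d) → Option ↥N₁) ×
    (Fin (pT r d) → Fin (2 ^ κ)))
  let PX : E → X → Prop := fun e x => r1U e.1 ⊆ P x ∧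
    ∀ i t, e.2.1 i = some t → x ∈ RX t (e.2.2 i)
  let QY : E → Y → Prop := fun e y => r1U e.1 ⊆ Q y ∧
    ∀ i t, e.2.1 i = some t → y ∈ RY t (e.2.2 i)
  have hcardE : (univ : Finset E).card ≤ 2 ^ pE r d κ := by
    have ha : K₁.card ≤ r := card_image_le.trans hK
    have hb : N₁.card ≤ r + r * r := r1_Ns _ (card_image_le.trans hK)
    have h3 : (univ : Finset E).card =
        (K₁.card + 1) ^ pN r d * ((N₁.card + 1) ^ pT r d * (2 ^ κ) ^ pT r d) := by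
      rw [card_univ]
      simp only [E, Fintype.card_prod, Fintype.card_fun, Fintype.card_option, Fintype.card_coe,
        Fintype.card_fin]
    rw [h3]
    exact r1_card hr ha hb
  obtain ⟨A₀, hA₀, hA₀c, hA₀e⟩ := cleaning A (univ : Finset E) PX (2 ^ pE r d κ) hcardE
    (by positivity)
  have hA₀n : A₀.Nonempty := by
    rw [← card_pos]
    have := card_pos.2 hA
    omega
  have key : ∀ y ∈ B, ∃ e : E, ∃ x ∈ A₀, PX e x ∧ QY e y ∧ Φ A₀ y (r1U e.1) (r1T e.2.1) x := by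
    intro y hy
    obtain ⟨R, hR, hRc, T, hT, hTc, x, hx, hRP, hΦ⟩ := h A₀ hA₀ hA₀n y hy
    obtain ⟨f, hf⟩ := r1_enum K₁ R hR _ hRc
    obtain ⟨g, hg⟩ := r1_enum N₁ T hT _ hTc
    have h3 : ∀ i, ∃ j : Fin (2 ^ κ), ∀ t, g i = some t → x ∈ RX t j ∧ y ∈ RY t j := by
      intro i
      rcases hgi : g i with _ | t
      · exact ⟨⟨0, by positivity⟩, fun t ht => by simp at ht⟩
      · obtain ⟨j, hj⟩ := h1 t x (hA₀ hx) y hy
        refine ⟨j, fun t' ht' => ?_⟩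
        rw [← Option.some.inj ht']
        exact hj
    choose ρ hρ using h3
    have hU : r1U f = R.biUnion id := r1_U hR hf
    have hTT : r1T g = T := r1_T hT hg
    refine ⟨⟨f, g, ρ⟩, x, hx, ⟨?_, fun i t ht => (hρ i t ht).1⟩,
      ⟨?_, fun i t ht => (hρ i t ht).2⟩, ?_⟩
    · show r1U f ⊆ P x
      rw [hU]
      exact hRP.trans inter_subset_left
    · show r1U f ⊆ Q y
      rw [hU]
      exact hRP.trans inter_subset_right
    · show Φ A₀ y (r1U f) (r1T g) x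
      rw [hU, hTT]
      exact hΦ
  obtain ⟨y₀, hy₀⟩ := hB
  have hne : Nonempty E := ⟨(key y₀ hy₀).choose⟩
  have hX : Nonempty X := ⟨hA.choose⟩
  choose! e x hx hPX hQY hΦ using key
  obtain ⟨e₀, -, he₀⟩ := exists_max_image (univ : Finset E)
    (fun e' => (B.filter fun y => e y = e').card) univ_nonempty
  have hBc : B.card ≤ 2 ^ pE r d κ * (B.filter fun y => e y = e₀).card := by
    rw [card_eq_sum_card_fiberwise (f := e) (t := (univ : Finset E)) (s := B)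
      (fun y _ => mem_coe.2 (mem_univ _))]
    refine (sum_le_card_nsmul _ _ _ fun e' he' => he₀ e' he').trans ?_
    rw [smul_eq_mul]
    exact Nat.mul_le_mul hcardE le_rfl
  have hB₁n : (B.filter fun y => e y = e₀).Nonempty := by
    rw [← card_pos]
    rcases Nat.eq_zero_or_pos (B.filter fun y => e y = e₀).card with h0 | h0
    · rw [h0, mul_zero] at hBc
      have := card_pos.2 ⟨y₀, hy₀⟩
      omega
    · exact h0
  obtain ⟨y₁, hy₁⟩ := hB₁n
  obtain ⟨hy₁B, hy₁e⟩ := mem_filter.1 hy₁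
  refine ⟨A₀, hA₀, r1U e₀.1, r1T e₀.2.1, A₀.filter (PX e₀), filter_subset _ _,
    B.filter (fun y => e y = e₀), filter_subset _ _, ?_, ?_, ?_, ?_, ?_⟩
  · rcases hA₀e e₀ (mem_univ _) with h3 | h3
    · exact absurd (hy₁e ▸ hPX y₁ hy₁B) (h3 _ (hx y₁ hy₁B))
    · rw [pow_succ']
      exact h3
  · refine hBc.trans (Nat.mul_le_mul ?_ le_rfl)
    exact Nat.pow_le_pow_right (by norm_num) (Nat.le_succ _)
  · intro x' hx' y' hy'
    obtain ⟨hy'B, hy'e⟩ := mem_filter.1 hy'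
    have h3 := hQY y' hy'B
    rw [hy'e] at h3
    exact subset_inter (mem_filter.1 hx').2.1 h3.1
  · intro t ht x' hx' x'' hx'' y' hy' y'' hy''
    simp only [r1T, mem_biUnion, mem_univ, true_and] at ht
    obtain ⟨i, hi⟩ := ht
    rcases hgi : e₀.2.1 i with _ | t'
    · rw [hgi] at hi
      simp at hi
    · rw [hgi] at hi
      have h4 : t = t'.1 := by simpa using hi
      obtain ⟨hy'B, hy'e⟩ := mem_filter.1 hy'
      obtain ⟨hy''B, hy''e⟩ := mem_filter.1 hy''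
      have h5 := hQY y' hy'B
      rw [hy'e] at h5
      have h6 := hQY y'' hy''B
      rw [hy''e] at h6
      rw [h4]
      exact h2 t' (e₀.2.2 i) x' ((mem_filter.1 hx').2.2 i t' hgi) x''
        ((mem_filter.1 hx'').2.2 i t' hgi) y' (h5.2 i t' hgi) y'' (h6.2 i t' hgi)
  · intro y' hy'
    obtain ⟨hy'B, hy'e⟩ := mem_filter.1 hy'
    refine ⟨x y', mem_filter.2 ⟨hx y' hy'B, ?_⟩, ?_⟩
    · have := hPX y' hy'B
      rw [hy'e] at this
      exact this
    · have := hΦ y' hy'B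
      rw [hy'e] at this
      exact this

end Pool.Agent.AGN
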