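import Mathlib
import Pool.Agent.Lib_helper38.AGN.Defs
import Pool.Agent.Lib_helper38.AGG.Defs
import Pool.Agent.Lib_helper58.XA.K2a
import Pool.Agent.Lib_helper16.XA.K2c
import Pool.Agent.Lib_helper67.XA.K5
import Pool.Agent.Lib_helper10.LogRank.Cube
import Pool.Agent.Lib_helper58.XA.Main
import Pool.Agent.Lib_helper10.AndRank.Core
import Pool.Agent.Lib_helper58.AGG.A1
import Pool.Agent.Lib_helper58.AGG.A2a
import Pool.Agent.Lib_helper58.AGG.A2b
import Pool.Agent.Lib_helper58.AGN.N3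
import Pool.Agent.Lib_helper58.AGN.R1

set_option autoImplicit false

/-! AGN, block R2: no monomials are left -/

namespace Pool.Agent.AGN

open Finset Filter Pool.Agent.XA Pool.Agent.AGG Pool.Agent.Lib_helper10.LogRank
  Pool.Agent.Lib_helper10.AndRank Pool.Agent.AGN

variable {ι : Type} [Fintype ι] [DecidableEq ι] {V : Type} [AddCommGroup V] [Fintype V]
  [DecidableEq V] {X Y : Type}

theorem r2_pT {r d : ℕ} (hr : 2 ≤ r) (hd : 1 ≤ d) : d ≤ pT r d := by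
  have h1 : 1 ≤ tt r := Nat.clog_pos (by norm_num) hr
  have h2 : 1 ≤ pD r := by unfold pD; omega
  unfold pT
  calc d ≤ 700 * d * tt r := by nlinarith
    _ = 700 * d * tt r * 1 := (mul_one _).symm
    _ ≤ 700 * d * tt r * (2 * pD r * (2 * d)) := Nat.mul_le_mul le_rfl (by nlinarith)

theorem r2_sl (a : Finset ι → V → ℂ) : sl a ∅ = a ∅ := by
  funext χ
  simp [sl]

theorem r2_ev {A : Finset X} {P : X → Finset ι} {Q : Finset ι} {ζ : X → AddChar V ℂ}
    {a : Finset ι → V → ℂ} (h0 : mon a (DA A P Q ζ) = ∅) {x : X} (hx : x ∈ A) :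
    ev (sl a (P x ∩ Q)) (ζ x) = ev (a ∅) (ζ x) := by
  classical
  rw [ev_sl]
  refine sum_eq_single_of_mem ∅ (empty_mem_powerset _) fun u hu hne => ?_
  have h1 : ∀ χ, a u χ = 0 := by
    intro χ
    by_contra h2
    have h3 : (u, χ) ∈ mon a (DA A P Q ζ) := by
      unfold mon
      exact mem_filter.2 ⟨mem_univ _, nonempty_iff_ne_empty.2 hne, h2, ζ x, x, hx,
        mem_powerset.1 hu, rfl⟩
    rw [h0] at h3
    simp at h3
  unfold ev
  exact sum_eq_zero fun c _ => by rw [h1 c, zero_mul]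

theorem rect_base {r d κ : ℕ} (hr : 2 ≤ r) (hd : 1 ≤ d) (hc : Cert r d V) {A : Finset X}
    {B : Finset Y} {P : X → Finset ι} {Q : Y → Finset ι} {ζ : X → Y → AddChar V ℂ}
    {a : Y → Finset ι → V → ℂ} {K : Finset (Finset ι × V)} (h : Dat r κ A B ζ a K)
    (h0 : ∀ y ∈ B, mon (a y) (DA A P (Q y) fun x => ζ x y) = ∅) :
    ∃ A' ⊆ A, ∃ B' ⊆ B, A.card ≤ 2 ^ (pE r d κ + 1) * A'.card ∧
      B.card ≤ 2 ^ (pE r d κ + 1) * B'.card ∧
      ∀ y ∈ B', ∃ b, ∀ x ∈ A', ev (sl (a y) (P x ∩ Q y)) (ζ x y) = b := by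
  classical
  rcases A.eq_empty_or_nonempty with rfl | hA
  · exact ⟨∅, Subset.rfl, B, Subset.rfl, by simp, Nat.le_mul_of_pos_left _ (by positivity),
      fun y _ => ⟨0, by simp⟩⟩
  rcases B.eq_empty_or_nonempty with rfl | hB
  · exact ⟨A, Subset.rfl, ∅, Subset.rfl, Nat.le_mul_of_pos_left _ (by positivity), by simp,
      by simp⟩
  obtain ⟨A₀, hA₀, U, T, A₁, hA₁, B₁, hB₁, hcA, hcB, -, hT, hΦ⟩ :=
    event_pop (r := r) (d := d) (κ := κ) hr hA hB (P := P) (Q := Q) h.card h.cov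
      (fun _ y _ T x => ∀ ζ' ∈ Cos T (ζ x y), ev (a y ∅) ζ' = ev (a y ∅) (ζ x y)) (by
        intro A₀ _ hA₀n y hy
        obtain ⟨x, hx⟩ := hA₀n
        have hst := st_of (h.mix y hy) (h.sup y hy) h.card h.ord
        have hbf : BF (a y ∅) := by
          rw [← r2_sl (a y)]
          exact h.mix y hy ∅
        have hsp : (spt (a y ∅)).card ≤ r := by
          rw [← r2_sl (a y)]
          exact (card_le_card (spt_sl_sub (a y) ∅)).trans ((card_chs (a y)).trans hst.1.nz)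
        obtain ⟨T, hTc, hTd, hTe⟩ := hc (a y ∅) hbf hsp (fun c hc' => hst.1.ord ∅ c hc') (ζ x y)
        refine ⟨∅, empty_subset _, by simp, T, ?_, hTc.trans (r2_pT hr hd), x, hx, by simp, hTe⟩
        rw [← r2_sl (a y)] at hTd
        exact (dif_sub_Nb hTd).trans hst.2)
  refine ⟨A₁, hA₁.trans hA₀, B₁, hB₁, hcA, hcB, fun y hy => ?_⟩
  obtain ⟨x₀, hx₀, hx₀e⟩ := hΦ y hy
  refine ⟨ev (a y ∅) (ζ x₀ y), fun x hx => ?_⟩
  rw [r2_ev (h0 y (hB₁ hy)) (hA₀ (hA₁ hx))]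
  apply hx₀e
  rw [Cos, mem_filter]
  exact ⟨mem_univ _, fun t ht => hT t ht x hx x₀ hx₀ y hy y hy⟩

end Pool.Agent.AGN
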