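import Mathlib
import Pool.Agent.Lib_helper38.AGN.Defs

set_option autoImplicit false

/-! AGN, block K8b -/

namespace Pool.Agent.AGN

open Finset Filter Pool.Agent.XA Pool.Agent.AGG Pool.Agent.AGN Pool.Agent.Lib_helper10.LogRank

theorem k8b_tt {r : ℕ} (hr : 2 ≤ r) : 1 ≤ tt r := by
  unfold tt
  exact Nat.clog_pos (by norm_num) hr

theorem k8b_le (r : ℕ) : r ≤ 2 ^ tt r := by
  unfold tt
  exact Nat.le_pow_clog (by norm_num) r

theorem k8b_pow {r d : ℕ} : (r : ℝ) ^ (232 * d) ≤ 2 ^ (232 * (d * tt r)) := by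
  have h1 : (r : ℝ) ≤ 2 ^ tt r := by exact_mod_cast k8b_le r
  calc (r : ℝ) ^ (232 * d) ≤ ((2 : ℝ) ^ tt r) ^ (232 * d) :=
        pow_le_pow_left₀ (Nat.cast_nonneg r) h1 _
    _ = 2 ^ (232 * (d * tt r)) := by
        rw [← pow_mul]
        congr 1
        ring

theorem num_k {r d : ℕ} (hr : 2 ≤ r) (hd : 1 ≤ d) :
    (r : ℝ) ^ (232 * d) < (4 / 3) ^ (700 * d * tt r) := by
  have ht : 1 ≤ d * tt r := Nat.one_le_iff_ne_zero.2
    (Nat.mul_ne_zero (by omega) (by have := k8b_tt hr; omega))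
  calc (r : ℝ) ^ (232 * d) ≤ 2 ^ (232 * (d * tt r)) := k8b_pow
    _ < 2 ^ (233 * (d * tt r)) := by
        apply pow_lt_pow_right₀ (by norm_num)
        omega
    _ ≤ ((4 / 3 : ℝ) ^ 3) ^ (233 * (d * tt r)) :=
        pow_le_pow_left₀ (by norm_num) (by norm_num) _
    _ = (4 / 3) ^ (3 * (233 * (d * tt r))) := by rw [← pow_mul]
    _ ≤ (4 / 3) ^ (700 * d * tt r) := by
        apply pow_le_pow_right₀ (by norm_num)
        have h : 700 * d * tt r = 700 * (d * tt r) := by ring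
        rw [h]
        omega

theorem num_h {r d : ℕ} (hr : 2 ≤ r) (hd : 1 ≤ d) :
    (r : ℝ) ^ (232 * d) * (1 - 1 / (16 * (pD r : ℝ))) ^ pH r d < 1 := by
  have ht : 1 ≤ d * tt r := Nat.one_le_iff_ne_zero.2
    (Nat.mul_ne_zero (by omega) (by have := k8b_tt hr; omega))
  have hD1 : 1 ≤ pD r := by unfold pD; omega
  have hD : (1 : ℝ) ≤ (pD r : ℝ) := by exact_mod_cast hD1
  have hx : (0 : ℝ) ≤ 1 - 1 / (16 * (pD r : ℝ)) := by
    rw [sub_nonneg, div_le_one (by positivity)]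
    linarith
  have hp : (1 - 1 / (16 * (pD r : ℝ))) ^ pH r d ≤ Real.exp (-(233 * ((d * tt r : ℕ) : ℝ))) := by
    have h1 : 1 - 1 / (16 * (pD r : ℝ)) ≤ Real.exp (-(1 / (16 * (pD r : ℝ)))) := by
      have := Real.add_one_le_exp (-(1 / (16 * (pD r : ℝ))))
      linarith
    calc (1 - 1 / (16 * (pD r : ℝ))) ^ pH r d
        ≤ (Real.exp (-(1 / (16 * (pD r : ℝ))))) ^ pH r d := pow_le_pow_left₀ hx h1 _
      _ = Real.exp (-(233 * ((d * tt r : ℕ) : ℝ))) := by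
          rw [← Real.exp_nat_mul]
          congr 1
          have hH : (pH r d : ℝ) = 16 * (pD r : ℝ) * (233 * ((d * tt r : ℕ) : ℝ)) := by
            unfold pH
            push_cast
            ring
          rw [hH]
          have h0 : (pD r : ℝ) ≠ 0 := by positivity
          field_simp
  have h2 : (2 : ℝ) ≤ Real.exp 1 := by
    have := Real.add_one_le_exp (1 : ℝ)
    linarith
  have hq : (r : ℝ) ^ (232 * d) ≤ Real.exp (232 * ((d * tt r : ℕ) : ℝ)) := by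
    calc (r : ℝ) ^ (232 * d) ≤ 2 ^ (232 * (d * tt r)) := k8b_pow
      _ ≤ (Real.exp 1) ^ (232 * (d * tt r)) := pow_le_pow_left₀ (by norm_num) h2 _
      _ = Real.exp (232 * ((d * tt r : ℕ) : ℝ)) := by
          rw [← Real.exp_nat_mul]
          congr 1
          push_cast
          ring
  have hlast : Real.exp (232 * ((d * tt r : ℕ) : ℝ)) * Real.exp (-(233 * ((d * tt r : ℕ) : ℝ))) < 1 := by
    rw [← Real.exp_add, Real.exp_lt_one_iff]
    have : (1 : ℝ) ≤ ((d * tt r : ℕ) : ℝ) := by exact_mod_cast ht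
    linarith
  refine lt_of_le_of_lt ?_ hlast
  exact mul_le_mul hq hp (pow_nonneg hx _) (Real.exp_pos _).le

theorem num_c {r d : ℕ} (hr : 2 ≤ r) (hd : 1 ≤ d) :
    (r ^ 3 + 1) ^ pT r d * (r ^ 6) ^ pT r d ≤ 2 ^ pc r d := by
  have h1 : r ^ 3 + 1 ≤ r ^ 4 := by
    have h3 : 1 ≤ r ^ 3 := Nat.one_le_pow _ _ (by omega)
    calc r ^ 3 + 1 ≤ 2 * r ^ 3 := by omega
      _ ≤ r * r ^ 3 := Nat.mul_le_mul_right _ hr
      _ = r ^ 4 := by ring
  calc (r ^ 3 + 1) ^ pT r d * (r ^ 6) ^ pT r d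
      ≤ (r ^ 4) ^ pT r d * (r ^ 6) ^ pT r d :=
        Nat.mul_le_mul_right _ (Nat.pow_le_pow_left h1 _)
    _ = (r ^ 10) ^ pT r d := by rw [← Nat.mul_pow]; congr 1; ring
    _ ≤ ((2 ^ tt r) ^ 10) ^ pT r d :=
        Nat.pow_le_pow_left (Nat.pow_le_pow_left (k8b_le r) _) _
    _ = 2 ^ pc r d := by
        unfold pc
        rw [← pow_mul, ← pow_mul]
        congr 1
        ring

end Pool.Agent.AGN
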