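import Mathlib
import Pool.Agent.Lib_helper38.AGN.Defs

set_option autoImplicit false

/-! AGN, block K1 -/

namespace Pool.Agent.AGN

open Finset Filter Pool.Agent.XA Pool.Agent.AGG Pool.Agent.AGN Pool.Agent.Lib_helper10.LogRank

theorem k1_sub {ι : Type} [DecidableEq ι] {N : ℕ} (v : Fin N → Finset ι) {I K : Finset (Fin N)}
    (hK : K ⊆ I) {u : Finset ι} (hu : u ⊆ K.biUnion v) :
    (I.filter fun j => ¬ Disjoint u (v j \ (I.erase j).biUnion v)) ⊆ K := by
  intro j hj
  rw [Finset.mem_filter] at hj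
  obtain ⟨_, hd⟩ := hj
  rw [Finset.not_disjoint_iff] at hd
  obtain ⟨i, hiu, hiv⟩ := hd
  rw [Finset.mem_sdiff] at hiv
  obtain ⟨_, hin⟩ := hiv
  have hm := hu hiu
  rw [Finset.mem_biUnion] at hm
  obtain ⟨k, hk, hik⟩ := hm
  by_cases hkj : k = j
  · rw [← hkj]; exact hk
  · exact absurd (Finset.mem_biUnion.2 ⟨k, Finset.mem_erase.2 ⟨hkj, hK hk⟩, hik⟩) hin

theorem k1_count {ι α : Type} [DecidableEq α] (I : Finset α) (Us : Finset ι) (J : ι → Finset α)
    (hJ : ∀ u, J u ⊆ I) {t : ℕ} (hU : Us.card ≤ 2 ^ t) :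
    2 * ((Us.filter fun u => t + 3 ≤ (J u).card).biUnion fun u => Finset.Icc (J u) I).card <
      2 ^ I.card := by
  classical
  rcases (Us.filter fun u => t + 3 ≤ (J u).card).eq_empty_or_nonempty with he | ⟨u₀, hu₀⟩
  · rw [he]
    simp
  · have hI : t + 3 ≤ I.card :=
      (Finset.mem_filter.1 hu₀).2.trans (Finset.card_le_card (hJ u₀))
    have h1 : ((Us.filter fun u => t + 3 ≤ (J u).card).biUnion
        fun u => Finset.Icc (J u) I).card ≤ 2 ^ t * 2 ^ (I.card - (t + 3)) := by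
      refine (Finset.card_biUnion_le_card_mul _ _ (2 ^ (I.card - (t + 3))) ?_).trans ?_
      · intro u hu
        rw [Finset.card_Icc_finset (hJ u)]
        exact Nat.pow_le_pow_right (by norm_num)
          (Nat.sub_le_sub_left (Finset.mem_filter.1 hu).2 _)
      · exact Nat.mul_le_mul_right _ ((Finset.card_filter_le _ _).trans hU)
    have h2 : (2 : ℕ) ^ I.card = 2 ^ t * 2 ^ (I.card - (t + 3)) * 8 := by
      rw [← pow_add, show (8 : ℕ) = 2 ^ 3 by norm_num, ← pow_add]
      congr 1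
      omega
    have h3 : 0 < 2 ^ t * 2 ^ (I.card - (t + 3)) := by positivity
    rw [h2]
    omega

theorem choose_K {ι : Type} [DecidableEq ι] {N : ℕ} (v : Fin N → Finset ι) (I : Finset (Fin N))
    (Us : Finset (Finset ι)) {t : ℕ} (hU : Us.card ≤ 2 ^ t) :
    ∃ K ⊆ I, I.card ≤ 2 * K.card ∧ ∀ u ∈ Us, u ⊆ K.biUnion v →
      (I.filter fun j => ¬ Disjoint u (v j \ (I.erase j).biUnion v)).card ≤ t + 2 := by
  classical
  set J : Finset ι → Finset (Fin N) := fun u =>
    I.filter fun j => ¬ Disjoint u (v j \ (I.erase j).biUnion v) with hJdef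
  have hJ : ∀ u, J u ⊆ I := fun u => Finset.filter_subset _ _
  set bad : Finset (Finset (Fin N)) :=
    (Us.filter fun u => t + 3 ≤ (J u).card).biUnion fun u => Finset.Icc (J u) I with hbad
  have hc : 2 * bad.card < 2 ^ I.card := k1_count I Us J hJ hU
  have hgood : ∀ K ⊆ I, K ∉ bad → ∀ u ∈ Us, u ⊆ K.biUnion v → (J u).card ≤ t + 2 := by
    intro K hK hKb u hu huK
    by_contra hlt
    apply hKb
    rw [hbad, Finset.mem_biUnion]
    refine ⟨u, Finset.mem_filter.2 ⟨hu, by omega⟩, ?_⟩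
    rw [Finset.mem_Icc]
    exact ⟨k1_sub v hK huK, hK⟩
  obtain ⟨K, hKI, hK1, hK2⟩ : ∃ K ⊆ I, K ∉ bad ∧ I \ K ∉ bad := by
    by_contra hno
    push Not at hno
    have hsub : I.powerset ⊆ bad ∪ bad.image (fun K => I \ K) := by
      intro K hK
      rw [Finset.mem_powerset] at hK
      by_cases hb : K ∈ bad
      · exact Finset.mem_union_left _ hb
      · refine Finset.mem_union_right _ (Finset.mem_image.2 ⟨I \ K, hno K hK hb, ?_⟩)
        exact Finset.sdiff_sdiff_eq_self hK
    have h1 := Finset.card_le_card hsub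
    rw [Finset.card_powerset] at h1
    have h2 := Finset.card_union_le bad (bad.image (fun K => I \ K))
    have h3 := Finset.card_image_le (s := bad) (f := fun K => I \ K)
    omega
  have hcard : (I \ K).card + K.card = I.card := Finset.card_sdiff_add_card_eq_card hKI
  by_cases hle : I.card ≤ 2 * K.card
  · exact ⟨K, hKI, hle, hgood K hKI hK1⟩
  · exact ⟨I \ K, Finset.sdiff_subset, by omega, hgood _ Finset.sdiff_subset hK2⟩

end Pool.Agent.AGN
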