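import Mathlib
import Pool.Agent.Lib_helper38.AGN.Defs
import Pool.Agent.Lib_helper38.AGG.Defs
import Pool.Agent.Lib_helper58.XA.K2a
import Pool.Agent.Lib_helper10.LogRank.Cube
import Pool.Agent.Lib_helper58.AGG.A1

set_option autoImplicit false

/-! AGN, block K2: few disjoint sensitive blocks -/

namespace Pool.Agent.AGN

open Finset Filter Pool.Agent.XA Pool.Agent.AGG Pool.Agent.Lib_helper10.LogRank Pool.Agent.AGN

variable {ι : Type} [Fintype ι] [DecidableEq ι] {V : Type} [AddCommGroup V] [Fintype V]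
  [DecidableEq V]

theorem k2_sum (a : Finset ι → V → ℂ) (P Q : Finset ι) (ζ : AddChar V ℂ) :
    ev (sl a (P \ Q)) ζ = ∑ u ∈ P.powerset, if Disjoint u Q then ev (a u) ζ else 0 := by
  rw [ev_sl, ← sum_filter]
  refine sum_congr ?_ fun _ _ => rfl
  ext u
  rw [mem_powerset, mem_filter, mem_powerset, Finset.subset_sdiff]

theorem k2_zero {a : Finset ι → V → ℂ} {u : Finset ι} (h : a u = 0) (ζ : AddChar V ℂ) :
    ev (a u) ζ = 0 := by
  rw [h]
  simp [ev]

theorem k2_junta {κ : Type} [DecidableEq κ] (B : κ → Finset ι) (u : Finset ι) (T X : Finset κ)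
    (hT : ∀ j, ¬ Disjoint u (B j) → j ∈ T) :
    Disjoint u (X.biUnion B) ↔ Disjoint u ((X ∩ T).biUnion B) := by
  rw [disjoint_biUnion_right, disjoint_biUnion_right]
  constructor
  · intro h j hj
    exact h j (mem_of_mem_inter_left hj)
  · intro h j hj
    by_contra hc
    exact hc (h j (mem_inter.2 ⟨hj, hT j hc⟩))

open Classical in
theorem deg_bound {N t : ℕ} {a : Finset ι → V → ℂ} (ha : Mix a) (P : Finset ι)
    (R : Fin N → Finset ι) (K : Finset (Fin N))
    (hd : ∀ u ⊆ P, a u ≠ 0 → (K.filter fun j => ¬ Disjoint u (R j)).card ≤ t + 2)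
    (ζ : AddChar V ℂ) :
    (K.filter fun j => ∃ B ⊆ R j, ev (sl a (P \ B)) ζ ≠ ev (sl a P) ζ).card ≤ (t + 2) ^ 2 := by
  set S := K.filter fun j => ∃ B ⊆ R j, ev (sl a (P \ B)) ζ ≠ ev (sl a P) ζ with hS
  have hex : ∀ j : {j // j ∈ S}, ∃ B ⊆ R j, ev (sl a (P \ B)) ζ ≠ ev (sl a P) ζ :=
    fun j => (mem_filter.1 j.2).2
  choose B hBR hB using hex
  set c0 : ℂ := ev (sl a P) ζ with hc0
  have hc0' : c0 = 1 ∨ c0 = -1 := ev_mix ha P ζ
  set h : Finset {j // j ∈ S} → ℝ := fun X =>
    (1 / 2 : ℝ) - (ev (sl a (P \ X.biUnion B)) ζ * c0).re / 2 with hh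
  have hmem : h ∈ cubeLow {j // j ∈ S} (t + 2) := by
    have e : h = (fun _ => (1 / 2 : ℝ)) -
        ∑ u ∈ P.powerset, ((ev (a u) ζ * c0).re / 2) • (fun X : Finset {j // j ∈ S} =>
            if Disjoint u (X.biUnion B) then (1 : ℝ) else 0) := by
      funext X
      simp only [hh, Pi.sub_apply, Finset.sum_apply, Pi.smul_apply, smul_eq_mul]
      congr 1
      rw [k2_sum, sum_mul, Complex.re_sum, sum_div]
      refine sum_congr rfl fun u _ => ?_
      by_cases hu : Disjoint u (X.biUnion B) <;> simp [hu]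
    rw [e]
    refine Submodule.sub_mem _ ?_ (Submodule.sum_mem _ fun u hu => ?_)
    · exact Submodule.subset_span ⟨∅, by simp, fun _ => rfl⟩
    · by_cases hu0 : a u = 0
      · rw [k2_zero hu0]
        simp
      · refine Submodule.smul_mem _ _ (Submodule.subset_span
          ⟨univ.filter fun j : {j // j ∈ S} => ¬ Disjoint u (B j), ?_, fun X => ?_⟩)
        · refine le_trans ?_ (hd u (mem_powerset.1 hu) hu0)
          refine card_le_card_of_injOn (fun j => j.1) (fun j hj => ?_)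
            (fun _ _ _ _ hj => Subtype.ext hj)
          have hj' : ¬ Disjoint u (B j) := (mem_filter.1 (Finset.mem_coe.1 hj)).2
          refine Finset.mem_coe.2 (mem_filter.2 ⟨(mem_filter.1 j.2).1, fun hc => hj' ?_⟩)
          exact hc.mono_right (hBR j)
        · exact if_congr (k2_junta B u _ X fun j hj => mem_filter.2 ⟨mem_univ _, hj⟩) rfl rfl
  have hs : ∀ z : Finset ι, (ev (sl a z) ζ * c0).re = 1 ∨ (ev (sl a z) ζ * c0).re = -1 := by
    intro z
    rcases ev_mix ha z ζ with h1 | h1 <;> rcases hc0' with h2 | h2 <;> rw [h1, h2] <;> simp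
  have hb : ∀ X, 0 ≤ h X ∧ h X ≤ 1 := by
    intro X
    simp only [hh]
    rcases hs (P \ X.biUnion B) with h1 | h1 <;> rw [h1] <;> norm_num
  have h0 : h ∅ = 0 := by
    simp only [hh, biUnion_empty, sdiff_empty]
    rw [← hc0]
    rcases hc0' with h2 | h2 <;> rw [h2] <;> norm_num
  have h1 : ∀ j, h {j} = 1 := by
    intro j
    simp only [hh, singleton_biUnion]
    have hj := hB j
    rcases ev_mix ha (P \ B j) ζ with h1 | h1 <;> rcases hc0' with h2 | h2
    · exact absurd (h1.trans h2.symm) hj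
    · rw [h1, h2]; norm_num
    · rw [h1, h2]; norm_num
    · exact absurd (h1.trans h2.symm) hj
  have key := card_le_sq_of_cubeLow hmem hb h0 h1
  rwa [Fintype.card_coe] at key

end Pool.Agent.AGN
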