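import Mathlib
import Pool.Agent.Lib_helper38.AGN.Defs
import Pool.Agent.Lib_helper58.AGG.C2
import Pool.Agent.Lib_helper58.AGG.A2a
import Pool.Agent.Lib_helper58.AGG.A2b
import Pool.Agent.Lib_helper58.AGG.B1
import Pool.Agent.Lib_helper58.AGG.B2

set_option autoImplicit false

/-! AGN, block K3: certificates for the blocks -/

namespace Pool.Agent.AGN

open Finset Filter Pool.Agent.XA Pool.Agent.AGG Pool.Agent.AGN Pool.Agent.Lib_helper10.LogRank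

variable {ι : Type} [Fintype ι] [DecidableEq ι] {V : Type} [AddCommGroup V] [Fintype V]
  [DecidableEq V]

/-- the certificate at a point where two slices differ -/
theorem k3_cert {r d : ℕ} (hc : Cert r d V) {a : Finset ι → V → ℂ} (ha : St r a)
    {z z' : Finset ι} {ξ : AddChar V ℂ} (hξ : ev (sl a z) ξ ≠ ev (sl a z') ξ) :
    ∃ T ⊆ Nb a, T.card ≤ 2 * d ∧ ∀ ζ ∈ Cos T ξ, ev (sl a z) ζ ≠ ev (sl a z') ζ := by
  have hsl : ∀ z : Finset ι, ∃ T : Finset V, T.card ≤ d ∧ Dif (sl a z) T ∧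
      ∀ ζ ∈ Cos T ξ, ev (sl a z) ζ = ev (sl a z) ξ := by
    intro z
    refine hc (sl a z) (ha.mix z) ?_ ?_ ξ
    · exact (Finset.card_le_card (spt_sl_sub a z)).trans ((card_chs a).trans ha.nz)
    · intro c hcc
      have h1 : c ∈ spt (sl a z) := by
        classical
        unfold spt
        rw [Finset.mem_filter]
        exact ⟨Finset.mem_univ _, hcc⟩
      obtain ⟨w, hw⟩ := mem_chs.1 (spt_sl_sub a z h1)
      exact ha.ord w c hw
  obtain ⟨T₁, h1, h2, h3⟩ := hsl z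
  obtain ⟨T₂, h4, h5, h6⟩ := hsl z'
  refine ⟨T₁ ∪ T₂, Finset.union_subset (dif_sub_Nb h2) (dif_sub_Nb h5), ?_, ?_⟩
  · refine (Finset.card_union_le _ _).trans ?_
    omega
  · intro ζ hζ
    have h7 := Cos_mono (Finset.subset_union_left (s₁ := T₁) (s₂ := T₂)) ξ hζ
    have h8 := Cos_mono (Finset.subset_union_right (s₁ := T₁) (s₂ := T₂)) ξ hζ
    rw [h3 ζ h7, h6 ζ h8]
    exact hξ

theorem k3_arith {r : ℕ} (hr : 2 ≤ r) (N d : ℕ) :
    N * ((r ^ 3 + 1) ^ (2 * d) * (r ^ 6) ^ (2 * d)) * (r ^ 6) ^ (2 * d) ≤ N * r ^ (32 * d) := by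
  have h1 : r ^ 3 + 1 ≤ r ^ 4 := by
    have h2 : 1 ≤ r ^ 3 := Nat.one_le_pow _ _ (by omega)
    have h3 : r ^ 4 = r ^ 3 * r := by ring
    rw [h3]
    nlinarith [Nat.mul_le_mul_left (r ^ 3) hr]
  calc N * ((r ^ 3 + 1) ^ (2 * d) * (r ^ 6) ^ (2 * d)) * (r ^ 6) ^ (2 * d)
      ≤ N * ((r ^ 4) ^ (2 * d) * (r ^ 6) ^ (2 * d)) * (r ^ 6) ^ (2 * d) := by
        refine Nat.mul_le_mul_right _ (Nat.mul_le_mul_left _ (Nat.mul_le_mul_right _ ?_))
        exact Nat.pow_le_pow_left h1 _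
    _ = N * r ^ (32 * d) := by
        rw [mul_assoc, ← pow_mul, ← pow_mul, ← pow_add, ← pow_add]
        congr 2
        ring

theorem cert_fam {r d N : ℕ} (hr : 2 ≤ r) (hc : Cert r d V) {a : Finset ι → V → ℂ} (ha : St r a)
    (P : Finset ι) (R : Fin N → Finset ι) (K : Finset (Fin N)) :
    ∃ C : Finset (Fin N × Finset (AddChar V ℂ)),
      (∀ c ∈ C, c.1 ∈ K ∧ (∃ T ⊆ Nb a, T.card ≤ 2 * d ∧ ∃ ξ, c.2 = Cos T ξ) ∧
        ∃ B ⊆ R c.1, ∀ ζ ∈ c.2, ev (sl a (P \ B)) ζ ≠ ev (sl a P) ζ) ∧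
      (∀ j ∈ K, ∀ ζ, (∃ B ⊆ R j, ev (sl a (P \ B)) ζ ≠ ev (sl a P) ζ) →
        ∃ c ∈ C, c.1 = j ∧ ζ ∈ c.2) ∧
      OmN C ∅ univ ≤ N * (r : ℝ) ^ (32 * d) := by
  classical
  set Pr : Fin N × Finset (AddChar V ℂ) → Prop := fun c => c.1 ∈ K ∧
    (∃ T ⊆ Nb a, T.card ≤ 2 * d ∧ ∃ ξ, c.2 = Cos T ξ) ∧
    ∃ B ⊆ R c.1, ∀ ζ ∈ c.2, ev (sl a (P \ B)) ζ ≠ ev (sl a P) ζ with hPr
  set C : Finset (Fin N × Finset (AddChar V ℂ)) := univ.filter Pr with hCdef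
  have hC : ∀ c, c ∈ C ↔ Pr c := by
    intro c
    rw [hCdef, Finset.mem_filter]
    exact ⟨fun h => h.2, fun h => ⟨Finset.mem_univ _, h⟩⟩
  refine ⟨C, fun c h => (hC c).1 h, ?_, ?_⟩
  · rintro j hj ζ ⟨B, hB, hne⟩
    obtain ⟨T, hT, hTd, hcert⟩ := k3_cert hc ha hne
    exact ⟨(j, Cos T ζ), (hC _).2 ⟨hj, ⟨T, hT, hTd, ζ, rfl⟩, B, hB, hcert⟩, rfl,
      mem_Cos.2 fun t _ => rfl⟩
  · have hr6 : 1 ≤ r ^ 6 := Nat.one_le_pow _ _ (by omega)
    have hom : ∀ c ∈ C, om univ c.2 ≤ ((r : ℝ) ^ 6) ^ (2 * d) := by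
      intro c hcC
      obtain ⟨T, hT, hTd, ξ, hξ⟩ := ((hC c).1 hcC).2.1
      rw [hξ]
      have h1 := om_univ_le (B := r ^ 6) T (fun t ht => ord_Nb hr ha t (hT ht)) ξ
      have h2 : ((r ^ 6 : ℕ) : ℝ) ^ T.card ≤ ((r ^ 6 : ℕ) : ℝ) ^ (2 * d) :=
        pow_le_pow_right₀ (by exact_mod_cast hr6) hTd
      have h3 : ((r ^ 6 : ℕ) : ℝ) = (r : ℝ) ^ 6 := by push_cast; ring
      rw [h3] at h1 h2
      exact h1.trans h2
    have hcard : C.card ≤ N * ((r ^ 3 + 1) ^ (2 * d) * (r ^ 6) ^ (2 * d)) := by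
      have h1 : C ⊆ C.image Prod.fst ×ˢ C.image Prod.snd := by
        intro c hcC
        rw [Finset.mem_product]
        exact ⟨Finset.mem_image_of_mem _ hcC, Finset.mem_image_of_mem _ hcC⟩
      refine (Finset.card_le_card h1).trans ?_
      rw [Finset.card_product]
      refine Nat.mul_le_mul ?_ ?_
      · refine (Finset.card_le_univ _).trans ?_
        rw [Fintype.card_fin]
      · refine c2_cosets hr ha (C.image Prod.snd) ?_
        intro W hW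
        obtain ⟨c, hcC, rfl⟩ := Finset.mem_image.1 hW
        exact ((hC c).1 hcC).2.1
    have hsum : OmN C ∅ univ ≤ (C.card : ℝ) * ((r : ℝ) ^ 6) ^ (2 * d) := by
      unfold OmN
      refine (Finset.sum_le_card_nsmul _ _ _
        (fun c hc => hom c (Finset.mem_of_mem_filter c hc))).trans ?_
      rw [nsmul_eq_mul]
      refine mul_le_mul_of_nonneg_right ?_ (by positivity)
      exact_mod_cast Finset.card_le_card (Finset.filter_subset _ _)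
    refine hsum.trans ?_
    have h2 : C.card * (r ^ 6) ^ (2 * d) ≤ N * r ^ (32 * d) :=
      (Nat.mul_le_mul_right _ hcard).trans (k3_arith hr N d)
    have h3 : ((C.card * (r ^ 6) ^ (2 * d) : ℕ) : ℝ) ≤ ((N * r ^ (32 * d) : ℕ) : ℝ) := by
      exact_mod_cast h2
    push_cast at h3
    exact h3

end Pool.Agent.AGN
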