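import Mathlib
import Pool.Agent.Lib_helper38.AGN.Defs
import Pool.Agent.Lib_helper58.XA.K2a
import Pool.Agent.Lib_helper58.AGG.E4

set_option autoImplicit false

/-! AGN, block K7: a clean monomial gives a sensitive block -/

namespace Pool.Agent.AGN

open Finset Filter Pool.Agent.XA Pool.Agent.AGG Pool.Agent.AGN Pool.Agent.Lib_helper10.LogRank

variable {ι : Type} [Fintype ι] [DecidableEq ι] {V : Type} [AddCommGroup V] [Fintype V]
  [DecidableEq V]

/-- Moebius inversion: the monomials which contain `R` -/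
theorem k7_moebius (a : Finset ι → V → ℂ) (P R : Finset ι) (χ : V) :
    ∑ B ∈ R.powerset, (-1 : ℂ) ^ B.card * sl a (P \ B) χ =
      ∑ u ∈ P.powerset.filter (fun u => R ⊆ u), a u χ := by
  have h1 : ∀ B ∈ R.powerset, (-1 : ℂ) ^ B.card * sl a (P \ B) χ =
      ∑ u ∈ P.powerset, (if Disjoint u B then (-1 : ℂ) ^ B.card * a u χ else 0) := by
    intro B _
    unfold sl
    rw [Finset.mul_sum, ← Finset.sum_filter]
    apply Finset.sum_congr
    · ext u
      rw [Finset.mem_powerset, Finset.mem_filter, Finset.mem_powerset, Finset.subset_sdiff]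
    · intro u _
      rfl
  rw [Finset.sum_congr rfl h1, Finset.sum_comm, Finset.sum_filter]
  apply Finset.sum_congr rfl
  intro u _
  have h2 : ∑ B ∈ R.powerset, (if Disjoint u B then (-1 : ℂ) ^ B.card * a u χ else 0) =
      (∑ B ∈ (R \ u).powerset, (-1 : ℂ) ^ B.card) * a u χ := by
    rw [Finset.sum_mul, ← Finset.sum_filter]
    apply Finset.sum_congr
    · ext B
      rw [Finset.mem_filter, Finset.mem_powerset, Finset.mem_powerset, Finset.subset_sdiff]
      constructor
      · rintro ⟨h, h'⟩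
        exact ⟨h, h'.symm⟩
      · rintro ⟨h, h'⟩
        exact ⟨h, h'.symm⟩
    · intro B _
      rfl
  have h3 : ∑ B ∈ (R \ u).powerset, (-1 : ℂ) ^ B.card = if R \ u = ∅ then 1 else 0 := by
    have h4 := Finset.sum_powerset_neg_one_pow_card (x := R \ u)
    have h5 : ((∑ B ∈ (R \ u).powerset, (-1 : ℤ) ^ B.card : ℤ) : ℂ) =
        ((if R \ u = ∅ then 1 else 0 : ℤ) : ℂ) := by rw [h4]
    push_cast at h5
    exact h5
  rw [h2, h3]
  by_cases h4 : R ⊆ u
  · rw [if_pos (Finset.sdiff_eq_empty_iff_subset.mpr h4), if_pos h4, one_mul]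
  · rw [if_neg (fun h => h4 (Finset.sdiff_eq_empty_iff_subset.mp h)), if_neg h4, zero_mul]

theorem unclean {N : ℕ} {a : Finset ι → V → ℂ} {D : Finset ι → AddChar V ℂ → Prop} (hD : Dn D)
    {A : Fin N → Finset ι × V} (hA : ∀ j, A j ∈ mon a D) {I K : Finset (Fin N)} (hK : K ⊆ I)
    (hal : ∃ ζ, D (K.biUnion fun i => (A i).1) ζ) {j : Fin N} (hj : j ∈ K) {T : Finset V}
    {ζ₀ : AddChar V ℂ}
    (hcl : Clean D (mon a D) ((I.erase j).biUnion fun i => (A i).1) T (Cos T ζ₀) (A j)) :
    ∃ ζ ∈ Cos T ζ₀, ∃ B ⊆ (A j).1 \ (I.erase j).biUnion (fun i => (A i).1),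
      ev (sl a ((K.biUnion fun i => (A i).1) \ B)) ζ ≠
        ev (sl a (K.biUnion fun i => (A i).1)) ζ := by
  classical
  by_contra hcon
  push Not at hcon
  set P : Finset ι := K.biUnion fun i => (A i).1 with hP
  set U : Finset ι := (I.erase j).biUnion fun i => (A i).1 with hU
  set R : Finset ι := (A j).1 \ U with hR
  obtain ⟨hne, _, huniq⟩ := hcl
  -- the function of the monomials which contain `R`
  set F : V → ℂ := fun χ => ∑ u ∈ P.powerset.filter (fun u => R ⊆ u), a u χ with hF
  have h1 : ∀ ζ ∈ Cos T ζ₀, ev F ζ = 0 := by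
    intro ζ hζ
    have e1 : ev F ζ = ∑ B ∈ R.powerset, (-1 : ℂ) ^ B.card * ev (sl a (P \ B)) ζ := by
      unfold ev
      have e2 : ∀ χ, F χ * ζ χ = ∑ B ∈ R.powerset, (-1 : ℂ) ^ B.card * (sl a (P \ B) χ * ζ χ) := by
        intro χ
        rw [hF]
        show (∑ u ∈ P.powerset.filter (fun u => R ⊆ u), a u χ) * ζ χ = _
        rw [← k7_moebius a P R χ, Finset.sum_mul]
        apply Finset.sum_congr rfl
        intro B _
        rw [mul_assoc]
      rw [Finset.sum_congr rfl fun χ _ => e2 χ, Finset.sum_comm]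
      apply Finset.sum_congr rfl
      intro B _
      rw [Finset.mul_sum]
    rw [e1]
    have e3 : ∀ B ∈ R.powerset, (-1 : ℂ) ^ B.card * ev (sl a (P \ B)) ζ =
        (-1 : ℂ) ^ B.card * ev (sl a P) ζ := by
      intro B hB
      rw [hcon ζ hζ B (Finset.mem_powerset.mp hB)]
    rw [Finset.sum_congr rfl e3, ← Finset.sum_mul]
    have h4 := Finset.sum_powerset_neg_one_pow_card (x := R)
    have h5 : ((∑ B ∈ R.powerset, (-1 : ℤ) ^ B.card : ℤ) : ℂ) =
        ((if R = ∅ then 1 else 0 : ℤ) : ℂ) := by rw [h4]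
    rw [if_neg hne.ne_empty] at h5
    push_cast at h5
    rw [h5, zero_mul]
  -- uniqueness on the coset
  set C : AddSubgroup V := AddSubgroup.closure (T : Set V) with hC
  set π : V →+ V ⧸ C := QuotientAddGroup.mk' C with hπ
  have hπ0 : ∀ v, π v = 0 ↔ v ∈ C := fun v => by
    rw [hπ, QuotientAddGroup.mk'_apply, QuotientAddGroup.eq_zero_iff]
  have h2 : push π F ζ₀ (π (A j).2) = 0 := by
    apply e4_inv (W := V ⧸ C)
    intro ζ'
    rw [ev_push]
    apply h1
    unfold Cos
    rw [Finset.mem_filter]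
    refine ⟨Finset.mem_univ _, ?_⟩
    intro t ht
    have h3 : π t = 0 := (hπ0 t).mpr (AddSubgroup.subset_closure (Finset.mem_coe.mpr ht))
    rw [AddChar.mul_apply, AddChar.compAddMonoidHom_apply, h3, AddChar.map_zero_eq_one, mul_one]
  -- only one monomial occurs
  have hvP : (A j).1 ⊆ P := Finset.subset_biUnion_of_mem (fun i => (A i).1) hj
  have h3 : ∀ c, π c = π (A j).2 → ∀ u ∈ P.powerset.filter (fun u => R ⊆ u), a u c ≠ 0 →
      (u, c) = A j := by
    intro c hc u hu hne'
    rw [Finset.mem_filter, Finset.mem_powerset] at hu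
    apply huniq (u, c)
    · unfold mon
      rw [Finset.mem_filter]
      obtain ⟨ζ, hζ⟩ := hal
      exact ⟨Finset.mem_univ _, hne.mono hu.2, hne', ζ, hD _ _ _ hu.1 hζ⟩
    · show u \ U = R
      apply Finset.Subset.antisymm
      · intro x hx
        rw [Finset.mem_sdiff] at hx
        have hx1 := hu.1 hx.1
        rw [hP, Finset.mem_biUnion] at hx1
        obtain ⟨i, hi, hxi⟩ := hx1
        by_cases hij : i = j
        · rw [hR, Finset.mem_sdiff]
          rw [hij] at hxi
          exact ⟨hxi, hx.2⟩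
        · exfalso
          apply hx.2
          rw [hU, Finset.mem_biUnion]
          exact ⟨i, Finset.mem_erase.mpr ⟨hij, hK hi⟩, hxi⟩
      · intro x hx
        rw [Finset.mem_sdiff]
        refine ⟨hu.2 hx, ?_⟩
        rw [hR, Finset.mem_sdiff] at hx
        exact hx.2
    · rw [← hπ0, map_sub, hc, sub_self]
  have h4 : push π F ζ₀ (π (A j).2) = a (A j).1 (A j).2 * ζ₀ (A j).2 := by
    unfold push
    rw [Finset.sum_eq_single (A j).2]
    · rw [if_pos rfl]
      congr 1
      show ∑ u ∈ P.powerset.filter (fun u => R ⊆ u), a u (A j).2 = _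
      rw [Finset.sum_eq_single (A j).1]
      · intro u hu hne'
        by_contra hau
        exact hne' (congrArg Prod.fst (h3 (A j).2 rfl u hu hau))
      · intro hnot
        exfalso
        apply hnot
        rw [Finset.mem_filter, Finset.mem_powerset]
        exact ⟨hvP, Finset.sdiff_subset⟩
    · intro c _ hcne
      by_cases hc : π c = π (A j).2
      · rw [if_pos hc]
        have h5 : F c = 0 := by
          show ∑ u ∈ P.powerset.filter (fun u => R ⊆ u), a u c = 0
          apply Finset.sum_eq_zero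
          intro u hu
          by_contra hau
          exact hcne (congrArg Prod.snd (h3 c hc u hu hau))
        rw [h5, zero_mul]
      · rw [if_neg hc]
    · intro hnot
      exact absurd (Finset.mem_univ _) hnot
  rw [h4] at h2
  have h5 := hA j
  unfold mon at h5
  rw [Finset.mem_filter] at h5
  rcases mul_eq_zero.mp h2 with h6 | h6
  · exact h5.2.2.1 h6
  · have h7 : ζ₀ (A j).2 * ζ₀ (-(A j).2) = 1 := by
      rw [← AddChar.map_add_eq_mul, add_neg_cancel, AddChar.map_zero_eq_one]
    rw [h6, zero_mul] at h7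
    exact zero_ne_one h7

end Pool.Agent.AGN
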