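import Mathlib
import Pool.Agent.Lib_helper38.AGN.Defs

set_option autoImplicit false

/-! AGN, block K8a: numbers -/

namespace Pool.Agent.AGN

open Finset Pool.Agent.AGN

theorem k8a_tt {r : ℕ} (hr : 2 ≤ r) : 1 ≤ tt r := by
  unfold tt
  exact Nat.clog_pos (by norm_num) hr

theorem k8a_pow {r : ℕ} (hr : 2 ≤ r) : 2 ^ (tt r - 1) ≤ r := by
  unfold tt
  exact (Nat.pow_pred_clog_lt_self (by norm_num) (by omega)).le

theorem k8a_pT (r d : ℕ) : pT r d = 2800 * d ^ 2 * tt r * pD r := by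
  unfold pT
  ring

theorem k8a_pD {r : ℕ} (hr : 2 ≤ r) : pD r ≤ 10 * tt r ^ 2 := by
  have h := k8a_tt hr
  unfold pD
  nlinarith

theorem num_N {r d : ℕ} (hr : 2 ≤ r) (hd : 1 ≤ d) : pN r d ≤ r ^ (200 * d) := by
  set t := tt r with ht
  have ht1 : 1 ≤ t := k8a_tt hr
  have hD : pD r ≤ 10 * t ^ 2 := k8a_pD hr
  have hdt : 1 ≤ d ^ 2 * t ^ 4 := Nat.one_le_iff_ne_zero.mpr (by positivity)
  have h1 : pc r d ≤ 280000 * (d ^ 2 * t ^ 4) := by
    unfold pc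
    rw [k8a_pT, ← ht]
    calc 10 * t * (2800 * d ^ 2 * t * pD r) = 28000 * d ^ 2 * t ^ 2 * pD r := by ring
      _ ≤ 28000 * d ^ 2 * t ^ 2 * (10 * t ^ 2) := Nat.mul_le_mul_left _ hD
      _ = _ := by ring
  have h2 : pN r d ≤ 2 ^ 43 * (d ^ 4 * t ^ 8) := by
    unfold pN
    have h3 : pc r d + 1 ≤ 280001 * (d ^ 2 * t ^ 4) := by omega
    calc 100 * (pc r d + 1) ^ 2 ≤ 100 * (280001 * (d ^ 2 * t ^ 4)) ^ 2 :=
          Nat.mul_le_mul_left _ (Nat.pow_le_pow_left h3 2)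
      _ = (100 * 280001 ^ 2) * (d ^ 4 * t ^ 8) := by ring
      _ ≤ 2 ^ 43 * (d ^ 4 * t ^ 8) := Nat.mul_le_mul_right _ (by norm_num)
  have h3 : 2 ^ (100 * d * t) ≤ r ^ (200 * d) := by
    have e1 : 2 ^ (100 * d) ≤ r ^ (100 * d) := Nat.pow_le_pow_left hr _
    have e2 : (2 ^ (t - 1)) ^ (100 * d) ≤ r ^ (100 * d) := Nat.pow_le_pow_left (k8a_pow hr) _
    calc 2 ^ (100 * d * t) = 2 ^ (100 * d) * (2 ^ (t - 1)) ^ (100 * d) := by
          rw [← pow_mul, ← pow_add]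
          congr 1
          obtain ⟨s, hs⟩ : ∃ s, t = s + 1 := ⟨t - 1, by omega⟩
          rw [hs, Nat.add_sub_cancel]
          ring
      _ ≤ r ^ (100 * d) * r ^ (100 * d) := Nat.mul_le_mul e1 e2
      _ = r ^ (200 * d) := by
          rw [← pow_add]
          congr 1
          ring
  refine h2.trans (le_trans ?_ h3)
  have h4 : d ^ 4 ≤ 2 ^ (4 * d) := by
    calc d ^ 4 ≤ (2 ^ d) ^ 4 := Nat.pow_le_pow_left (Nat.lt_two_pow_self).le 4
      _ = 2 ^ (4 * d) := by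
          rw [← pow_mul, mul_comm]
  have h5 : t ^ 8 ≤ 2 ^ (8 * t) := by
    calc t ^ 8 ≤ (2 ^ t) ^ 8 := Nat.pow_le_pow_left (Nat.lt_two_pow_self).le 8
      _ = 2 ^ (8 * t) := by
          rw [← pow_mul, mul_comm]
  calc 2 ^ 43 * (d ^ 4 * t ^ 8) ≤ 2 ^ 43 * (2 ^ (4 * d) * 2 ^ (8 * t)) :=
        Nat.mul_le_mul_left _ (Nat.mul_le_mul h4 h5)
    _ = 2 ^ (43 + (4 * d + 8 * t)) := by
        rw [← pow_add, ← pow_add]
    _ ≤ 2 ^ (100 * d * t) := by
        apply Nat.pow_le_pow_right (by norm_num)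
        have e1 : d ≤ d * t := Nat.le_mul_of_pos_right _ ht1
        have e2 : t ≤ d * t := Nat.le_mul_of_pos_left _ hd
        have e3 : 100 * d * t = 100 * (d * t) := by ring
        omega

theorem num_H {r d : ℕ} (hr : 2 ≤ r) (hd : 1 ≤ d) : 16 * pH r d ≤ 3 * pN r d := by
  set t := tt r with ht
  have ht1 : 1 ≤ t := k8a_tt hr
  have hD1 : 1 ≤ pD r := by
    unfold pD
    omega
  have h1 : 59648 * (pD r * d * t) ≤ pc r d + 1 + 59648 * (pc r d + 1) := by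
    unfold pc
    rw [k8a_pT, ← ht]
    have e1 : d * t * pD r ≤ 10 * t * (2800 * d ^ 2 * t * pD r) := by
      have e2 : 10 * t * (2800 * d ^ 2 * t * pD r) = (28000 * (d * t)) * (d * t * pD r) := by ring
      rw [e2]
      apply Nat.le_mul_of_pos_left
      positivity
    have e3 : pD r * d * t = d * t * pD r := by ring
    rw [e3]
    have e4 := Nat.mul_le_mul_left 59648 e1
    omega
  have h2 : 16 * pH r d = 59648 * (pD r * d * t) := by
    unfold pH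
    rw [← ht]
    ring
  have h3 : pc r d ≥ 1000 := by
    unfold pc
    rw [k8a_pT, ← ht]
    have e2 : 10 * t * (2800 * d ^ 2 * t * pD r) = 28000 * (t * d ^ 2 * t * pD r) := by ring
    rw [e2]
    have e3 : 1 ≤ t * d ^ 2 * t * pD r := Nat.one_le_iff_ne_zero.mpr (by positivity)
    omega
  rw [h2]
  refine h1.trans ?_
  unfold pN
  nlinarith

end Pool.Agent.AGN
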