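import Mathlib
import Pool.Agent.Lib_helper38.AGN.Defs
import Pool.Agent.Lib_helper38.AGG.Defs
import Pool.Agent.Lib_helper58.XA.K2a
import Pool.Agent.Lib_helper16.XA.K2c
import Pool.Agent.Lib_helper67.XA.K5
import Pool.Agent.Lib_helper10.LogRank.Cube
import Pool.Agent.Lib_helper58.XA.Main
import Pool.Agent.Lib_helper58.AGG.A2a
import Pool.Agent.Lib_helper58.AGN.K1
import Pool.Agent.Lib_helper58.AGN.K2
import Pool.Agent.Lib_helper58.AGN.K3
import Pool.Agent.Lib_helper58.AGN.K6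
import Pool.Agent.Lib_helper58.AGN.K7
import Pool.Agent.Lib_helper58.AGN.K8a
import Pool.Agent.Lib_helper58.AGN.K8b

set_option autoImplicit false

/-! AGN, block K9 -/

namespace Pool.Agent.AGN

open Finset Filter Pool.Agent.XA Pool.Agent.AGG Pool.Agent.AGN Pool.Agent.Lib_helper10.LogRank

theorem k9_card {N h : ℕ} {I K H U : Finset (Fin N)} (hIK : I.card ≤ 2 * K.card)
    (hH : H.card ≤ h) (hU : K \ H ⊆ U) (hI : N ≤ 2 * I.card) (hn : 16 * h ≤ 3 * N) :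
    I.card ≤ 8 * U.card := by
  have h1 : (K \ H).card ≤ U.card := Finset.card_le_card hU
  have h2 : K.card ≤ (K \ H).card + H.card := by
    have h3 := Finset.le_card_sdiff H K
    omega
  omega

variable {ι : Type} [Fintype ι] [DecidableEq ι] {V : Type} [AddCommGroup V] [Fintype V]
  [DecidableEq V]

theorem k9_us {r : ℕ} {a : Finset ι → V → ℂ} (ha : St r a) :
    ∃ Us : Finset (Finset ι), (∀ u, u ∈ Us ↔ a u ≠ 0) ∧ Us.card ≤ 2 ^ tt r := by
  classical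
  refine ⟨univ.filter fun u => a u ≠ 0, fun u => by simp, ?_⟩
  refine le_trans (card_ne a _ ?_) (le_trans ha.nz ?_)
  · intro u hu
    exact (Finset.mem_filter.1 hu).2
  · exact Nat.le_pow_clog (by norm_num) r

theorem k9_om {r d : ℕ} (hr : 2 ≤ r) (hd : 1 ≤ d) {x : ℝ}
    (hx : x ≤ (pN r d : ℕ) * (r : ℝ) ^ (32 * d)) : x ≤ (r : ℝ) ^ (232 * d) := by
  refine hx.trans ?_
  have h1 : ((pN r d : ℕ) : ℝ) ≤ (r : ℝ) ^ (200 * d) := by exact_mod_cast num_N hr hd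
  have h2 : (r : ℝ) ^ (232 * d) = (r : ℝ) ^ (200 * d) * (r : ℝ) ^ (32 * d) := by
    rw [← pow_add]
    ring_nf
  rw [h2]
  exact mul_le_mul_of_nonneg_right h1 (by positivity)

open Classical in
theorem det_claim {r d : ℕ} (hr : 2 ≤ r) (hd : 1 ≤ d) (hc : Cert r d V)
    {a : Finset ι → V → ℂ} (ha : St r a) {D : Finset ι → AddChar V ℂ → Prop} (hD : Dn D)
    (A : Fin (pN r d) → Finset ι × V) (hA : ∀ j, A j ∈ mon a D) {ζ₀ : AddChar V ℂ}
    (h0 : D (univ.biUnion fun j => (A j).1) ζ₀) (I : Finset (Fin (pN r d)))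
    (hI : pN r d ≤ 2 * I.card) :
    ∃ T ⊆ Nb a, T.card ≤ pT r d ∧ I.card ≤ 8 * (I.filter fun j =>
      ¬ Clean D (mon a D) ((I.erase j).biUnion fun i => (A i).1) T (Cos T ζ₀) (A j)).card := by
  obtain ⟨Us, hUs, hUc⟩ := k9_us ha
  obtain ⟨K, hKI, hIK, hgood⟩ := choose_K (fun j => (A j).1) I Us hUc
  obtain ⟨P, hP⟩ : ∃ P, P = K.biUnion fun i => (A i).1 := ⟨_, rfl⟩
  obtain ⟨R, hR⟩ : ∃ R : Fin (pN r d) → Finset ι,
      R = fun j => (A j).1 \ (I.erase j).biUnion fun i => (A i).1 := ⟨_, rfl⟩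
  have hdeg : ∀ ζ : AddChar V ℂ,
      (K.filter fun j => ∃ B ⊆ R j, ev (sl a (P \ B)) ζ ≠ ev (sl a P) ζ).card ≤
        (tt r + 2) ^ 2 := by
    intro ζ
    refine deg_bound ha.mix P R K ?_ ζ
    intro u hu hau
    refine le_trans (Finset.card_le_card ?_) (hgood u ((hUs u).2 hau) (hP ▸ hu))
    intro j hj
    rw [Finset.mem_filter] at hj ⊢
    refine ⟨hKI hj.1, ?_⟩
    have := hj.2
    rw [hR] at this
    exact this
  obtain ⟨C, hC1, hC2, hC3⟩ := cert_fam hr hc ha P R K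
  have hlab : ∀ ζ, (univ.filter fun j => ∃ c ∈ C, c.1 = j ∧ ζ ∈ c.2).card < pD r := by
    intro ζ
    refine lt_of_le_of_lt (Finset.card_le_card ?_) (Nat.lt_succ_of_le (hdeg ζ))
    intro j hj
    rw [Finset.mem_filter] at hj ⊢
    obtain ⟨_, c, hc', hcj, hζ⟩ := hj
    obtain ⟨hcK, _, B, hB, hne⟩ := hC1 c hc'
    rw [hcj] at hcK hB
    exact ⟨hcK, B, hB, hne ζ hζ⟩
  have hOm := k9_om hr hd hC3
  have hk : OmN C ∅ univ < (4 / 3) ^ (700 * d * tt r) := lt_of_le_of_lt hOm (num_k hr hd)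
  have hD1 : 1 ≤ pD r := Nat.le_add_left _ _
  have hh : OmN C ∅ univ * (1 - 1 / (16 * (pD r : ℝ))) ^ pH r d < 1 := by
    refine lt_of_le_of_lt (mul_le_mul_of_nonneg_right hOm ?_) (num_h hr hd)
    refine pow_nonneg ?_ _
    have h1 : (1 : ℝ) ≤ pD r := by exact_mod_cast hD1
    have h2 : 1 / (16 * (pD r : ℝ)) ≤ 1 := by
      rw [div_le_one (by linarith)]
      linarith
    linarith
  obtain ⟨T, hTS, hTc, H, hHc, hHd⟩ := loopN hD1 (S := Nb a) (d := 2 * d)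
    (fun c hc' => (hC1 c hc').2.1) hlab hk hh ζ₀
  refine ⟨T, hTS, hTc, k9_card hIK hHc ?_ hI (num_H hr hd)⟩
  intro j hj
  rw [Finset.mem_sdiff] at hj
  rw [Finset.mem_filter]
  refine ⟨hKI hj.1, fun hcl => ?_⟩
  obtain ⟨ζ, hζ, B, hB, hne⟩ := unclean hD hA hKI
    ⟨ζ₀, hD _ _ _ (Finset.biUnion_subset_biUnion_of_subset_left _ (Finset.subset_univ K)) h0⟩
    hj.1 hcl
  rw [← hP] at hne
  obtain ⟨c, hc', hcj, hζc⟩ := hC2 j hj.1 ζ ⟨B, by rw [hR]; exact hB, hne⟩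
  exact Finset.disjoint_left.1 (hHd c hc' (by rw [hcj]; exact hj.2)) hζ hζc

end Pool.Agent.AGN
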