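import Mathlib
import Pool.Agent.Lib_helper38.AGN.Defs

set_option autoImplicit false

/-! AGN block N3: monotonicity -/

namespace Pool.Agent.AGN

open Finset Pool.Agent.XA Pool.Agent.AGG Pool.Agent.Lib_helper10.LogRank Pool.Agent.AGN

variable {ι : Type} [Fintype ι] [DecidableEq ι] {V : Type} [AddCommGroup V] [Fintype V]
  [DecidableEq V] {W : Type} [AddCommGroup W] [Fintype W] [DecidableEq W]

theorem clean_mono {D : Finset ι → AddChar V ℂ → Prop} (hD : Dn D) {M : Finset (Finset ι × V)}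
    {U U' : Finset ι} {T : Finset V} {W : Finset (AddChar V ℂ)} {p : Finset ι × V} (hU : U' ⊆ U)
    (h : Clean D M U T W p) : Clean D M U' T W p := by
  obtain ⟨h1, ⟨ζ, hζ, hd⟩, h3⟩ := h
  refine ⟨?_, ⟨ζ, hζ, hD _ _ _ (union_subset_union_left hU) hd⟩, ?_⟩
  · exact h1.mono (sdiff_subset_sdiff (Subset.refl _) hU)
  · intro p' hp' he hc
    refine h3 p' hp' ?_ hc
    ext i
    have hi := congrArg (fun s : Finset ι => i ∈ s) he
    simp only [mem_sdiff, eq_iff_iff] at hi ⊢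
    constructor
    · rintro ⟨ha, hb⟩
      exact ⟨(hi.1 ⟨ha, fun hc => hb (hU hc)⟩).1, hb⟩
    · rintro ⟨ha, hb⟩
      exact ⟨(hi.2 ⟨ha, fun hc => hb (hU hc)⟩).1, hb⟩

theorem mon_mono {a : Finset ι → V → ℂ} {D D' : Finset ι → AddChar V ℂ → Prop}
    (h : ∀ z ζ, D z ζ → D' z ζ) : mon a D ⊆ mon a D' := by
  classical
  intro p hp
  unfold mon at hp ⊢
  simp only [mem_filter, mem_univ, true_and] at hp ⊢
  obtain ⟨h2, h3, ζ, h4⟩ := hp
  exact ⟨h2, h3, ζ, h _ _ h4⟩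

theorem dn_DA {X : Type} (A : Finset X) (P : X → Finset ι) (Q : Finset ι) (ζ : X → AddChar V ℂ) :
    Dn (DA A P Q ζ) := by
  rintro z z' ζ' hz ⟨x, hx, h1, h2⟩
  exact ⟨x, hx, hz.trans h1, h2⟩

theorem st_of {r : ℕ} {a : Finset ι → V → ℂ} {K : Finset (Finset ι × V)} (hm : Mix a)
    (h : ∀ u χ, a u χ ≠ 0 → (u, χ) ∈ K) (hc : K.card ≤ r)
    (ho : ∀ p ∈ K, addOrderOf p.2 ≤ r ^ 3) : St r a ∧ Nb a ⊆ Ns (K.image Prod.snd) := by
  classical
  have hch : chs a ⊆ K.image Prod.snd := by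
    intro χ hχ
    unfold chs at hχ
    simp only [mem_filter, mem_univ, true_and] at hχ
    obtain ⟨u, hu⟩ := hχ
    exact mem_image.2 ⟨(u, χ), h u χ hu, rfl⟩
  refine ⟨⟨hm, ?_, fun u χ hu => ho _ (h u χ hu)⟩, ?_⟩
  · unfold nnz
    refine le_trans (card_le_card ?_) hc
    intro p hp
    simp only [mem_filter, mem_univ, true_and] at hp
    exact h _ _ hp
  · unfold Nb Ns
    exact union_subset_union hch (image_subset_image (product_subset_product hch hch))

end Pool.Agent.AGN
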