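import Mathlib
import Pool.Agent.Lib_helper38.AGN.Defs

set_option autoImplicit false

/-! AGN, block S1: resampling of coordinates -/

namespace Pool.Agent.AGN

open Finset Pool.Agent.AGG Pool.Agent.AGN

/-- a sum over all functions and all new values at `j` -/
theorem s1_sum {M : Type} [Fintype M] {n : ℕ} (j : Fin n) (g : (Fin n → M) → ℕ) :
    ∑ A : Fin n → M, ∑ m : M, g (Function.update A j m) = Fintype.card M * ∑ A, g A := by
  have e1 : ∑ A : Fin n → M, ∑ m : M, g (Function.update A j m) =
      ∑ x : (Fin n → M) × M, g (Function.update x.1 j x.2) := by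
    rw [Fintype.sum_prod_type]
  have e2 : ∑ x : (Fin n → M) × M, g (Function.update x.1 j x.2) =
      ∑ x : (Fin n → M) × M, g x.1 := by
    refine Finset.sum_bij' (fun x _ => (Function.update x.1 j x.2, x.1 j))
      (fun x _ => (Function.update x.1 j x.2, x.1 j)) ?_ ?_ ?_ ?_ ?_
    · intro x _; exact mem_univ _
    · intro x _; exact mem_univ _
    · rintro ⟨A, m⟩ _
      simp
    · rintro ⟨A, m⟩ _
      simp
    · rintro ⟨A, m⟩ _
      rfl
  rw [e1, e2, Fintype.sum_prod_type]
  simp only [sum_const, smul_eq_mul, card_univ]
  rw [← Finset.mul_sum]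

open Classical in
/-- one coordinate -/
theorem s1_one {M : Type} [Fintype M] {n : ℕ} (j : Fin n) {q : ℕ}
    (P : (Fin n → M) → Prop) (f : (Fin n → M) → M → Prop)
    (hP : ∀ A m, P (Function.update A j m) ↔ P A)
    (hf : ∀ A m m', f (Function.update A j m) m' ↔ f A m')
    (h : ∀ A, P A → q * (univ.filter fun m => f A m).card ≤ Fintype.card M) :
    q * (univ.filter fun A : Fin n → M => P A ∧ f A (A j)).card ≤ (univ.filter P).card := by
  rcases isEmpty_or_nonempty M with hM | hM
  · have : IsEmpty (Fin n → M) := ⟨fun A => hM.false (A j)⟩
    simp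
  · have hM0 : 0 < Fintype.card M := Fintype.card_pos
    have e1 := s1_sum j (fun A : Fin n → M => if P A ∧ f A (A j) then 1 else 0)
    have e2 : ∑ A : Fin n → M, (if P A ∧ f A (A j) then 1 else 0) =
        (univ.filter fun A : Fin n → M => P A ∧ f A (A j)).card := by
      rw [card_filter]
    rw [e2] at e1
    have e3 : ∀ A : Fin n → M, q * ∑ m : M, (if P (Function.update A j m) ∧
        f (Function.update A j m) ((Function.update A j m) j) then 1 else 0) ≤
        if P A then Fintype.card M else 0 := by
      intro A
      by_cases hA : P A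
      · rw [if_pos hA]
        refine le_trans (le_of_eq ?_) (h A hA)
        congr 1
        rw [card_filter]
        refine sum_congr rfl (fun m _ => ?_)
        rw [hP, hf, Function.update_self]
        simp [hA]
      · rw [if_neg hA]
        have : ∑ m : M, (if P (Function.update A j m) ∧
            f (Function.update A j m) ((Function.update A j m) j) then 1 else 0) = 0 := by
          apply sum_eq_zero
          intro m _
          rw [hP]
          simp [hA]
        rw [this, mul_zero]
    have e4 : q * ∑ A : Fin n → M, ∑ m : M, (if P (Function.update A j m) ∧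
        f (Function.update A j m) ((Function.update A j m) j) then 1 else 0) ≤
        (univ.filter P).card * Fintype.card M := by
      rw [mul_sum]
      refine le_trans (sum_le_sum (fun A _ => e3 A)) (le_of_eq ?_)
      rw [← sum_filter, sum_const, smul_eq_mul]
    rw [e1] at e4
    have e5 : Fintype.card M * (q * (univ.filter fun A : Fin n → M => P A ∧ f A (A j)).card) ≤
        Fintype.card M * (univ.filter P).card := by
      calc _ = q * (Fintype.card M *
            (univ.filter fun A : Fin n → M => P A ∧ f A (A j)).card) := by ring
        _ ≤ _ := e4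
        _ = _ := by ring
    exact Nat.le_of_mul_le_mul_left e5 hM0

open Classical in
theorem resample {M : Type} [Fintype M] {n : ℕ} (Sg : Finset (Fin n)) {q : ℕ}
    (E : (Fin n → M) → Prop) (f : Fin n → (Fin n → M) → M → Prop)
    (hE : ∀ j ∈ Sg, ∀ A m, E (Function.update A j m) ↔ E A)
    (hf : ∀ j ∈ Sg, ∀ i ∈ Sg, ∀ A m m', f i (Function.update A j m) m' ↔ f i A m')
    (h : ∀ j ∈ Sg, ∀ A, E A → q * (univ.filter fun m => f j A m).card ≤ Fintype.card M) :
    q ^ Sg.card * (univ.filter fun A : Fin n → M => E A ∧ ∀ j ∈ Sg, f j A (A j)).card ≤
      (univ.filter E).card := by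
  induction Sg using Finset.induction_on generalizing E with
  | empty => simp
  | insert j S hj ih =>
    have h1 := ih (fun A => E A ∧ f j A (A j))
      (by
        intro i hi A m
        have hij : j ≠ i := fun e => hj (e ▸ hi)
        rw [hE i (mem_insert_of_mem hi), Function.update_of_ne hij,
          hf i (mem_insert_of_mem hi) j (mem_insert_self j S)])
      (by
        intro i hi k hk A m m'
        exact hf i (mem_insert_of_mem hi) k (mem_insert_of_mem hk) A m m')
      (by
        intro i hi A hA
        exact h i (mem_insert_of_mem hi) A hA.1)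
    have h2 := s1_one j (q := q) E (f j) (hE j (mem_insert_self j S))
      (hf j (mem_insert_self j S) j (mem_insert_self j S)) (h j (mem_insert_self j S))
    have h1' : q ^ S.card * (univ.filter fun A : Fin n → M =>
        (E A ∧ f j A (A j)) ∧ ∀ i ∈ S, f i A (A i)).card ≤
        (univ.filter fun A : Fin n → M => E A ∧ f j A (A j)).card := by
      convert h1
    refine le_trans (le_of_eq ?_) (le_trans (Nat.mul_le_mul_left q h1') h2)
    rw [card_insert_of_notMem hj, pow_succ', mul_assoc]
    refine congrArg (fun t => q * (q ^ S.card * t)) (congrArg card ?_)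
    ext A
    simp only [mem_filter, mem_univ, true_and, mem_insert, forall_eq_or_imp, and_assoc]

/-- the image does not see the coordinate `j` -/
theorem s1_image {M : Type} [DecidableEq M] {n : ℕ} {S : Finset (Fin n)} {j : Fin n}
    (hj : j ∉ S) (A : Fin n → M) (m : M) : S.image (Function.update A j m) = S.image A := by
  refine image_congr (fun i hi => ?_)
  have : i ≠ j := fun e => hj (e ▸ (mem_coe.1 hi))
  exact Function.update_of_ne this m A

open Classical in
theorem s1_step {M Γ : Type} [Fintype M] [DecidableEq M] {N q : ℕ}
    {al : Finset M → Γ → Prop} {unc : M → Finset M → Γ → Prop} {w₀ : Γ}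
    (h : Smp N q al unc w₀) (S : Finset (Fin N)) (j : Fin N) (hj : j ∉ S) :
    (q - 1) * (univ.filter fun A : Fin N → M => al (S.image A) w₀).card ≤
      q * (univ.filter fun A : Fin N → M => al ((insert j S).image A) w₀).card := by
  have h1 := s1_one j (q := q) (fun A : Fin N → M => al (S.image A) w₀)
    (fun A m => unc m (S.image A) w₀)
    (by
      intro A m
      rw [s1_image hj])
    (by
      intro A m m'
      rw [s1_image hj])
    (by
      intro A hA
      refine h.rob (S.image A) w₀ ?_ hA
      refine le_trans card_image_le ?_
      simpa using card_le_univ S)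
  have h2 : (univ.filter fun A : Fin N → M => al (S.image A) w₀).card ≤
      (univ.filter fun A : Fin N → M => al ((insert j S).image A) w₀).card +
      (univ.filter fun A : Fin N → M => al (S.image A) w₀ ∧ unc (A j) (S.image A) w₀).card := by
    rw [← card_union_add_card_inter]
    refine le_trans (card_le_card ?_) (Nat.le_add_right _ _)
    intro A hA
    have hA' := (mem_filter.1 hA).2
    rw [mem_union, mem_filter, mem_filter]
    by_cases hB : al ((insert j S).image A) w₀
    · exact Or.inl ⟨mem_univ _, hB⟩
    · refine Or.inr ⟨mem_univ _, hA', ?_⟩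
      rw [image_insert] at hB
      exact h.dead _ _ _ hA' hB
  have h3 : q * (univ.filter fun A : Fin N → M => al (S.image A) w₀).card ≤
      q * (univ.filter fun A : Fin N → M => al ((insert j S).image A) w₀).card +
      (univ.filter fun A : Fin N → M => al (S.image A) w₀).card := by
    calc _ ≤ q * ((univ.filter fun A : Fin N → M => al ((insert j S).image A) w₀).card +
      (univ.filter fun A : Fin N → M => al (S.image A) w₀ ∧ unc (A j) (S.image A) w₀).card) :=
          Nat.mul_le_mul_left q h2
      _ = q * (univ.filter fun A : Fin N → M => al ((insert j S).image A) w₀).card +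
        q * (univ.filter fun A : Fin N → M =>
          al (S.image A) w₀ ∧ unc (A j) (S.image A) w₀).card := by ring
      _ ≤ _ := Nat.add_le_add_left h1 _
  rw [Nat.sub_mul, one_mul]
  omega

open Classical in
theorem smp_grow {M Γ : Type} [Fintype M] [DecidableEq M] {N q : ℕ}
    {al : Finset M → Γ → Prop} {unc : M → Finset M → Γ → Prop} {w₀ : Γ}
    (h : Smp N q al unc w₀) (L : Finset (Fin N)) :
    (q - 1) ^ L.card * (univ.filter fun A : Fin N → M => al (Lᶜ.image A) w₀).card ≤
      q ^ L.card * (univ.filter fun A : Fin N → M => al (univ.image A) w₀).card := by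
  induction L using Finset.induction_on with
  | empty => simp
  | insert j L hj ih =>
    have hS : j ∉ (insert j L)ᶜ := by simp
    have hL : insert j (insert j L)ᶜ = Lᶜ := by
      rw [compl_insert]
      exact insert_erase (mem_compl.2 hj)
    have h1 := s1_step h (insert j L)ᶜ j hS
    rw [hL] at h1
    rw [card_insert_of_notMem hj, pow_succ, pow_succ]
    calc (q - 1) ^ L.card * (q - 1) *
          (univ.filter fun A : Fin N → M => al ((insert j L)ᶜ.image A) w₀).card
        = (q - 1) ^ L.card * ((q - 1) *
          (univ.filter fun A : Fin N → M => al ((insert j L)ᶜ.image A) w₀).card) := by ring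
      _ ≤ (q - 1) ^ L.card * (q *
          (univ.filter fun A : Fin N → M => al (Lᶜ.image A) w₀).card) :=
          Nat.mul_le_mul_left _ h1
      _ = q * ((q - 1) ^ L.card *
          (univ.filter fun A : Fin N → M => al (Lᶜ.image A) w₀).card) := by ring
      _ ≤ q * (q ^ L.card *
          (univ.filter fun A : Fin N → M => al (univ.image A) w₀).card) :=
          Nat.mul_le_mul_left _ ih
      _ = _ := by ring

end Pool.Agent.AGN
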