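import Mathlib
import Pool.Agent.Lib_helper38.AGN.Defs
import Pool.Agent.Lib_helper58.AGN.S1

/-! AGN, block S2 -/

set_option autoImplicit false

namespace Pool.Agent.AGN

open Finset Pool.Agent.AGN

open Classical in
theorem s2_one {M Γ : Type} [Fintype M] [DecidableEq M] {N q : ℕ}
    {al : Finset M → Γ → Prop} {unc : M → Finset M → Γ → Prop} {w₀ : Γ}
    (h : Smp N q al unc w₀) (w : Γ) (L Sg : Finset (Fin N)) (hSL : Sg ⊆ L) :
    q ^ Sg.card * (univ.filter fun A : Fin N → M => al (Lᶜ.image A) w ∧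
      ∀ j ∈ Sg, unc (A j) (Lᶜ.image A) w).card ≤
      (univ.filter fun A : Fin N → M => al (Lᶜ.image A) w₀).card := by
  have himg : ∀ j ∈ Sg, ∀ (A : Fin N → M) (m : M),
      Lᶜ.image (Function.update A j m) = Lᶜ.image A := fun j hj A m => by
    refine Finset.image_congr fun i hi => ?_
    have hi' : i ∉ L := by simpa using hi
    rw [Function.update_of_ne]
    rintro rfl
    exact hi' (hSL hj)
  refine (resample (q := q) Sg (fun A => al (Lᶜ.image A) w)
    (fun _ A m => unc m (Lᶜ.image A) w) ?_ ?_ ?_).trans ?_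
  · intro j hj A m
    simp only [himg j hj A m]
  · intro j hj i _ A m m'
    simp only [himg j hj A m]
  · intro j _ A hA
    refine h.rob _ w ?_ hA
    refine Finset.card_image_le.trans ?_
    calc Lᶜ.card ≤ (univ : Finset (Fin N)).card := Finset.card_le_card (Finset.subset_univ _)
      _ = N := by simp
  · refine Finset.card_le_card fun A hA => ?_
    rw [Finset.mem_filter] at hA ⊢
    exact ⟨hA.1, h.al0 _ _ hA.2⟩

open Classical in
theorem smp_good {M Γ : Type} [Fintype M] [DecidableEq M] [Nonempty M] [Fintype Γ] {N c q : ℕ}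
    (hN : N = 100 * (c + 1) ^ 2) (hq : (8 * N) ^ 100 ≤ q) (hΓ : Fintype.card Γ ≤ 2 ^ c)
    {al : Finset M → Γ → Prop} {unc : M → Finset M → Γ → Prop} {w₀ : Γ}
    (h : Smp N q al unc w₀) : ∃ A : Fin N → M, al (univ.image A) w₀ ∧
      ∀ w, al (univ.image A) w → ∀ L : Finset (Fin N), L.card = c + 1 →
        100 * (L.filter fun j => unc (A j) (Lᶜ.image A) w).card < c + 1 := by
  have hNp : 0 < N := by rw [hN]; positivity
  have hq2 : 2 ≤ q := by
    refine le_trans ?_ hq
    calc 2 ≤ (8 * N) ^ 1 := by rw [pow_one]; omega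
      _ ≤ (8 * N) ^ 100 := Nat.pow_le_pow_right (by omega) (by norm_num)
  obtain ⟨p, rfl⟩ : ∃ p, q = p + 1 := ⟨q - 1, by omega⟩
  have hp1 : 1 ≤ p := by omega
  set x : ℕ := (univ.filter fun A : Fin N → M => al (univ.image A) w₀).card with hx
  -- `x` is positive
  have hx0 : 0 < x := by
    have h1 := smp_grow h (univ : Finset (Fin N))
    rw [← hx] at h1
    have h2 : (univ.filter fun A : Fin N → M =>
        al ((univ : Finset (Fin N))ᶜ.image A) w₀) = univ := by
      refine Finset.filter_true_of_mem fun A _ => ?_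
      simpa using h.start
    rw [h2] at h1
    have h3 : 0 < (univ : Finset (Fin N → M)).card := Finset.card_pos.2 Finset.univ_nonempty
    by_contra h4
    have h5 : x = 0 := by omega
    rw [h5, mul_zero] at h1
    have h6 : 0 < (p + 1 - 1) ^ (univ : Finset (Fin N)).card *
        (univ : Finset (Fin N → M)).card := by
      refine Nat.mul_pos (Nat.pow_pos ?_) h3
      omega
    omega
  -- one term
  have hone : ∀ (w : Γ) (L Sg : Finset (Fin N)), L.card = c + 1 → Sg ⊆ L →
      c + 1 ≤ 100 * Sg.card →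
      (8 * N) ^ (c + 1) * (univ.filter fun A : Fin N → M => al (Lᶜ.image A) w ∧
        ∀ j ∈ Sg, unc (A j) (Lᶜ.image A) w).card ≤ 2 ^ (c + 1) * x := by
    intro w L Sg hL hSL hS
    set b := (univ.filter fun A : Fin N → M => al (Lᶜ.image A) w ∧
      ∀ j ∈ Sg, unc (A j) (Lᶜ.image A) w).card with hb
    have h1 := s2_one h w L Sg hSL
    rw [← hb] at h1
    have h2 := smp_grow h L
    rw [← hx, hL] at h2
    simp only [Nat.add_sub_cancel] at h2
    have h3 : (8 * N) ^ (c + 1) ≤ (p + 1) ^ Sg.card := by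
      calc (8 * N) ^ (c + 1) ≤ (8 * N) ^ (100 * Sg.card) :=
            Nat.pow_le_pow_right (by omega) hS
        _ = ((8 * N) ^ 100) ^ Sg.card := by rw [pow_mul]
        _ ≤ (p + 1) ^ Sg.card := Nat.pow_le_pow_left hq _
    have h4 : (p + 1) ^ (c + 1) ≤ 2 ^ (c + 1) * p ^ (c + 1) := by
      rw [← mul_pow]
      exact Nat.pow_le_pow_left (by omega) _
    have h5 : p ^ (c + 1) * ((8 * N) ^ (c + 1) * b) ≤ p ^ (c + 1) * (2 ^ (c + 1) * x) := by
      calc p ^ (c + 1) * ((8 * N) ^ (c + 1) * b)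
          ≤ p ^ (c + 1) * ((p + 1) ^ Sg.card * b) :=
            Nat.mul_le_mul_left _ (Nat.mul_le_mul_right _ h3)
        _ ≤ p ^ (c + 1) * (univ.filter fun A : Fin N → M => al (Lᶜ.image A) w₀).card :=
            Nat.mul_le_mul_left _ h1
        _ ≤ (p + 1) ^ (c + 1) * x := h2
        _ ≤ 2 ^ (c + 1) * p ^ (c + 1) * x := Nat.mul_le_mul_right _ h4
        _ = p ^ (c + 1) * (2 ^ (c + 1) * x) := by ring
    exact Nat.le_of_mul_le_mul_left h5 (Nat.pow_pos hp1)
  by_contra hcon
  push Not at hcon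
  -- the index set
  set Tr : Finset (Γ × (Finset (Fin N) × Finset (Fin N))) :=
    (univ : Finset Γ) ×ˢ ((univ.powersetCard (c + 1)).biUnion fun L =>
      (L.powerset.filter fun Sg => c + 1 ≤ 100 * Sg.card).image fun Sg => (L, Sg)) with hTr
  have hcov : (univ.filter fun A : Fin N → M => al (univ.image A) w₀) ⊆
      Tr.biUnion fun t => univ.filter fun A : Fin N → M => al (t.2.1ᶜ.image A) t.1 ∧
        ∀ j ∈ t.2.2, unc (A j) (t.2.1ᶜ.image A) t.1 := by
    intro A hA
    rw [Finset.mem_filter] at hA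
    obtain ⟨w, hw, L, hL, hU⟩ := hcon A hA.2
    rw [Finset.mem_biUnion]
    refine ⟨(w, (L, L.filter fun j => unc (A j) (Lᶜ.image A) w)), ?_, ?_⟩
    · rw [hTr, Finset.mem_product]
      refine ⟨Finset.mem_univ _, ?_⟩
      rw [Finset.mem_biUnion]
      refine ⟨L, ?_, ?_⟩
      · rw [Finset.mem_powersetCard]
        exact ⟨Finset.subset_univ _, hL⟩
      · rw [Finset.mem_image]
        refine ⟨L.filter fun j => unc (A j) (Lᶜ.image A) w, ?_, rfl⟩
        rw [Finset.mem_filter, Finset.mem_powerset]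
        exact ⟨Finset.filter_subset _ _, hU⟩
    · rw [Finset.mem_filter]
      refine ⟨Finset.mem_univ _, ?_, ?_⟩
      · exact h.anti _ _ _ (Finset.image_subset_image (Finset.subset_univ _)) hw
      · intro j hj
        exact (Finset.mem_filter.1 hj).2
  have hcard : Tr.card ≤ 2 ^ c * (N ^ (c + 1) * 2 ^ (c + 1)) := by
    rw [hTr, Finset.card_product]
    refine Nat.mul_le_mul ?_ ?_
    · rw [Finset.card_univ]
      exact hΓ
    · refine (Finset.card_biUnion_le).trans ?_
      calc ∑ L ∈ (univ : Finset (Fin N)).powersetCard (c + 1),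
            ((L.powerset.filter fun Sg => c + 1 ≤ 100 * Sg.card).image fun Sg => (L, Sg)).card
          ≤ ∑ _L ∈ (univ : Finset (Fin N)).powersetCard (c + 1), 2 ^ (c + 1) := by
            refine Finset.sum_le_sum fun L hL => ?_
            refine Finset.card_image_le.trans ((Finset.card_filter_le _ _).trans ?_)
            rw [Finset.card_powerset, (Finset.mem_powersetCard.1 hL).2]
        _ = ((univ : Finset (Fin N)).powersetCard (c + 1)).card * 2 ^ (c + 1) := by
            rw [Finset.sum_const, smul_eq_mul]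
        _ ≤ N ^ (c + 1) * 2 ^ (c + 1) := by
            refine Nat.mul_le_mul_right _ ?_
            rw [Finset.card_powersetCard, Finset.card_univ, Fintype.card_fin]
            exact Nat.choose_le_pow _ _
  have h1 : (8 * N) ^ (c + 1) * x ≤ Tr.card * (2 ^ (c + 1) * x) := by
    calc (8 * N) ^ (c + 1) * x
        ≤ (8 * N) ^ (c + 1) * (Tr.biUnion fun t => univ.filter fun A : Fin N → M =>
          al (t.2.1ᶜ.image A) t.1 ∧ ∀ j ∈ t.2.2, unc (A j) (t.2.1ᶜ.image A) t.1).card :=
          Nat.mul_le_mul_left _ (Finset.card_le_card hcov)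
      _ ≤ (8 * N) ^ (c + 1) * ∑ t ∈ Tr, (univ.filter fun A : Fin N → M =>
          al (t.2.1ᶜ.image A) t.1 ∧ ∀ j ∈ t.2.2, unc (A j) (t.2.1ᶜ.image A) t.1).card :=
          Nat.mul_le_mul_left _ Finset.card_biUnion_le
      _ = ∑ t ∈ Tr, (8 * N) ^ (c + 1) * (univ.filter fun A : Fin N → M =>
          al (t.2.1ᶜ.image A) t.1 ∧ ∀ j ∈ t.2.2, unc (A j) (t.2.1ᶜ.image A) t.1).card :=
          Finset.mul_sum _ _ _
      _ ≤ ∑ _t ∈ Tr, 2 ^ (c + 1) * x := by
          refine Finset.sum_le_sum fun t ht => ?_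
          rw [hTr, Finset.mem_product, Finset.mem_biUnion] at ht
          obtain ⟨-, L, hL, ht2⟩ := ht
          rw [Finset.mem_image] at ht2
          obtain ⟨Sg, hSg, he⟩ := ht2
          rw [Finset.mem_filter, Finset.mem_powerset] at hSg
          have e1 : t.2.1 = L := by rw [← he]
          have e2 : t.2.2 = Sg := by rw [← he]
          have := hone t.1 L Sg (Finset.mem_powersetCard.1 hL).2 hSg.1 hSg.2
          rw [e1, e2]
          exact this
      _ = Tr.card * (2 ^ (c + 1) * x) := by rw [Finset.sum_const, smul_eq_mul]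
  have h2 : (8 * N) ^ (c + 1) * x ≤ 2 ^ c * (N ^ (c + 1) * 2 ^ (c + 1)) * (2 ^ (c + 1) * x) :=
    h1.trans (Nat.mul_le_mul_right _ hcard)
  have h3 : (8 * N) ^ (c + 1) * x = 2 ^ (c + 1) * (2 ^ (c + 1) * (2 ^ (c + 1) *
      (N ^ (c + 1) * x))) := by
    rw [mul_pow, show (8 : ℕ) = 2 * (2 * 2) by norm_num, mul_pow, mul_pow]
    ring
  have h4 : 2 ^ c * (N ^ (c + 1) * 2 ^ (c + 1)) * (2 ^ (c + 1) * x) =
      2 ^ c * (2 ^ (c + 1) * (2 ^ (c + 1) * (N ^ (c + 1) * x))) := by ring
  rw [h3, h4] at h2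
  have h5 : 0 < 2 ^ (c + 1) * (2 ^ (c + 1) * (N ^ (c + 1) * x)) := by positivity
  have h6 := Nat.le_of_mul_le_mul_right h2 h5
  have h7 : 2 ^ c < 2 ^ (c + 1) := Nat.pow_lt_pow_right (by norm_num) (by omega)
  omega

end Pool.Agent.AGN
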