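import Mathlib
import Pool.Agent.Lib_helper38.AGN.Defs

set_option autoImplicit false

/-! AGN, block S3a: powers -/

namespace Pool.Agent.AGN

open Finset Pool.Agent.AGN

open Classical in
theorem power_down {N l a : ℕ} (E : Finset (Fin N) → Prop)
    (hE : ∀ S S', S ⊆ S' → E S' → E S) :
    (univ.filter fun g : Fin (a * l) → Fin N => E (univ.image g)).card ≤
      (univ.filter fun h : Fin l → Fin N => E (univ.image h)).card ^ a := by
  have h1 : (univ.filter fun h : Fin l → Fin N => E (univ.image h)).card ^ a =
      (Fintype.piFinset fun _ : Fin a =>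
        univ.filter fun h : Fin l → Fin N => E (univ.image h)).card := by
    rw [Fintype.card_piFinset, Finset.prod_const, Finset.card_univ, Fintype.card_fin]
  rw [h1]
  apply Finset.card_le_card_of_injOn (fun g i j => g (finProdFinEquiv (i, j)))
  · intro g hg
    rw [Finset.mem_coe, Finset.mem_filter] at hg
    rw [Finset.mem_coe, Fintype.mem_piFinset]
    intro i
    rw [Finset.mem_filter]
    refine ⟨Finset.mem_univ _, hE _ _ ?_ hg.2⟩
    intro x hx
    rw [Finset.mem_image] at hx ⊢
    obtain ⟨j, _, hj⟩ := hx
    exact ⟨finProdFinEquiv (i, j), Finset.mem_univ _, hj⟩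
  · intro g _ g' _ hgg
    funext x
    have h2 := congrFun (congrFun hgg (finProdFinEquiv.symm x).1) (finProdFinEquiv.symm x).2
    have h3 : finProdFinEquiv ((finProdFinEquiv.symm x).1, (finProdFinEquiv.symm x).2) = x :=
      finProdFinEquiv.apply_symm_apply x
    simp only at h2
    rw [h3] at h2
    exact h2

end Pool.Agent.AGN
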