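import Mathlib
import Pool.Agent.Lib_helper38.AGN.Defs
import Pool.Agent.Lib_helper58.AGN.S3a

set_option autoImplicit false

/-! AGN, block S3b: half of the tuples -/

namespace Pool.Agent.AGN

open Finset Pool.Agent.AGN

open Classical in
theorem smp_half {N c : ℕ} (hN : 0 < N) {Γ : Type} [Fintype Γ] (hΓ : Fintype.card Γ ≤ 2 ^ c)
    (E : Γ → Fin N → Finset (Fin N) → Prop) (hE : ∀ w j S S', S ⊆ S' → E w j S' → E w j S)
    (Ok : Γ → Prop) (hdc : ∀ I : Finset (Fin N), I.card ≤ (c + 5) * c →
      ∃ w, Ok w ∧ N ≤ 16 * (univ.filter fun j => E w j I).card) :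
    ∃ w, Ok w ∧ N ^ (c + 1) ≤
      64 * ∑ j, (univ.filter fun h : Fin c → Fin N => E w j (univ.image h)).card := by
  set k : ℕ := (c + 5) * c with hk
  have hch : ∀ g : Fin k → Fin N, ∃ w, Ok w ∧
      N ≤ 16 * (univ.filter fun j => E w j (univ.image g)).card := by
    intro g
    apply hdc
    refine Finset.card_image_le.trans ?_
    rw [Finset.card_univ, Fintype.card_fin]
  choose W hW using hch
  have hcard : Fintype.card (Fin k → Fin N) = N ^ k := by
    rw [Fintype.card_fun, Fintype.card_fin, Fintype.card_fin]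
  have hpos : 0 < N ^ k := pow_pos hN k
  -- the pigeonhole principle
  obtain ⟨w, hw⟩ : ∃ w, N ^ k ≤ 2 ^ c * (univ.filter fun g => W g = w).card := by
    by_contra hcon
    push Not at hcon
    have h1 : ∑ w : Γ, (univ.filter fun g => W g = w).card = N ^ k := by
      rw [← hcard, ← Finset.card_univ]
      exact (Finset.card_eq_sum_card_fiberwise fun g _ => Finset.mem_univ (W g)).symm
    have h2 : 2 ^ c * ∑ w : Γ, (univ.filter fun g => W g = w).card < 2 ^ c * N ^ k := by
      have g0 : Fin k → Fin N := fun _ => ⟨0, hN⟩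
      rw [Finset.mul_sum]
      calc ∑ w : Γ, 2 ^ c * (univ.filter fun g => W g = w).card < ∑ _w : Γ, N ^ k := by
            apply Finset.sum_lt_sum_of_nonempty ⟨W g0, Finset.mem_univ _⟩
            intro w _
            exact hcon w
        _ = Fintype.card Γ * N ^ k := by
            rw [Finset.sum_const, Finset.card_univ, smul_eq_mul]
        _ ≤ 2 ^ c * N ^ k := Nat.mul_le_mul_right _ hΓ
    rw [h1] at h2
    exact lt_irrefl _ h2
  set G : Finset (Fin k → Fin N) := univ.filter fun g => W g = w with hG
  have hG0 : 0 < G.card := by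
    rcases Nat.eq_zero_or_pos G.card with h | h
    · rw [h, mul_zero] at hw
      omega
    · exact h
  obtain ⟨g1, hg1⟩ := Finset.card_pos.mp hG0
  have hOk : Ok w := by
    rw [hG, Finset.mem_filter] at hg1
    rw [← hg1.2]
    exact (hW g1).1
  -- double counting
  set Dj : Fin N → Finset (Fin k → Fin N) := fun j => univ.filter fun g => E w j (univ.image g)
    with hDj
  have h1 : G.card * N ≤ 16 * ∑ j, (Dj j ∩ G).card := by
    have e1 : ∑ j, (Dj j ∩ G).card = ∑ g ∈ G, (univ.filter fun j => E w j (univ.image g)).card := by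
      have e2 : ∀ j, (Dj j ∩ G).card = ∑ g ∈ G, (if E w j (univ.image g) then 1 else 0) := by
        intro j
        rw [← Finset.card_filter]
        congr 1
        ext g
        rw [Finset.mem_inter, Finset.mem_filter]
        simp only [Finset.mem_filter, Finset.mem_univ, true_and]
        exact and_comm
      rw [Finset.sum_congr rfl fun j _ => e2 j, Finset.sum_comm]
      apply Finset.sum_congr rfl
      intro g _
      rw [Finset.card_filter]
    rw [e1, Finset.mul_sum, ← smul_eq_mul, ← Finset.sum_const]
    apply Finset.sum_le_sum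
    intro g hg
    rw [hG, Finset.mem_filter] at hg
    have h2 := (hW g).2
    rw [hg.2] at h2
    exact h2
  set Jp : Finset (Fin N) := univ.filter fun j => N ^ k ≤ 32 * 2 ^ c * (Dj j).card with hJp
  have h2 : 32 * ∑ j, (Dj j ∩ G).card ≤ 32 * (Jp.card * G.card) + N * G.card := by
    have e1 : ∑ j, (Dj j ∩ G).card = ∑ j ∈ Jp, (Dj j ∩ G).card +
        ∑ j ∈ univ.filter (fun j => ¬ N ^ k ≤ 32 * 2 ^ c * (Dj j).card), (Dj j ∩ G).card :=
      (Finset.sum_filter_add_sum_filter_not univ _ _).symm
    have e2 : ∑ j ∈ Jp, (Dj j ∩ G).card ≤ Jp.card * G.card := by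
      rw [← smul_eq_mul, ← Finset.sum_const]
      apply Finset.sum_le_sum
      intro j _
      exact Finset.card_le_card Finset.inter_subset_right
    have e3 : 32 * ∑ j ∈ univ.filter (fun j => ¬ N ^ k ≤ 32 * 2 ^ c * (Dj j).card),
        (Dj j ∩ G).card ≤ N * G.card := by
      rw [Finset.mul_sum]
      calc ∑ j ∈ univ.filter (fun j => ¬ N ^ k ≤ 32 * 2 ^ c * (Dj j).card),
            32 * (Dj j ∩ G).card
          ≤ ∑ _j ∈ univ.filter (fun j => ¬ N ^ k ≤ 32 * 2 ^ c * (Dj j).card), G.card := by
            apply Finset.sum_le_sum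
            intro j hj
            rw [Finset.mem_filter] at hj
            have h3 := hj.2
            rw [not_le] at h3
            have h4 : 32 * 2 ^ c * (Dj j).card < 2 ^ c * G.card := lt_of_lt_of_le h3 hw
            have h5 : 32 * (Dj j).card < G.card := by
              have h6 : 2 ^ c * (32 * (Dj j).card) < 2 ^ c * G.card := by
                calc 2 ^ c * (32 * (Dj j).card) = 32 * 2 ^ c * (Dj j).card := by ring
                  _ < _ := h4
              exact lt_of_mul_lt_mul_left h6 (Nat.zero_le _)
            have h7 : (Dj j ∩ G).card ≤ (Dj j).card :=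
              Finset.card_le_card Finset.inter_subset_left
            omega
        _ = (univ.filter (fun j => ¬ N ^ k ≤ 32 * 2 ^ c * (Dj j).card)).card * G.card := by
            rw [Finset.sum_const, smul_eq_mul]
        _ ≤ N * G.card := by
            apply Nat.mul_le_mul_right
            refine (Finset.card_le_univ _).trans ?_
            rw [Fintype.card_fin]
    rw [e1, Nat.mul_add]
    have e4 := Nat.mul_le_mul_left 32 e2
    omega
  have h3 : N ≤ 32 * Jp.card := by
    have h4 : 2 * (G.card * N) ≤ 32 * (Jp.card * G.card) + N * G.card := by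
      have := Nat.mul_le_mul_left 2 h1
      omega
    have h5 : G.card * N ≤ G.card * (32 * Jp.card) := by
      have e1 : G.card * (32 * Jp.card) = 32 * (Jp.card * G.card) := by ring
      have e2 : N * G.card = G.card * N := by ring
      rw [e1]
      rw [e2] at h4
      omega
    exact le_of_mul_le_mul_left h5 hG0
  refine ⟨w, hOk, ?_⟩
  have h4 : ∀ j ∈ Jp, 32 * N ^ c ≤
      64 * (univ.filter fun h : Fin c → Fin N => E w j (univ.image h)).card := by
    intro j hj
    rw [hJp, Finset.mem_filter] at hj
    have h5 : (Dj j).card ≤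
        (univ.filter fun h : Fin c → Fin N => E w j (univ.image h)).card ^ (c + 5) :=
      power_down (l := c) (a := c + 5) (E w j) (hE w j)
    have h6 : (N ^ c) ^ (c + 5) ≤
        (2 * (univ.filter fun h : Fin c → Fin N => E w j (univ.image h)).card) ^ (c + 5) := by
      rw [mul_pow, ← pow_mul, mul_comm c (c + 5)]
      calc N ^ k ≤ 32 * 2 ^ c * (Dj j).card := hj.2
        _ ≤ 32 * 2 ^ c *
            (univ.filter fun h : Fin c → Fin N => E w j (univ.image h)).card ^ (c + 5) :=
            Nat.mul_le_mul_left _ h5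
        _ = _ := by
            rw [pow_add 2 c 5]
            ring
    have h7 : N ^ c ≤ 2 * (univ.filter fun h : Fin c → Fin N => E w j (univ.image h)).card :=
      (Nat.pow_le_pow_iff_left (by omega)).mp h6
    omega
  calc N ^ (c + 1) = N * N ^ c := by rw [pow_succ]; ring
    _ ≤ 32 * Jp.card * N ^ c := Nat.mul_le_mul_right _ h3
    _ = ∑ _j ∈ Jp, 32 * N ^ c := by
        rw [Finset.sum_const, smul_eq_mul]
        ring
    _ ≤ ∑ j ∈ Jp, 64 * (univ.filter fun h : Fin c → Fin N => E w j (univ.image h)).card :=
        Finset.sum_le_sum h4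
    _ ≤ ∑ j, 64 * (univ.filter fun h : Fin c → Fin N => E w j (univ.image h)).card :=
        Finset.sum_le_sum_of_subset (Finset.subset_univ _)
    _ = _ := by rw [Finset.mul_sum]

end Pool.Agent.AGN
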