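import Mathlib
import Pool.Agent.Lib_helper38.AGN.Defs

set_option autoImplicit false

/-! AGN, block S4: injective tuples -/

namespace Pool.Agent.AGN

open Finset Pool.Agent.AGN

/-- the number of tuples which are not injective -/
theorem s4_desc (N k : ℕ) : 2 * N ^ (k + 1) ≤ 2 * N * N.descFactorial k + k * (k - 1) * N ^ k := by
  induction k with
  | zero =>
    rw [Nat.descFactorial_zero]
    simp
  | succ k ih =>
    have h1 : N * N.descFactorial k ≤ N.descFactorial (k + 1) + k * N ^ k := by
      rw [Nat.descFactorial_succ]
      have h2 : N.descFactorial k ≤ N ^ k := Nat.descFactorial_le_pow N k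
      rcases Nat.lt_or_ge N k with h | h
      · have h3 : N.descFactorial k = 0 := Nat.descFactorial_eq_zero_iff_lt.mpr h
        rw [h3]
        simp
      · have h4 : N * N.descFactorial k = (N - k) * N.descFactorial k + k * N.descFactorial k := by
          rw [← Nat.add_mul, Nat.sub_add_cancel h]
        rw [h4]
        exact Nat.add_le_add_left (Nat.mul_le_mul_left _ h2) _
    have h5 : (k + 1) * (k + 1 - 1) = k * (k - 1) + 2 * k := by
      rcases k with _ | k
      · rfl
      · simp only [Nat.add_sub_cancel]
        ring
    rw [h5]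
    calc 2 * N ^ (k + 1 + 1) = N * (2 * N ^ (k + 1)) := by ring
      _ ≤ N * (2 * N * N.descFactorial k + k * (k - 1) * N ^ k) := Nat.mul_le_mul_left _ ih
      _ = 2 * N * (N * N.descFactorial k) + k * (k - 1) * N ^ (k + 1) := by ring
      _ ≤ 2 * N * (N.descFactorial (k + 1) + k * N ^ k) + k * (k - 1) * N ^ (k + 1) :=
          Nat.add_le_add_right (Nat.mul_le_mul_left _ h1) _
      _ = _ := by ring

open Classical in
theorem s4_inj (N k : ℕ) :
    (univ.filter fun g : Fin k → Fin N => Function.Injective g).card = N.descFactorial k := by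
  have h1 := Fintype.card_embedding_eq (α := Fin k) (β := Fin N)
  rw [Fintype.card_fin, Fintype.card_fin] at h1
  rw [← h1, ← Fintype.card_subtype]
  exact Fintype.card_congr (Equiv.subtypeInjectiveEquivEmbedding _ _)

open Classical in
/-- double counting of the pairs (tuple, index) -/
theorem s4_double {N c : ℕ} (E : Fin N → Finset (Fin N) → Prop) :
    ∑ g : Fin (c + 1) → Fin N,
      (univ.filter fun i => E (g i) (univ.image fun j => g (i.succAbove j))).card =
    (c + 1) * ∑ j, (univ.filter fun h : Fin c → Fin N => E j (univ.image h)).card := by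
  have h1 : ∀ g : Fin (c + 1) → Fin N,
      (univ.filter fun i => E (g i) (univ.image fun j => g (i.succAbove j))).card =
      ∑ i, (if E (g i) (univ.image fun j => g (i.succAbove j)) then 1 else 0) := by
    intro g
    rw [Finset.card_filter]
  rw [Finset.sum_congr rfl fun g _ => h1 g, Finset.sum_comm]
  have h2 : ∀ i : Fin (c + 1), ∑ g : Fin (c + 1) → Fin N,
      (if E (g i) (univ.image fun j => g (i.succAbove j)) then 1 else 0) =
      ∑ j, (univ.filter fun h : Fin c → Fin N => E j (univ.image h)).card := by
    intro i
    rw [← (Fin.insertNthEquiv (fun _ : Fin (c + 1) => Fin N) i).sum_comp,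
      Fintype.sum_prod_type]
    apply Finset.sum_congr rfl
    intro j _
    rw [Finset.card_filter]
    apply Finset.sum_congr rfl
    intro h _
    have e1 : (Fin.insertNthEquiv (fun _ : Fin (c + 1) => Fin N) i) (j, h) i = j :=
      Fin.insertNth_apply_same (α := fun _ => Fin N) i j h
    have e2 : (fun j' => (Fin.insertNthEquiv (fun _ : Fin (c + 1) => Fin N) i) (j, h)
        (i.succAbove j')) = h := by
      funext j'
      exact Fin.insertNth_apply_succAbove (α := fun _ => Fin N) i j h j'
    rw [e1, e2]
  rw [Finset.sum_congr rfl fun i _ => h2 i, Finset.sum_const, Finset.card_univ, Fintype.card_fin,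
    smul_eq_mul]

open Classical in
theorem smp_inj {N c : ℕ} (hN : N = 100 * (c + 1) ^ 2) (E : Fin N → Finset (Fin N) → Prop)
    (h : N ^ (c + 1) ≤
      64 * ∑ j, (univ.filter fun h : Fin c → Fin N => E j (univ.image h)).card) :
    ∃ L : Finset (Fin N), L.card = c + 1 ∧
      c + 1 ≤ 100 * (L.filter fun j => E j (L.erase j)).card := by
  have hN0 : 0 < N := by
    rw [hN]
    positivity
  by_contra hcon
  push Not at hcon
  -- every injective tuple has few good indices
  have h1 : ∀ g : Fin (c + 1) → Fin N, Function.Injective g →
      100 * (univ.filter fun i => E (g i) (univ.image fun j => g (i.succAbove j))).card ≤ c := by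
    intro g hg
    have h2 := hcon (univ.image g) (by
      rw [Finset.card_image_of_injective _ hg, Finset.card_univ, Fintype.card_fin])
    have h3 : (univ.filter fun i => E (g i) (univ.image fun j => g (i.succAbove j))).card =
        ((univ.image g).filter fun j => E j ((univ.image g).erase j)).card := by
      rw [← Finset.card_image_of_injective (univ.filter fun i => E (g i)
        (univ.image fun j => g (i.succAbove j))) hg]
      congr 1
      have e1 : ∀ i : Fin (c + 1), (univ.image fun j => g (i.succAbove j)) =
          (univ.image g).erase (g i) := by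
        intro i
        ext x
        rw [Finset.mem_image, Finset.mem_erase, Finset.mem_image]
        constructor
        · rintro ⟨j, _, rfl⟩
          exact ⟨fun hh => Fin.succAbove_ne i j (hg hh), _, Finset.mem_univ _, rfl⟩
        · rintro ⟨hx, j, _, rfl⟩
          have hij : j ≠ i := fun hh => hx (by rw [hh])
          obtain ⟨j', rfl⟩ := Fin.exists_succAbove_eq hij
          exact ⟨j', Finset.mem_univ _, rfl⟩
      ext x
      rw [Finset.mem_image, Finset.mem_filter]
      constructor
      · rintro ⟨i, hi, rfl⟩
        rw [Finset.mem_filter] at hi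
        rw [← e1 i]
        exact ⟨Finset.mem_image_of_mem _ (Finset.mem_univ _), hi.2⟩
      · rintro ⟨hx, hE⟩
        rw [Finset.mem_image] at hx
        obtain ⟨i, _, rfl⟩ := hx
        refine ⟨i, ?_, rfl⟩
        rw [Finset.mem_filter]
        rw [← e1 i] at hE
        exact ⟨Finset.mem_univ _, hE⟩
    rw [h3]
    omega
  have h2 := s4_double (N := N) (c := c) E
  -- split into injective and other tuples
  have h3 : 100 * ∑ g : Fin (c + 1) → Fin N,
      (univ.filter fun i => E (g i) (univ.image fun j => g (i.succAbove j))).card ≤
      c * N ^ (c + 1) + 100 * ((c + 1) * (N ^ (c + 1) - N.descFactorial (c + 1))) := by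
    rw [← Finset.sum_filter_add_sum_filter_not univ
      (fun g : Fin (c + 1) → Fin N => Function.Injective g), Nat.mul_add]
    apply Nat.add_le_add
    · rw [Finset.mul_sum]
      calc ∑ g ∈ univ.filter (fun g : Fin (c + 1) → Fin N => Function.Injective g),
            100 * (univ.filter fun i => E (g i) (univ.image fun j => g (i.succAbove j))).card
          ≤ ∑ _g ∈ univ.filter (fun g : Fin (c + 1) → Fin N => Function.Injective g), c := by
            apply Finset.sum_le_sum
            intro g hg
            rw [Finset.mem_filter] at hg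
            exact h1 g hg.2
        _ = N.descFactorial (c + 1) * c := by
            rw [Finset.sum_const, smul_eq_mul, s4_inj]
        _ ≤ c * N ^ (c + 1) := by
            rw [mul_comm]
            exact Nat.mul_le_mul_left _ (Nat.descFactorial_le_pow N (c + 1))
    · apply Nat.mul_le_mul_left
      calc ∑ g ∈ univ.filter (fun g : Fin (c + 1) → Fin N => ¬ Function.Injective g),
            (univ.filter fun i => E (g i) (univ.image fun j => g (i.succAbove j))).card
          ≤ ∑ _g ∈ univ.filter (fun g : Fin (c + 1) → Fin N => ¬ Function.Injective g),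
            (c + 1) := by
            apply Finset.sum_le_sum
            intro g _
            refine (Finset.card_le_univ _).trans ?_
            rw [Fintype.card_fin]
        _ = (N ^ (c + 1) - N.descFactorial (c + 1)) * (c + 1) := by
            rw [Finset.sum_const, smul_eq_mul, Finset.filter_not, Finset.card_sdiff_of_subset
              (Finset.filter_subset _ _), s4_inj, Finset.card_univ, Fintype.card_fun,
              Fintype.card_fin, Fintype.card_fin]
        _ = _ := by ring
  rw [h2] at h3
  have h4 := s4_desc N (c + 1)
  have h5 : c + 1 - 1 = c := by omega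
  rw [h5] at h4
  have h6 : N.descFactorial (c + 1) ≤ N ^ (c + 1) := Nat.descFactorial_le_pow N (c + 1)
  -- numbers
  set P : ℕ := N ^ (c + 1) with hP
  set Q : ℕ := N.descFactorial (c + 1) with hQ
  set Sg : ℕ := ∑ j, (univ.filter fun h : Fin c → Fin N => E j (univ.image h)).card with hSg
  have hPpos : 0 < P := pow_pos hN0 _
  have h7 : 200 * (P - Q) ≤ P := by
    have e1 : 2 * N * (P - Q) ≤ (c + 1) * c * P := by
      have e2 : N ^ (c + 1 + 1) = N * P := by
        rw [hP]
        ring
      rw [e2] at h4
      rw [Nat.mul_sub]
      have e3 : 2 * (N * P) = 2 * N * P := by ring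
      rw [e3] at h4
      omega
    have e4 : (c + 1) * c * P ≤ (c + 1) ^ 2 * P := by
      apply Nat.mul_le_mul_right
      nlinarith
    have e5 : (c + 1) ^ 2 * (200 * (P - Q)) ≤ (c + 1) ^ 2 * P := by
      calc (c + 1) ^ 2 * (200 * (P - Q)) = 2 * N * (P - Q) := by
            rw [hN]
            ring
        _ ≤ _ := e1.trans e4
    exact le_of_mul_le_mul_left e5 (by positivity)
  -- 100 (c+1) P ≤ 6400 (c+1) Sg ≤ 64 (c P + (c+1) P / 2)
  have h8 : 100 * ((c + 1) * P) ≤ 64 * (c * P + 100 * ((c + 1) * (P - Q))) := by
    calc 100 * ((c + 1) * P) ≤ 100 * ((c + 1) * (64 * Sg)) :=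
          Nat.mul_le_mul_left _ (Nat.mul_le_mul_left _ h)
      _ = 64 * (100 * ((c + 1) * Sg)) := by ring
      _ ≤ _ := Nat.mul_le_mul_left _ h3
  have h9 : 200 * ((c + 1) * (P - Q)) ≤ (c + 1) * P := by
    calc 200 * ((c + 1) * (P - Q)) = (c + 1) * (200 * (P - Q)) := by ring
      _ ≤ _ := Nat.mul_le_mul_left _ h7
  have h10 : (c + 1) * P = c * P + P := by ring
  omega

end Pool.Agent.AGN
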