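import Mathlib
import Pool.Agent.Lib_helper38.AGN.Defs
import Pool.Agent.Lib_helper58.AGN.S2
import Pool.Agent.Lib_helper58.AGN.S3b
import Pool.Agent.Lib_helper58.AGN.S4

set_option autoImplicit false

/-! AGN, block S5: the sampling lemma -/

namespace Pool.Agent.AGN

open Finset Pool.Agent.AGG Pool.Agent.AGN

open Classical in
theorem sampling {M Γ : Type} [Fintype M] [DecidableEq M] [Nonempty M] [Fintype Γ] {N c q : ℕ}
    (hN : N = 100 * (c + 1) ^ 2) (hq : (8 * N) ^ 100 ≤ q) (hΓ : Fintype.card Γ ≤ 2 ^ c)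
    {al : Finset M → Γ → Prop} {unc : M → Finset M → Γ → Prop} {w₀ : Γ}
    (h : Smp N q al unc w₀)
    (hdc : ∀ A : Fin N → M, al (univ.image A) w₀ → ∀ I : Finset (Fin N), N ≤ 2 * I.card →
      ∃ w, al (univ.image A) w ∧
        I.card ≤ 8 * (I.filter fun j => unc (A j) ((I.erase j).image A) w).card) : False := by
  obtain ⟨A, hA1, hA2⟩ := smp_good hN hq hΓ h
  obtain ⟨E, hEd⟩ : ∃ E : Γ → Fin N → Finset (Fin N) → Prop, ∀ w j S, E w j S ↔
      (j ∉ S ∧ unc (A j) (((univ \ S).erase j).image A) w) := ⟨_, fun _ _ _ => Iff.rfl⟩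
  have hE : ∀ w j S S', S ⊆ S' → E w j S' → E w j S := by
    intro w j S S' hS hE'
    rw [hEd] at hE' ⊢
    refine ⟨fun hj => hE'.1 (hS hj), h.mono _ _ _ _ ?_ hE'.2⟩
    exact image_subset_image (erase_subset_erase _ (sdiff_subset_sdiff (Subset.refl _) hS))
  have hN0 : 0 < N := by rw [hN]; positivity
  obtain ⟨w, hw, hsum⟩ := smp_half hN0 hΓ E hE (fun w => al (univ.image A) w) (by
    intro I hI
    have hc : (univ \ I).card = N - I.card := by
      rw [card_sdiff_of_subset (subset_univ _), card_univ, Fintype.card_fin]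
    have h1 : 2 * ((c + 5) * c) ≤ N := by
      rw [hN]
      nlinarith [sq_nonneg c, Nat.zero_le c]
    have h2 : N ≤ 2 * (univ \ I).card := by
      rw [hc]; omega
    obtain ⟨w, hw1, hw2⟩ := hdc A hA1 (univ \ I) h2
    refine ⟨w, hw1, ?_⟩
    refine le_trans (le_trans h2 (Nat.mul_le_mul_left 2 hw2)) ?_
    rw [← mul_assoc]
    refine Nat.mul_le_mul_left 16 (card_le_card fun j hj => ?_)
    rw [mem_filter] at hj ⊢
    exact ⟨mem_univ _, (hEd _ _ _).2 ⟨(mem_sdiff.1 hj.1).2, hj.2⟩⟩)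
  obtain ⟨L, hL, hL2⟩ := smp_inj hN (E w) hsum
  have h4 := hA2 w hw L hL
  refine absurd (le_trans hL2 (Nat.mul_le_mul_left 100 (card_le_card fun j hj => ?_)))
    (not_le.2 h4)
  rw [mem_filter] at hj ⊢
  refine ⟨hj.1, ?_⟩
  have h6 : (univ \ L.erase j).erase j = Lᶜ := by
    ext i
    by_cases hi : i = j
    · subst hi
      simp [hj.1]
    · simp [hi]
  have h7 := ((hEd _ _ _).1 hj.2).2
  rw [h6] at h7
  exact h7

end Pool.Agent.AGN
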