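import Mathlib
import Pool.Agent.Lib_helper38.AGN.Defs
import Pool.Agent.Lib_helper38.AGG.Defs
import Pool.Agent.Lib_helper58.XA.K2a
import Pool.Agent.Lib_helper16.XA.K2c
import Pool.Agent.Lib_helper67.XA.K5
import Pool.Agent.Lib_helper10.LogRank.Cube
import Pool.Agent.Lib_helper58.XA.Main
import Pool.Agent.Lib_helper58.XA.E1g
import Pool.Agent.Lib_helper58.AGG.A2b
import Pool.Agent.Lib_helper58.AGG.B1
import Pool.Agent.Lib_helper58.AGG.B2
import Pool.Agent.Lib_helper58.AGN.N2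
import Pool.Agent.Lib_helper58.AGN.N3
import Pool.Agent.Lib_helper58.AGN.S5
import Pool.Agent.Lib_helper58.AGN.K8b
import Pool.Agent.Lib_helper58.AGN.K9

set_option autoImplicit false

/-! AGN, block K10: the key lemma -/

namespace Pool.Agent.AGN

open Finset Filter Pool.Agent.XA Pool.Agent.AGG Pool.Agent.Lib_helper10.LogRank Pool.Agent.AGN

variable {ι : Type} [Fintype ι] [DecidableEq ι] {V : Type} [AddCommGroup V] [Fintype V]
  [DecidableEq V]

open Classical in
/-- the contexts: at most `D` characters and a coset -/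
noncomputable def k10_ctx (a : Finset ι → V → ℂ) (D : ℕ) :
    Finset (Finset V × Finset (AddChar V ℂ)) :=
  univ.filter fun w => w.1 ⊆ Nb a ∧ w.1.card ≤ D ∧ ∃ ξ, w.2 = Cos w.1 ξ

theorem k10_mem {a : Finset ι → V → ℂ} {D : ℕ} {w : Finset V × Finset (AddChar V ℂ)} :
    w ∈ k10_ctx a D ↔ w.1 ⊆ Nb a ∧ w.1.card ≤ D ∧ ∃ ξ, w.2 = Cos w.1 ξ := by
  classical
  unfold k10_ctx
  rw [Finset.mem_filter]
  exact ⟨fun h => h.2, fun h => ⟨Finset.mem_univ _, h⟩⟩

/-- the number of contexts -/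
theorem k10_count {r D : ℕ} (hr : 2 ≤ r) {a : Finset ι → V → ℂ} (ha : St r a) :
    (k10_ctx a D).card ≤ (r ^ 3 + 1) ^ D * (r ^ 6) ^ D := by
  classical
  have hr6 : 0 < r ^ 6 := pow_pos (by omega) 6
  let f : {T : Finset V // T ⊆ Nb a ∧ T.card ≤ D} → Finset (Finset (AddChar V ℂ)) := fun T =>
    univ.filter fun W => ∃ ξ, W = Cos T.1 ξ
  let g : {T : Finset V // T ⊆ Nb a ∧ T.card ≤ D} →
      Finset (Finset V × Finset (AddChar V ℂ)) := fun T => (f T).image fun W => (T.1, W)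
  have hsub : k10_ctx a D ⊆
      (univ : Finset {T : Finset V // T ⊆ Nb a ∧ T.card ≤ D}).biUnion g := by
    intro w hw
    obtain ⟨hT, hTD, ξ, hξ⟩ := k10_mem.1 hw
    rw [Finset.mem_biUnion]
    refine ⟨⟨w.1, hT, hTD⟩, Finset.mem_univ _, ?_⟩
    simp only [g, f, Finset.mem_image, Finset.mem_filter, Finset.mem_univ, true_and]
    exact ⟨w.2, ⟨ξ, hξ⟩, rfl⟩
  have hf : ∀ T ∈ (univ : Finset {T : Finset V // T ⊆ Nb a ∧ T.card ≤ D}),
      (g T).card ≤ (r ^ 6) ^ D := by
    intro T _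
    refine Finset.card_image_le.trans ?_
    refine (card_cosets (B := r ^ 6) T.1 (fun t ht => ord_Nb hr ha t (T.2.1 ht)) (f T) ?_).trans ?_
    · intro W hW
      simp only [f, Finset.mem_filter, Finset.mem_univ, true_and] at hW
      exact hW
    · exact Nat.pow_le_pow_right hr6 T.2.2
  calc (k10_ctx a D).card
      ≤ ((univ : Finset {T : Finset V // T ⊆ Nb a ∧ T.card ≤ D}).biUnion g).card :=
        Finset.card_le_card hsub
    _ ≤ (univ : Finset {T : Finset V // T ⊆ Nb a ∧ T.card ≤ D}).card * (r ^ 6) ^ D :=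
        Finset.card_biUnion_le_card_mul _ _ _ hf
    _ ≤ (r ^ 3 + 1) ^ D * (r ^ 6) ^ D := by
        refine Nat.mul_le_mul_right _ ?_
        rw [Finset.card_univ]
        refine (e1_count (Nb a) D).trans ?_
        exact Nat.pow_le_pow_left (Nat.add_le_add_right (card_Nb hr ha) 1) D

/-- counting in a subtype -/
theorem k10_card {α : Type} [DecidableEq α] (s : Finset α) (P : α → Prop) [DecidablePred P]
    [DecidablePred fun m : {p // p ∈ s} => P m.1] :
    (univ.filter fun m : {p // p ∈ s} => P m.1).card = (s.filter P).card := by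
  rw [← Finset.card_map (Function.Embedding.subtype _)]
  congr 1
  ext x
  simp only [Finset.mem_map, Finset.mem_filter, Finset.mem_univ, true_and,
    Function.Embedding.coe_subtype]
  constructor
  · rintro ⟨m, hm, rfl⟩
    exact ⟨m.2, hm⟩
  · rintro ⟨h1, h2⟩
    exact ⟨⟨x, h1⟩, h2, rfl⟩

theorem k10_congr {α : Type} (s : Finset α) (P Q : α → Prop) (i₁ : DecidablePred P)
    (i₂ : DecidablePred Q) (h : ∀ x ∈ s, (P x ↔ Q x)) :
    (s.filter P).card = (s.filter Q).card := by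
  congr 1
  exact Finset.filter_congr h

/-- if many monomials are unclean many are killed -/
theorem k10_kill {r d : ℕ} {a : Finset ι → V → ℂ} {D : Finset ι → AddChar V ℂ → Prop}
    (hD : Dn D) (U : Finset ι) (T : Finset V) (ζ : AddChar V ℂ)
    {W : Type} [AddCommGroup W] [Fintype W] [DecidableEq W] (π : V →+ W)
    (hπ : ∀ v, π v = 0 ↔ v ∈ AddSubgroup.closure (T : Set V)) {n : ℕ}
    (hn : ∀ F : Finset (Finset ι × V), (∀ p, p ∈ F ↔ p ∈ mon a D ∧
      Clean D (mon a D) U T (Cos T ζ) p) → n + F.card ≤ (mon a D).card)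
    (hbig : (mon a D).card ≤ (8 * pN r d) ^ 100 * n) :
    pq r d * (mon (mpush π (setU U a) ζ)
      (fun z ζ' => D (U ∪ z) (ζ * ζ'.compAddMonoidHom π))).card ≤
      (pq r d - 1) * (mon a D).card := by
  classical
  have h1 := clean_many (a := a) hD U T π hπ ζ
  have h2 := hn ((mon a D).filter (Clean D (mon a D) U T (Cos T ζ)))
    (fun p => Finset.mem_filter)
  set X := (mon (mpush π (setU U a) ζ)
      (fun z ζ' => D (U ∪ z) (ζ * ζ'.compAddMonoidHom π))).card with hX
  set Y := (mon a D).card with hY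
  set Z := ((mon a D).filter (Clean D (mon a D) U T (Cos T ζ))).card with hZ
  have h3 : 2 * X + n ≤ 2 * Y := by omega
  set q := (8 * pN r d) ^ 100 with hq
  have hpq : pq r d = 2 * q := rfl
  rw [hpq]
  have h4 : q * (2 * X + n) ≤ q * (2 * Y) := Nat.mul_le_mul_left q h3
  have h5 : q * (2 * X + n) = 2 * q * X + q * n := by ring
  have h6 : q * (2 * Y) = 2 * q * Y := by ring
  rw [h5, h6] at h4
  have h7 : (2 * q - 1) * Y = 2 * q * Y - Y := by
    rw [Nat.sub_mul, one_mul]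
  rw [h7]
  omega

theorem klmix {r d : ℕ} (hr : 2 ≤ r) (hd : 1 ≤ d) (hc : Cert r d V)
    {a : Finset ι → V → ℂ} (ha : St r a) {D : Finset ι → AddChar V ℂ → Prop} (hD : Dn D)
    (hne : (mon a D).Nonempty) :
    ∃ R ⊆ mon a D, R.card ≤ pN r d ∧ ∃ T ⊆ Nb a, T.card ≤ pT r d ∧ ∃ ζ₁, D (sup1 R) ζ₁ ∧
      ∀ ζ ∈ Cos T ζ₁, ∀ (W : Type) [AddCommGroup W] [Fintype W] [DecidableEq W] (π : V →+ W),
        (∀ v, π v = 0 ↔ v ∈ AddSubgroup.closure (T : Set V)) →
        pq r d * (mon (mpush π (setU (sup1 R) a) ζ)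
          (fun z ζ' => D (sup1 R ∪ z) (ζ * ζ'.compAddMonoidHom π))).card ≤
        (pq r d - 1) * (mon a D).card := by
  classical
  by_contra hneg
  -- the objects of the sampling lemma
  have hNe : Nonempty {p // p ∈ mon a D} := by
    obtain ⟨p, hp⟩ := hne
    exact ⟨⟨p, hp⟩⟩
  have hw0 : ((∅ : Finset V), (univ : Finset (AddChar V ℂ))) ∈ k10_ctx a (pT r d) := by
    rw [k10_mem]
    refine ⟨Finset.empty_subset _, ?_, 1, (Cos_empty (V := V) 1).symm⟩
    simp
  let sp : Finset {p // p ∈ mon a D} → Finset ι := fun S => S.biUnion fun p => p.1.1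
  have sp_mono : ∀ S S', S ⊆ S' → sp S ⊆ sp S' := fun S S' h =>
    Finset.biUnion_subset_biUnion_of_subset_left _ h
  have sp_ins : ∀ m S, sp (insert m S) = sp S ∪ m.1.1 := by
    intro m S
    show (insert m S).biUnion _ = _
    rw [Finset.biUnion_insert, Finset.union_comm]
  let al : Finset {p // p ∈ mon a D} → {w // w ∈ k10_ctx a (pT r d)} → Prop :=
    fun S w => ∃ ζ ∈ w.1.2, D (sp S) ζ
  let unc : {p // p ∈ mon a D} → Finset {p // p ∈ mon a D} →
      {w // w ∈ k10_ctx a (pT r d)} → Prop :=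
    fun m S w => ¬ Clean D (mon a D) (sp S) w.1.1 w.1.2 m.1
  have hΓ : Fintype.card {w // w ∈ k10_ctx a (pT r d)} ≤ 2 ^ pc r d := by
    rw [Fintype.card_coe]
    exact (k10_count hr ha).trans (num_c hr hd)
  have hsmp : Smp (pN r d) ((8 * pN r d) ^ 100) al unc ⟨_, hw0⟩ := by
    refine ⟨?_, ?_, ?_, ?_, ?_, ?_⟩
    · rintro S S' w hS ⟨ζ, hζ, h⟩
      exact ⟨ζ, hζ, hD _ _ _ (sp_mono S S' hS) h⟩
    · rintro S w ⟨ζ, hζ, h⟩
      exact ⟨ζ, Finset.mem_univ _, h⟩
    · intro m S S' w hS h hcl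
      exact h (clean_mono hD (sp_mono S S' hS) hcl)
    · intro m S w _ hdead hcl
      apply hdead
      obtain ⟨ζ, hζ, h⟩ := hcl.2.1
      refine ⟨ζ, hζ, ?_⟩
      rw [sp_ins]
      exact h
    · rintro S ⟨⟨T, W0⟩, hw⟩ hS ⟨ζ₁, hζ₁, hDζ⟩
      obtain ⟨hT, hTc, ξ, hξ⟩ := k10_mem.1 hw
      simp only at hT hTc hξ hζ₁
      subst hξ
      by_contra hbig
      push Not at hbig
      apply hneg
      have hsup : sup1 (S.image Subtype.val) = sp S := by
        show (S.image Subtype.val).biUnion Prod.fst = S.biUnion fun p => p.1.1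
        rw [Finset.image_biUnion]
      refine ⟨S.image Subtype.val, ?_, Finset.card_image_le.trans hS, T, hT, hTc, ζ₁, ?_, ?_⟩
      · intro p hp
        obtain ⟨m, -, rfl⟩ := Finset.mem_image.1 hp
        exact m.2
      · rw [hsup]
        exact hDζ
      · intro ζ hζ W _ _ _ π hπ
        rw [hsup]
        have hcos1 : Cos T ζ₁ = Cos T ξ := Cos_eq hζ₁
        have hcos : Cos T ζ = Cos T ξ := by
          rw [← hcos1]
          exact Cos_eq hζ
        refine k10_kill (r := r) (d := d) hD (sp S) T ζ π hπ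
          (n := (univ.filter fun m : {p // p ∈ mon a D} =>
            ¬ Clean D (mon a D) (sp S) T (Cos T ξ) m.1).card) ?_ ?_
        · intro F hF
          rw [k10_card (mon a D) fun p => ¬ Clean D (mon a D) (sp S) T (Cos T ξ) p]
          have hFe : F = (mon a D).filter (Clean D (mon a D) (sp S) T (Cos T ξ)) := by
            ext p
            rw [hF p, Finset.mem_filter, hcos]
          rw [hFe, add_comm]
          exact (Finset.card_filter_add_card_filter_not _).le
        · rw [Fintype.card_coe] at hbig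
          refine hbig.le.trans (le_of_eq (congrArg (fun x => (8 * pN r d) ^ 100 * x)
            (k10_congr _ _ _ _ _ fun m _ => Iff.rfl)))
    · obtain ⟨p, hp⟩ := hne
      unfold mon at hp
      rw [Finset.mem_filter] at hp
      obtain ⟨ζ, hζ⟩ := hp.2.2.2
      exact ⟨ζ, Finset.mem_univ _, hD _ _ _ (Finset.empty_subset _) hζ⟩
  refine sampling (M := {p // p ∈ mon a D}) (Γ := {w // w ∈ k10_ctx a (pT r d)})
    (N := pN r d) (c := pc r d) (q := (8 * pN r d) ^ 100) rfl le_rfl hΓ hsmp ?_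
  rintro A ⟨ζ₀, -, h0⟩ I hI
  have himg : ∀ J : Finset (Fin (pN r d)), sp (J.image A) = J.biUnion fun j => (A j).1.1 := by
    intro J
    show (J.image A).biUnion (fun p => p.1.1) = _
    rw [Finset.image_biUnion]
  obtain ⟨T, hT, hTc, hcard⟩ := det_claim hr hd hc ha hD (fun j => (A j).1) (fun j => (A j).2)
    (ζ₀ := ζ₀) (by rw [himg] at h0; exact h0) I hI
  have hw : (T, Cos T ζ₀) ∈ k10_ctx a (pT r d) := k10_mem.2 ⟨hT, hTc, ζ₀, rfl⟩
  refine ⟨⟨_, hw⟩, ⟨ζ₀, mem_Cos.2 fun t _ => rfl, h0⟩, ?_⟩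
  refine hcard.trans (Nat.mul_le_mul_left 8 (le_of_eq (k10_congr _ _ _ _ _ fun j _ => ?_)))
  show _ ↔ ¬ Clean D (mon a D) (sp ((I.erase j).image A)) T (Cos T ζ₀) (A j).1
  rw [himg]

end Pool.Agent.AGN
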