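import Mathlib
import Pool.Agent.Lib_helper38.AGN.Defs
import Pool.Agent.Lib_helper58.AGG.A1
import Pool.Agent.Lib_helper58.XA.K2a

set_option autoImplicit false

/-! AGN, block N1: setting coordinates to 1 -/

namespace Pool.Agent.AGN

open Finset Pool.Agent.XA Pool.Agent.AGG Pool.Agent.Lib_helper10.LogRank Pool.Agent.AGN

variable {ι : Type} [Fintype ι] [DecidableEq ι] {V : Type} [AddCommGroup V] [Fintype V]
  [DecidableEq V] {W : Type} [AddCommGroup W] [Fintype W] [DecidableEq W]

theorem n1_empty (a : Finset ι → V → ℂ) : setU ∅ a = a := by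
  funext v χ
  simp [setU]

theorem n1_insert (U : Finset ι) {i : ι} (hi : i ∉ U) (a : Finset ι → V → ℂ) :
    setU (insert i U) a = set1 i (setU U a) := by
  funext v χ
  unfold set1 setU
  by_cases hv : i ∈ v
  · rw [if_pos hv, if_neg]
    rw [disjoint_insert_right]
    exact fun h => h.1 hv
  · rw [if_neg hv]
    by_cases hd : Disjoint v U
    · have h1 : Disjoint v (insert i U) := disjoint_insert_right.2 ⟨hv, hd⟩
      have h2 : Disjoint (insert i v) U := disjoint_insert_left.2 ⟨hi, hd⟩
      rw [if_pos h1, if_pos hd, if_pos h2, sum_powerset_insert hi]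
      congr 1
      refine sum_congr rfl fun s _ => ?_
      rw [union_insert, insert_union]
    · have h1 : ¬ Disjoint v (insert i U) := fun h => hd (disjoint_insert_right.1 h).2
      have h2 : ¬ Disjoint (insert i v) U := fun h => hd (disjoint_insert_left.1 h).2
      rw [if_neg h1, if_neg hd, if_neg h2, add_zero]

theorem sl_setU (U : Finset ι) (a : Finset ι → V → ℂ) (z : Finset ι) :
    sl (setU U a) z = sl a (U ∪ z) := by
  induction U using Finset.induction_on generalizing z with
  | empty => rw [n1_empty, empty_union]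
  | insert i U hi ih => rw [n1_insert U hi, sl_set1, ih, union_insert, insert_union]

theorem mix_rest {a : Finset ι → V → ℂ} (h : Mix a) (U : Finset ι) (π : V →+ W)
    (ζ : AddChar V ℂ) : Mix (mpush π (setU U a) ζ) := by
  refine mix_mpush (fun z => ?_) π ζ
  rw [sl_setU]
  exact h _

theorem ev_rest (a : Finset ι → V → ℂ) (U : Finset ι) (π : V →+ W) (ζ : AddChar V ℂ)
    (z : Finset ι) (ζ' : AddChar W ℂ) : ev (sl (mpush π (setU U a) ζ) z) ζ' =
      ev (sl a (U ∪ z)) (ζ * ζ'.compAddMonoidHom π) := by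
  rw [sl_mpush, sl_setU, ev_push]

theorem supp_rest {a : Finset ι → V → ℂ} {K : Finset (Finset ι × V)}
    (h : ∀ u χ, a u χ ≠ 0 → (u, χ) ∈ K) (U : Finset ι) (π : V →+ W) (ζ : AddChar V ℂ)
    (u : Finset ι) (w : W) (hw : mpush π (setU U a) ζ u w ≠ 0) :
    (u, w) ∈ K.image (fun p => (p.1 \ U, π p.2)) := by
  obtain ⟨χ, hχ, hπ⟩ := push_ne hw
  unfold setU at hχ
  split_ifs at hχ with hd
  · obtain ⟨s, hs, hs'⟩ := exists_ne_zero_of_sum_ne_zero hχ
    refine mem_image.2 ⟨(u ∪ s, χ), h _ _ hs', ?_⟩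
    simp only [Prod.mk.injEq]
    refine ⟨?_, hπ⟩
    rw [union_sdiff_distrib, sdiff_eq_self_of_disjoint hd, sdiff_eq_empty_iff_subset.2
      (mem_powerset.1 hs), union_empty]
  · exact absurd rfl hχ

end Pool.Agent.AGN
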