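import Mathlib
import Pool.Agent.Lib_helper38.AGN.Defs
import Pool.Agent.Lib_helper38.AGG.Defs
import Pool.Agent.Lib_helper58.XA.K2a
import Pool.Agent.Lib_helper16.XA.K2c
import Pool.Agent.Lib_helper67.XA.K5
import Pool.Agent.Lib_helper10.LogRank.Cube
import Pool.Agent.Lib_helper58.XA.Main
import Pool.Agent.Lib_helper10.AndRank.Core
import Pool.Agent.Lib_helper58.XA.E1g
import Pool.Agent.Lib_helper58.AGG.B1
import Pool.Agent.Lib_helper58.AGN.N1
import Pool.Agent.Lib_helper58.AGN.N2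
import Pool.Agent.Lib_helper58.AGN.N3
import Pool.Agent.Lib_helper58.AGN.K10
import Pool.Agent.Lib_helper58.AGN.R1

set_option autoImplicit false

/-! AGN, block R3: one step of the construction of large rectangles -/

namespace Pool.Agent.AGN

open Finset Filter Pool.Agent.XA Pool.Agent.AGG Pool.Agent.Lib_helper10.LogRank
  Pool.Agent.Lib_helper10.AndRank Pool.Agent.AGN

variable {ι : Type} [Fintype ι] [DecidableEq ι] {V : Type} [AddCommGroup V] [Fintype V]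
  [DecidableEq V] {X Y : Type}

/-- the event which is used -/
def r3_Phi (r d : ℕ) (P : X → Finset ι) (Q : Y → Finset ι) (ζ : X → Y → AddChar V ℂ)
    (a : Y → Finset ι → V → ℂ) (A₀ : Finset X) (y : Y) (U : Finset ι) (T : Finset V) (x : X) :
    Prop :=
  ∀ ζ' ∈ Cos T (ζ x y), ∀ (W : Type) [AddCommGroup W] [Fintype W] [DecidableEq W] (π : V →+ W),
    (∀ v, π v = 0 ↔ v ∈ AddSubgroup.closure (T : Set V)) →
    pq r d * (mon (mpush π (setU U (a y)) ζ') (fun z ζ'' =>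
      DA A₀ P (Q y) (fun x => ζ x y) (U ∪ z) (ζ' * ζ''.compAddMonoidHom π))).card ≤
      (pq r d - 1) * (mon (a y) (DA A₀ P (Q y) fun x => ζ x y)).card

theorem r3_hyp {r d κ : ℕ} (hr : 2 ≤ r) (hd : 1 ≤ d) (hc : Cert r d V) {A : Finset X}
    {B : Finset Y} {P : X → Finset ι} {Q : Y → Finset ι}
    {ζ : X → Y → AddChar V ℂ} {a : Y → Finset ι → V → ℂ} {K : Finset (Finset ι × V)}
    (h : Dat r κ A B ζ a K) (A₀ : Finset X) (hA₀ : A₀.Nonempty) (y : Y) (hy : y ∈ B) :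
    ∃ R ⊆ K.image Prod.fst, R.card ≤ pN r d ∧
      ∃ T ⊆ Ns (K.image Prod.snd), T.card ≤ pT r d ∧ ∃ x ∈ A₀, R.biUnion id ⊆ P x ∩ Q y ∧
        r3_Phi r d P Q ζ a A₀ y (R.biUnion id) T x := by
  classical
  obtain ⟨hst, hNb⟩ := st_of (h.mix y hy) (h.sup y hy) h.card h.ord
  have hDn := dn_DA A₀ P (Q y) (fun x => ζ x y)
  by_cases hne : (mon (a y) (DA A₀ P (Q y) fun x => ζ x y)).Nonempty
  · obtain ⟨R, hR, hRc, T, hT, hTc, ζ₁, ⟨x, hx, hxU, hxζ⟩, hk⟩ := klmix hr hd hc hst hDn hne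
    have hU : (R.image Prod.fst).biUnion id = sup1 R := by
      rw [sup1, Finset.image_biUnion]
      rfl
    refine ⟨R.image Prod.fst, ?_, card_image_le.trans hRc, T, hT.trans hNb, hTc, x, hx, ?_, ?_⟩
    · intro u hu
      obtain ⟨p, hp, rfl⟩ := mem_image.1 hu
      have hp' := hR hp
      simp only [mon, mem_filter, mem_univ, true_and] at hp'
      exact mem_image.2 ⟨(p.1, p.2), h.sup y hy _ _ hp'.2.1, rfl⟩
    · rw [hU]
      exact hxU
    · rw [hU]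
      intro ζ' hζ' W _ _ _ π hπ
      have hxζ' : ζ₁ = ζ x y := hxζ
      rw [← hxζ'] at hζ'
      exact hk ζ' hζ' W π hπ
  · obtain ⟨x, hx⟩ := hA₀
    refine ⟨∅, empty_subset _, by simp, ∅, empty_subset _, by simp, x, hx, by simp, ?_⟩
    intro ζ' _ W _ _ _ π hπ
    have h0 : (mon (a y) (DA A₀ P (Q y) fun x => ζ x y)).card = 0 := by
      rw [card_eq_zero]
      exact not_nonempty_iff_eq_empty.1 hne
    have h1 := card_mon_rest (a := a y) hDn ((∅ : Finset (Finset ι)).biUnion id) (∅ : Finset V) π hπ ζ'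
    rw [h0] at h1
    rw [Nat.le_zero.1 h1]
    simp

theorem r3_ne {α : Type} {n : ℕ} {s t : Finset α} (hs : s.Nonempty) (h : s.card ≤ n * t.card) :
    t.Nonempty := by
  rw [← card_pos] at hs ⊢
  rcases Nat.eq_zero_or_pos t.card with h0 | h0
  · rw [h0, Nat.mul_zero] at h
    omega
  · exact h0

theorem rect_step {r d κ : ℕ} (hr : 2 ≤ r) (hd : 1 ≤ d) (hc : Cert r d V) {A : Finset X}
    {B : Finset Y} (hA : A.Nonempty) (hB : B.Nonempty) {P : X → Finset ι} {Q : Y → Finset ι}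
    {ζ : X → Y → AddChar V ℂ} {a : Y → Finset ι → V → ℂ} {K : Finset (Finset ι × V)}
    (h : Dat r κ A B ζ a K) :
    ∃ (W : Type) (_ : AddCommGroup W) (_ : Fintype W) (_ : DecidableEq W) (A₁ : Finset X)
      (B₁ : Finset Y) (ζ' : X → Y → AddChar W ℂ) (a' : Y → Finset ι → W → ℂ)
      (K' : Finset (Finset ι × W)), A₁ ⊆ A ∧ B₁ ⊆ B ∧
      A.card ≤ 2 ^ (pE r d κ + 1) * A₁.card ∧ B.card ≤ 2 ^ (pE r d κ + 1) * B₁.card ∧
      Dat r κ A₁ B₁ ζ' a' K' ∧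
      (∀ y ∈ B₁, pq r d * (mon (a' y) (DA A₁ P (Q y) fun x => ζ' x y)).card ≤
        (pq r d - 1) * (mon (a y) (DA A P (Q y) fun x => ζ x y)).card) ∧
      ∀ y ∈ B₁, ∀ x ∈ A₁, ev (sl (a' y) (P x ∩ Q y)) (ζ' x y) =
        ev (sl (a y) (P x ∩ Q y)) (ζ x y) := by
  classical
  obtain ⟨A₀, hA₀, U, T, A₁, hA₁, B₁, hB₁, hcA, hcB, hU, hζ, hΦ⟩ :=
    event_pop (d := d) (κ := κ) hr hA hB (P := P) (Q := Q) (ζ := ζ) h.card h.cov
      (r3_Phi r d P Q ζ a) (fun A₀ _ hA₀ y hy => r3_hyp hr hd hc h A₀ hA₀ y hy)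
  have hA₁ne : A₁.Nonempty := r3_ne hA hcA
  have hB₁ne : B₁.Nonempty := r3_ne hB hcB
  obtain ⟨x₁, hx₁⟩ := hA₁ne
  obtain ⟨y₁, hy₁⟩ := hB₁ne
  set ζ₁ : AddChar V ℂ := ζ x₁ y₁ with hζ₁
  set S : AddSubgroup V := AddSubgroup.closure (T : Set V) with hS
  let W : Type := V ⧸ S
  let instF : Fintype W := Fintype.ofFinite _
  let instD : DecidableEq W := Classical.decEq _
  let π : V →+ W := QuotientAddGroup.mk' S
  have hπ : ∀ v, π v = 0 ↔ v ∈ AddSubgroup.closure (T : Set V) := fun v =>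
    QuotientAddGroup.eq_zero_iff v
  -- descend
  have hdesc : ∀ x ∈ A₁, ∀ y ∈ B₁, ∃ ζ' : AddChar W ℂ, ζ x y = ζ₁ * ζ'.compAddMonoidHom π := by
    intro x hx y hy
    have htriv : ∀ u ∈ S, (ζ x y * ζ₁⁻¹) u = 1 := by
      intro u hu
      refine AddSubgroup.closure_induction (p := fun u _ => (ζ x y * ζ₁⁻¹) u = 1) ?_ ?_ ?_ ?_ hu
      · intro t ht
        have e1 : ζ x y t = ζ₁ t := hζ t ht x hx x₁ hx₁ y hy y₁ hy₁
        rw [AddChar.mul_apply, e1, ← AddChar.mul_apply, mul_inv_cancel, AddChar.one_apply]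
      · exact AddChar.map_zero_eq_one _
      · intro u v _ _ hu hv
        rw [AddChar.map_add_eq_mul, hu, hv, mul_one]
      · intro u _ hu
        rw [AddChar.map_neg_eq_inv, hu, inv_one]
    obtain ⟨ζ', hζ'⟩ := e1_desc S (ζ x y * ζ₁⁻¹) htriv
    refine ⟨ζ', ?_⟩
    rw [show ζ'.compAddMonoidHom π = ζ x y * ζ₁⁻¹ from hζ'.symm]
    rw [mul_comm (ζ x y), mul_inv_cancel_left]
  let ζ' : X → Y → AddChar W ℂ := fun x y =>
    if hxy : x ∈ A₁ ∧ y ∈ B₁ then (hdesc x hxy.1 y hxy.2).choose else 1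
  have hζ' : ∀ x ∈ A₁, ∀ y ∈ B₁, ζ x y = ζ₁ * (ζ' x y).compAddMonoidHom π := by
    intro x hx y hy
    have e : ζ' x y = (hdesc x hx y hy).choose := by
      simp only [ζ', dif_pos (And.intro hx hy)]
    rw [e]
    exact (hdesc x hx y hy).choose_spec
  have hζt : ∀ x ∈ A₁, ∀ y ∈ B₁, ∀ t, ζ' x y (π t) = (ζ₁ t)⁻¹ * ζ x y t := by
    intro x hx y hy t
    have h1 : ζ x y t = ζ₁ t * ζ' x y (π t) := by
      conv_lhs => rw [hζ' x hx y hy]
      rfl
    have hne : ζ₁ t ≠ 0 := by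
      intro h0
      have h2 := AddChar.map_zero_eq_one ζ₁
      rw [← add_neg_cancel t, AddChar.map_add_eq_mul, h0, zero_mul] at h2
      exact zero_ne_one h2
    rw [h1, inv_mul_cancel_left₀ hne]
  set a' : Y → Finset ι → W → ℂ := fun y => mpush π (setU U (a y)) ζ₁ with ha'
  set K' : Finset (Finset ι × W) := K.image (fun p => (p.1 \ U, π p.2)) with hK'
  have hsnd : K'.image Prod.snd = (K.image Prod.snd).image π := by
    rw [hK', image_image, image_image]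
    rfl
  refine ⟨W, inferInstance, instF, instD, A₁, B₁, ζ', a', K', hA₁.trans hA₀, hB₁, hcA, hcB, ?_, ?_, ?_⟩
  · refine ⟨card_image_le.trans h.card, ?_, ?_, ?_, ?_⟩
    · intro p hp
      obtain ⟨q, hq, rfl⟩ := mem_image.1 hp
      have h1 : addOrderOf (π q.2) ∣ addOrderOf q.2 := addOrderOf_map_dvd π q.2
      exact (Nat.le_of_dvd (addOrderOf_pos q.2) h1).trans (h.ord q hq)
    · intro y hy
      exact mix_rest (h.mix y (hB₁ hy)) U π ζ₁
    · intro y hy u χ hne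
      exact supp_rest (h.sup y (hB₁ hy)) U π ζ₁ u χ hne
    · intro t' ht'
      have : ∃ t ∈ Ns (K.image Prod.snd), π t = t' := by
        rw [hsnd] at ht'
        simp only [Ns, mem_union, mem_image, mem_product] at ht' ⊢
        rcases ht' with ⟨t, ht, rfl⟩ | ⟨⟨u, v⟩, ⟨⟨s, hs, hs'⟩, ⟨s2, hs2, hs2'⟩⟩, rfl⟩
        · exact ⟨t, Or.inl ht, rfl⟩
        · refine ⟨s - s2, Or.inr ⟨(s, s2), ⟨hs, hs2⟩, rfl⟩, ?_⟩
          rw [map_sub, hs', hs2']
      obtain ⟨t, ht, rfl⟩ := this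
      obtain ⟨RX, RY, hcov, hconst⟩ := h.cov t ht
      refine ⟨fun i => (RX i).filter (· ∈ A₁), fun i => (RY i).filter (· ∈ B₁), ?_, ?_⟩
      · intro x hx y hy
        obtain ⟨i, hi1, hi2⟩ := hcov x (hA₀ (hA₁ hx)) y (hB₁ hy)
        exact ⟨i, mem_filter.2 ⟨hi1, hx⟩, mem_filter.2 ⟨hi2, hy⟩⟩
      · intro i x hx x' hx' y hy y' hy'
        rw [mem_filter] at hx hx' hy hy'
        show ζ' x y (π t) = ζ' x' y' (π t)
        have e : ζ x y t = ζ x' y' t := hconst i x hx.1 x' hx'.1 y hy.1 y' hy'.1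
        rw [hζt x hx.2 y hy.2 t, hζt x' hx'.2 y' hy'.2 t, e]
  · intro y hy
    obtain ⟨x, hx, hΦx⟩ := hΦ y hy
    have hmem : ζ₁ ∈ Cos T (ζ x y) := by
      rw [mem_Cos]
      intro t ht
      exact hζ t ht x₁ hx₁ x hx y₁ hy₁ y hy
    have h1 := hΦx ζ₁ hmem W π hπ
    have h2 : mon (a' y) (DA A₁ P (Q y) fun x => ζ' x y) ⊆
        mon (mpush π (setU U (a y)) ζ₁) (fun z ζ'' =>
          DA A₀ P (Q y) (fun x => ζ x y) (U ∪ z) (ζ₁ * ζ''.compAddMonoidHom π)) := by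
      refine mon_mono ?_
      rintro z ζ'' ⟨x', hx', hz, rfl⟩
      exact ⟨x', hA₁ hx', union_subset (hU x' hx' y hy) hz, (hζ' x' hx' y hy).symm⟩
    have h3 : mon (a y) (DA A₀ P (Q y) fun x => ζ x y) ⊆ mon (a y) (DA A P (Q y) fun x => ζ x y) := by
      refine mon_mono ?_
      rintro z ζ'' ⟨x', hx', hz, he⟩
      exact ⟨x', hA₀ hx', hz, he⟩
    calc _ ≤ pq r d * _ := Nat.mul_le_mul le_rfl (card_le_card h2)
      _ ≤ _ := h1
      _ ≤ _ := Nat.mul_le_mul le_rfl (card_le_card h3)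
  · intro y hy x hx
    show ev (sl (mpush π (setU U (a y)) ζ₁) (P x ∩ Q y)) (ζ' x y) = _
    rw [ev_rest, union_eq_right.2 (hU x hx y hy), ← hζ' x hx y hy]

end Pool.Agent.AGN
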