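import Mathlib
import Pool.Agent.Lib_helper38.AGN.Defs
import Pool.Agent.Lib_helper38.AGG.Defs
import Pool.Agent.Lib_helper58.XA.K2a
import Pool.Agent.Lib_helper16.XA.K2c
import Pool.Agent.Lib_helper67.XA.K5
import Pool.Agent.Lib_helper10.LogRank.Cube
import Pool.Agent.Lib_helper58.XA.Main
import Pool.Agent.Lib_helper10.AndRank.Core
import Pool.Agent.Lib_helper58.AGN.R2
import Pool.Agent.Lib_helper58.AGN.R3

set_option autoImplicit false

/-! AGN, block R4: large rectangles -/

namespace Pool.Agent.AGN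

open Finset Filter Pool.Agent.XA Pool.Agent.AGG Pool.Agent.AGN Pool.Agent.Lib_helper10.LogRank
  Pool.Agent.Lib_helper10.AndRank

variable {ι : Type} [Fintype ι] [DecidableEq ι] {V : Type} [AddCommGroup V] [Fintype V]
  [DecidableEq V] {X Y : Type}

theorem r4_pq (r d : ℕ) : 0 < pq r d := by
  unfold pq pN
  positivity

theorem r4_le {a b c e f g : ℕ} (h1 : a ≤ 2 ^ e * b) (h2 : b ≤ 2 ^ f * c) (h3 : e + f ≤ g) :
    a ≤ 2 ^ g * c :=
  calc a ≤ 2 ^ e * b := h1
    _ ≤ 2 ^ e * (2 ^ f * c) := Nat.mul_le_mul_left _ h2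
    _ = 2 ^ (e + f) * c := by rw [pow_add, mul_assoc]
    _ ≤ 2 ^ g * c := Nat.mul_le_mul_right _ (Nat.pow_le_pow_right (by norm_num) h3)

theorem rect {r d κ : ℕ} (hr : 2 ≤ r) (hd : 1 ≤ d)
    (hc : ∀ (V : Type) [AddCommGroup V] [Fintype V] [DecidableEq V], Cert r d V)
    {P : X → Finset ι} {Q : Y → Finset ι} : ∀ (J : ℕ) (V : Type) [AddCommGroup V] [Fintype V]
      [DecidableEq V] (A : Finset X) (B : Finset Y) (ζ : X → Y → AddChar V ℂ)
      (a : Y → Finset ι → V → ℂ) (K : Finset (Finset ι × V)), Dat r κ A B ζ a K →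
      (∀ y ∈ B, (mon (a y) (DA A P (Q y) fun x => ζ x y)).card * (pq r d - 1) ^ J <
        pq r d ^ J) →
      ∃ A' ⊆ A, ∃ B' ⊆ B, A.card ≤ 2 ^ ((pE r d κ + 2) * (J + 1)) * A'.card ∧
        B.card ≤ 2 ^ ((pE r d κ + 2) * (J + 1)) * B'.card ∧
        ∀ y ∈ B', ∃ b, ∀ x ∈ A', ev (sl (a y) (P x ∩ Q y)) (ζ x y) = b := by
  intro J
  induction J with
  | zero =>
    intro V _ _ _ A B ζ a K hK hm
    have h0 : ∀ y ∈ B, mon (a y) (DA A P (Q y) fun x => ζ x y) = ∅ := by
      intro y hy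
      have := hm y hy
      rw [pow_zero, pow_zero, mul_one] at this
      exact card_eq_zero.1 (by omega)
    obtain ⟨A', hA', B', hB', h1, h2, h3⟩ := rect_base hr hd (hc V) hK h0
    refine ⟨A', hA', B', hB', ?_, ?_, h3⟩
    · exact h1.trans (Nat.mul_le_mul_right _ (Nat.pow_le_pow_right (by norm_num) (by omega)))
    · exact h2.trans (Nat.mul_le_mul_right _ (Nat.pow_le_pow_right (by norm_num) (by omega)))
  | succ J ih =>
    intro V _ _ _ A B ζ a K hK hm
    rcases A.eq_empty_or_nonempty with hA | hA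
    · refine ⟨A, Subset.refl _, B, Subset.refl _, ?_, ?_, ?_⟩
      · exact Nat.le_mul_of_pos_left _ (by positivity)
      · exact Nat.le_mul_of_pos_left _ (by positivity)
      · intro y _
        refine ⟨0, fun x hx => ?_⟩
        rw [hA] at hx
        exact absurd hx (notMem_empty x)
    rcases B.eq_empty_or_nonempty with hB | hB
    · refine ⟨A, Subset.refl _, B, Subset.refl _, ?_, ?_, ?_⟩
      · exact Nat.le_mul_of_pos_left _ (by positivity)
      · exact Nat.le_mul_of_pos_left _ (by positivity)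
      · intro y hy
        rw [hB] at hy
        exact absurd hy (notMem_empty y)
    obtain ⟨W, i1, i2, i3, A₁, B₁, ζ', a', K', hA₁, hB₁, cA, cB, hD, hmon, hev⟩ :=
      rect_step (κ := κ) hr hd (hc V) hA hB (P := P) (Q := Q) hK
    obtain ⟨A', hA', B', hB', h1, h2, h3⟩ := ih W A₁ B₁ ζ' a' K' hD (by
      intro y hy
      have e1 := hmon y hy
      have e2 := hm y (hB₁ hy)
      have e3 : pq r d * ((mon (a' y) (DA A₁ P (Q y) fun x => ζ' x y)).card *
          (pq r d - 1) ^ J) < pq r d * pq r d ^ J := by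
        calc pq r d * ((mon (a' y) (DA A₁ P (Q y) fun x => ζ' x y)).card * (pq r d - 1) ^ J)
            = (pq r d * (mon (a' y) (DA A₁ P (Q y) fun x => ζ' x y)).card) *
              (pq r d - 1) ^ J := by ring
          _ ≤ ((pq r d - 1) * (mon (a y) (DA A P (Q y) fun x => ζ x y)).card) *
              (pq r d - 1) ^ J := Nat.mul_le_mul_right _ e1
          _ = (mon (a y) (DA A P (Q y) fun x => ζ x y)).card * (pq r d - 1) ^ (J + 1) := by
              ring
          _ < pq r d ^ (J + 1) := e2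
          _ = pq r d * pq r d ^ J := by ring
      exact lt_of_mul_lt_mul_left e3 (Nat.zero_le _))
    have hexp : pE r d κ + 1 + (pE r d κ + 2) * (J + 1) ≤ (pE r d κ + 2) * (J + 1 + 1) := by
      nlinarith
    refine ⟨A', hA'.trans hA₁, B', hB'.trans hB₁, r4_le cA h1 hexp, r4_le cB h2 hexp, ?_⟩
    intro y hy
    obtain ⟨b, hb⟩ := h3 y hy
    refine ⟨b, fun x hx => ?_⟩
    rw [← hev y (hB' hy) x (hA' hx)]
    exact hb x hx

end Pool.Agent.AGN
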