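import Mathlib
import Pool.Agent.Lib_helper38.AGN.Defs
import Pool.Agent.Lib_helper10.AndRank.Core

set_option autoImplicit false

/-! AGN, block R5: the protocol of Nisan and Wigderson for a matrix of small rank -/

namespace Pool.Agent.AGN

open Finset Filter Pool.Agent.XA Pool.Agent.AGG Pool.Agent.AGN Pool.Agent.Lib_helper10.LogRank
  Pool.Agent.Lib_helper10.AndRank

variable {X Y : Type}

/-- the rows -/
theorem r5_rows [Fintype X] [Fintype Y] [DecidableEq X] [DecidableEq Y] (G : X → Y → Bool) :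
    rk G univ univ ≤ realRank G := by
  unfold rk realRank
  rw [Matrix.rank_eq_finrank_span_row]
  refine Submodule.finrank_mono (Submodule.span_mono ?_)
  rintro _ ⟨x, _, rfl⟩
  refine ⟨x, ?_⟩
  funext y
  simp [vec, Matrix.row]

/-- the columns -/
theorem r5_cols [Fintype X] [Fintype Y] [DecidableEq X] [DecidableEq Y] (G : X → Y → Bool) :
    rk (fun (y : Y) (x : X) => G x y) univ univ ≤ realRank G := by
  unfold rk realRank
  rw [Matrix.rank_eq_finrank_span_cols]
  refine Submodule.finrank_mono (Submodule.span_mono ?_)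
  rintro _ ⟨y, _, rfl⟩
  refine ⟨y, ?_⟩
  funext x
  simp [vec, Matrix.col, Matrix.transpose]

theorem nw_gen [Fintype X] [Fintype Y] [DecidableEq X] [DecidableEq Y] (G : X → Y → Bool)
    {t q : ℕ} (hrk : realRank G ≤ 2 ^ t) (hG : Good G univ univ q) :
    ∃ π : Protocol X Y, (∀ x y, π.eval x y = G x y) ∧ π.cost ≤ t * (2 * (q + t + 3)) + 2 := by
  classical
  have hrk1 : rk G univ univ ≤ 2 ^ t := (r5_rows G).trans hrk
  have hrk2 : rk (fun (y : Y) (x : X) => G x y) univ univ ≤ 2 ^ t := (r5_cols G).trans hrk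
  obtain ⟨ρQ, hρQ, hρQc⟩ := reps G univ univ hrk1
  obtain ⟨ρP, hρP, hρPc⟩ := reps (fun (y : Y) (x : X) => G x y) univ univ hrk2
  set A₀ := (univ : Finset X).image ρP with hA₀
  set B₀ := (univ : Finset Y).image ρQ with hB₀
  have hgood : Good G A₀ B₀ q := fun A _ B _ => hG A (subset_univ _) B (subset_univ _)
  have hrk3 : rk G A₀ B₀ ≤ 2 ^ t :=
    ((rk_mono_left G (subset_univ _) B₀).trans (rk_mono_right G univ (subset_univ _))).trans hrk1
  have hw : 2 ^ q * (2 ^ t + 1) + 2 ^ q * (2 ^ t + 1) < 2 ^ (q + t + 3) := by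
    have e : 2 ^ (q + t + 3) = 2 ^ q * (2 ^ t * 8) := by rw [pow_add, pow_add]; ring
    rw [e, ← Nat.mul_add]
    refine Nat.mul_lt_mul_of_pos_left ?_ (by positivity)
    have : 1 ≤ 2 ^ t := Nat.one_le_two_pow
    omega
  have hph := phases hgood (size_bound q (2 ^ t) _ hρPc) (size_bound q (2 ^ t) _ hρQc) hw t A₀ B₀
    Subset.rfl Subset.rfl hrk3
  obtain ⟨π, h1, h2⟩ := CCOn.comap ρP ρQ hph
  refine ⟨π, fun x y => ?_, h1⟩
  rw [h2 x y ⟨mem_image_of_mem _ (mem_univ _), mem_image_of_mem _ (mem_univ _)⟩]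
  have h3 := (hρP x (mem_univ _)).2 (ρQ y) (mem_univ _)
  have h4 := (hρQ y (mem_univ _)).2 x (mem_univ _)
  exact h3.trans h4

end Pool.Agent.AGN
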