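import Mathlib
import Pool.Agent.Lib_helper38.AGN.Defs
import Pool.Agent.Lib_helper38.AGG.Defs
import Pool.Agent.Lib_helper58.XA.K2a
import Pool.Agent.Lib_helper16.XA.K2c
import Pool.Agent.Lib_helper67.XA.K5
import Pool.Agent.Lib_helper10.LogRank.Cube
import Pool.Agent.Lib_helper58.XA.Main
import Pool.Agent.Lib_helper10.AndRank.Core
import Pool.Agent.Lib_helper58.AGN.R4
import Pool.Agent.Lib_helper58.AGN.R5

set_option autoImplicit false

/-! AGN, block R6: the protocol -/

namespace Pool.Agent.AGN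

open Finset Filter Pool.Agent.XA Pool.Agent.AGG Pool.Agent.AGN Pool.Agent.Lib_helper10.LogRank
  Pool.Agent.Lib_helper10.AndRank

variable {ι : Type} [Fintype ι] [DecidableEq ι] {V : Type} [AddCommGroup V] [Fintype V]
  [DecidableEq V] {X Y : Type}

theorem r6_pq (r d : ℕ) : 0 < pq r d := by
  unfold pq pN
  positivity

theorem r6_size (k N c : ℕ) (hk : 0 < k) (hc : c ≤ 2 ^ N) :
    c * (k - 1) ^ (k * (N + 1)) < k ^ (k * (N + 1)) := by
  have h1 := two_mul_pred_pow_le k hk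
  have h2 : 2 ^ (N + 1) * (k - 1) ^ (k * (N + 1)) ≤ k ^ (k * (N + 1)) := by
    calc 2 ^ (N + 1) * (k - 1) ^ (k * (N + 1))
        = (2 * (k - 1) ^ k) ^ (N + 1) := by rw [mul_pow, ← pow_mul]
      _ ≤ (k ^ k) ^ (N + 1) := Nat.pow_le_pow_left h1 _
      _ = _ := by rw [← pow_mul]
  have h3 : 0 < k ^ (k * (N + 1)) := by positivity
  rw [pow_succ] at h2
  have h4 : c * (k - 1) ^ (k * (N + 1)) ≤ 2 ^ N * (k - 1) ^ (k * (N + 1)) :=
    Nat.mul_le_mul hc le_rfl
  nlinarith

theorem r6_dat {r κ : ℕ} {A A' : Finset X} {B B' : Finset Y} (hA : A' ⊆ A) (hB : B' ⊆ B)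
    {ζ : X → Y → AddChar V ℂ} {a : Y → Finset ι → V → ℂ} {K : Finset (Finset ι × V)}
    (h : Dat r κ A B ζ a K) : Dat r κ A' B' ζ a K where
  card := h.card
  ord := h.ord
  mix := fun y hy => h.mix y (hB hy)
  sup := fun y hy => h.sup y (hB hy)
  cov := fun t ht => by
    obtain ⟨RX, RY, h1, h2⟩ := h.cov t ht
    exact ⟨RX, RY, fun x hx y hy => h1 x (hA hx) y (hB hy), h2⟩

theorem mix_protocol {r d κ : ℕ} (hr : 2 ≤ r) (hd : 1 ≤ d)
    (hc : ∀ (V : Type) [AddCommGroup V] [Fintype V] [DecidableEq V], Cert r d V)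
    [Fintype X] [Fintype Y] {P : X → Finset ι} {Q : Y → Finset ι} {ζ : X → Y → AddChar V ℂ}
    {a : Y → Finset ι → V → ℂ} {K : Finset (Finset ι × V)} (h : Dat r κ univ univ ζ a K)
    (G : X → Y → Bool)
    (hG : ∀ x y, ev (sl (a y) (P x ∩ Q y)) (ζ x y) = if G x y then -1 else 1)
    (hrk : realRank G ≤ r) :
    ∃ π : Protocol X Y, (∀ x y, π.eval x y = G x y) ∧ π.cost ≤ pF r d κ := by
  classical
  have ht : r ≤ 2 ^ tt r := Nat.le_pow_clog (by norm_num) r
  have hgood : Good G univ univ ((pE r d κ + 2) * (pq r d * (tt r + 1) + 1)) := by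
    intro A hA B hB
    have hD : Dat r κ A B ζ a K := r6_dat hA hB h
    obtain ⟨A', hA', B', hB', h1, h2, h3⟩ := rect (κ := κ) hr hd hc (P := P) (Q := Q)
      (pq r d * (tt r + 1)) V A B ζ a K hD (by
        intro y hy
        refine r6_size (pq r d) (tt r) _ (r6_pq r d) ?_
        refine le_trans ?_ (hD.card.trans ht)
        refine card_le_card fun p hp => ?_
        have hp' := (mem_filter.1 hp).2
        exact hD.sup y hy p.1 p.2 hp'.2.1)
    refine ⟨A', hA', B', hB', h1, h2, rk_le_one fun y hy => ?_⟩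
    obtain ⟨b, hb⟩ := h3 y hy
    refine ⟨decide (b = -1), fun x hx => ?_⟩
    have e := hG x y
    rw [hb x hx] at e
    cases hGxy : G x y
    · rw [hGxy] at e
      have e' : b = 1 := by simpa using e
      have hne : ¬ (b = -1) := by
        rw [e']; norm_num
      simp [hne]
    · rw [hGxy] at e
      have e' : b = -1 := by simpa using e
      simp [e']
  obtain ⟨π, h1, h2⟩ := nw_gen G (hrk.trans ht) hgood
  exact ⟨π, h1, h2⟩

end Pool.Agent.AGN
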