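import Mathlib
import Pool.Agent.Lib_helper38.AGN.Defs
import Pool.Agent.Lib_helper38.AGG.Defs
import Pool.Agent.Lib_helper58.XA.K2a
import Pool.Agent.Lib_helper16.XA.K2c
import Pool.Agent.Lib_helper67.XA.K5
import Pool.Agent.Lib_helper10.LogRank.Cube
import Pool.Agent.Lib_helper58.XA.Main
import Pool.Agent.Lib_helper10.AndRank.Core
import Pool.Agent.Lib_helper35.XA.G1
import Pool.Agent.Lib_helper16.XA.G4
import Pool.Agent.Lib_helper59.XA.H1
import Pool.Agent.Lib_helper58.AGG.G2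
import Pool.Agent.Lib_helper58.AGG.G6
import Pool.Agent.Lib_helper58.AGG.G7
import Pool.Agent.Lib_helper58.AGN.R6
import Pool.Agent.Lib_helper58.AGN.G2
import Pool.Agent.Lib_helper58.AGN.G4
import Pool.Agent.Lib_helper58.AGN.G7
import Pool.Agent.Lib_helper58.AGN.H1
import Pool.Agent.Lib_helper58.AGN.H2

set_option autoImplicit false

/-! AGN, H3: no gadget is an exclusive or -/

namespace Pool.Agent.AGN

open Finset Filter Pool.Agent.XA Pool.Agent.AGG Pool.Agent.AGN Pool.Agent.Lib_helper10.LogRank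

/-- the order of a difference -/
theorem h3_ord {W : Type} [AddCommGroup W] {s t : W} {n : ℕ} (hs0 : 0 < addOrderOf s)
    (ht0 : 0 < addOrderOf t) (hs : addOrderOf s ≤ n) (ht : addOrderOf t ≤ n) :
    addOrderOf (s - t) ≤ n * n := by
  have h1 : addOrderOf (s - t) ∣ addOrderOf s * addOrderOf t := by
    rw [addOrderOf_dvd_iff_nsmul_eq_zero, nsmul_sub]
    have h2 : (addOrderOf s * addOrderOf t) • s = 0 := by
      rw [mul_comm, mul_smul, addOrderOf_nsmul_eq_zero, smul_zero]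
    have h3 : (addOrderOf s * addOrderOf t) • t = 0 := by
      rw [mul_smul, addOrderOf_nsmul_eq_zero, smul_zero]
    rw [h2, h3, sub_zero]
  exact (Nat.le_of_dvd (Nat.mul_pos hs0 ht0) h1).trans (Nat.mul_le_mul hs ht)

theorem no_xorN {ε : ℝ} (hε : 0 < ε) : ∃ C : ℝ, 0 ≤ C ∧ ∀ (ι : Type) [Fintype ι] [DecidableEq ι]
    (A B : ι → Type) [∀ i, Fintype (A i)] [∀ i, Fintype (B i)] (V : Type) [AddCommGroup V]
    [Fintype V] (Q : Type) [Fintype Q] (g : ∀ i, A i → B i → Bool)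
    (f : Q → (ι → Bool) → V → Bool) (κ R : ℕ), 2 ≤ R → (∀ i, ¬ XorLike (g i)) →
    (∀ i, ∃ π : Protocol (A i) (B i), (∀ a b, π.eval a b = g i a b) ∧ π.cost ≤ κ) →
    (Matrix.of fun (x : (∀ i, A i) × V) (y : Q × (∀ i, B i) × V) =>
      (if f y.1 (fun i => g i (x.1 i) (y.2.1 i)) (x.2 + y.2.2) then -1 else 1 : ℝ)).rank ≤ R →
    (realRank fun (x : (∀ i, A i) × V) (y : Q × (∀ i, B i) × V) =>
      f y.1 (fun i => g i (x.1 i) (y.2.1 i)) (x.2 + y.2.2)) ≤ R →
    ∃ π : Protocol ((∀ i, A i) × V) (Q × (∀ i, B i) × V),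
      (∀ x y, π.eval x y = f y.1 (fun i => g i (x.1 i) (y.2.1 i)) (x.2 + y.2.2)) ∧
      (π.cost : ℝ) ≤ C * (R : ℝ) ^ ε * (1 + κ) := by
  classical
  obtain ⟨C₀, hC₀, hcert⟩ := cert_all (δ := ε / 10000) (by positivity)
  obtain ⟨C, hC, hnum⟩ := num_final hε hC₀
  refine ⟨C, hC, ?_⟩
  intro ι _ _ A B _ _ V _ _ Q _ g f κ R hR hg hπ hrank hreal
  -- the normalised gadgets
  choose c hc1 hc2 using fun i => gadget_cases (hg i)
  obtain ⟨G, hG⟩ : ∃ G : ∀ i, A i → B i → Bool, ∀ i a b, G i a b = (g i a b ^^ c i) :=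
    ⟨fun i a b => (g i a b ^^ c i), fun i a b => rfl⟩
  have hG1 : ∀ i, Diag (G i) (fun s => if s then 0 else 1) (fun s => if s then 1 else 0) := by
    intro i
    have h1 : G i = fun a b => (g i a b ^^ c i) := by
      funext a b
      exact hG i a b
    rw [h1]
    exact hc1 i
  obtain ⟨N, hN⟩ : ∃ N : Finset ι, N = univ.filter fun i =>
      ∃ e : ℝ, e ≠ 0 ∧ Diag (G i) (fun s => if s then 0 else e) (fun _ => 1) := ⟨_, rfl⟩
  have hNmem : ∀ i, i ∈ N ↔
      ∃ e : ℝ, e ≠ 0 ∧ Diag (G i) (fun s => if s then 0 else e) (fun _ => 1) := by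
    intro i
    rw [hN, mem_filter]
    exact ⟨fun h => h.2, fun h => ⟨mem_univ _, h⟩⟩
  have hNnot : ∀ i, ∃ (p : A i → Bool) (q : B i → Bool),
      i ∉ N → ∀ a b, G i a b = (p a && q b) := by
    intro i
    by_cases hi : i ∈ N
    · exact ⟨fun _ => false, fun _ => false, fun h => absurd hi h⟩
    · rcases hc2 i with h | h
      · obtain ⟨p, q, hpq⟩ := h.2
        exact ⟨p, q, fun _ a b => by rw [hG]; exact hpq a b⟩
      · exfalso
        apply hi
        rw [hNmem]
        obtain ⟨e, he, hd⟩ := h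
        refine ⟨e, he, ?_⟩
        have h1 : G i = fun a b => (g i a b ^^ c i) := by
          funext a b
          exact hG i a b
        rw [h1]
        exact hd
  choose p q hpq using hNnot
  -- the function
  obtain ⟨φ, hφ⟩ : ∃ φ : Q → Finset ι → V → ℝ, ∀ s w v, φ s w v =
      if f s (fun i => (decide (i ∈ w) ^^ c i)) v then -1 else 1 := ⟨_, fun _ _ _ => rfl⟩
  have hφ1 : ∀ s w v, φ s w v = 1 ∨ φ s w v = -1 := by
    intro s w v
    rw [hφ]
    cases f s (fun i => (decide (i ∈ w) ^^ c i)) v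
    · left; simp
    · right; simp
  have hφz : ∀ (x : (∀ i, A i) × V) (y : Q × (∀ i, B i) × V) (z : Finset ι),
      (∀ i, i ∈ z ↔ G i (x.1 i) (y.2.1 i) = true) → φ y.1 z (x.2 + y.2.2) =
      if f y.1 (fun i => g i (x.1 i) (y.2.1 i)) (x.2 + y.2.2) then -1 else 1 := by
    intro x y z hz
    rw [hφ]
    have h1 : (fun i => (decide (i ∈ z) ^^ c i)) = fun i => g i (x.1 i) (y.2.1 i) := by
      funext i
      have h2 : decide (i ∈ z) = G i (x.1 i) (y.2.1 i) := by
        rw [Bool.decide_congr (hz i)]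
        exact Bool.decide_eq_true
      rw [h2, hG]
      cases g i (x.1 i) (y.2.1 i) <;> cases c i <;> rfl
    rw [h1]
  -- the coefficients
  obtain ⟨hb1, hb2⟩ := fam_basic (Q := Q) N hG1 (fun i hi => (hNmem i).1 hi) φ
    (fun x y => if f y.1 (fun i => g i (x.1 i) (y.2.1 i)) (x.2 + y.2.2) then -1 else 1)
    (fun x y => (hφz x y _ (fun i => by simp)).symm) hrank
  obtain ⟨hk1, hk2⟩ := conv_count hb1 hb2
  obtain ⟨K, hK⟩ : ∃ K : Finset (Finset ι × AddChar (V × (ι → ZMod 2)) ℂ),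
      ∀ p, p ∈ K ↔ ∃ s, coef (conv N (φ s)) p.1 p.2 ≠ 0 :=
    ⟨univ.filter fun p => ∃ s, coef (conv N (φ s)) p.1 p.2 ≠ 0, fun p => by
      rw [mem_filter]; exact ⟨fun h => h.2, fun h => ⟨mem_univ _, h⟩⟩⟩
  have hKcard : K.card ≤ R ^ 3 := by
    refine le_trans (card_le_card ?_) hk1
    intro p hp
    rw [mem_filter]
    exact ⟨mem_univ _, (hK p).1 hp⟩
  have hconv1 : ∀ s z v, conv N (φ s) z v = 1 ∨ conv N (φ s) z v = -1 := fun s z v => hφ1 _ _ _
  have hr : 2 ≤ R ^ 3 := le_trans hR (Nat.le_self_pow (by norm_num) R)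
  have hnz : ∀ s, nnz (coef (conv N (φ s))) ≤ R ^ 3 := by
    intro s
    refine le_trans ?_ hKcard
    unfold nnz
    apply card_le_card
    intro p hp
    rw [mem_filter] at hp
    exact (hK p).2 ⟨s, hp.2⟩
  have hord : ∀ p ∈ K, addOrderOf p.2 ≤ (R ^ 3) ^ 3 := by
    intro p hp
    obtain ⟨s, hs⟩ := (hK p).1 hp
    exact ord_coef (hconv1 s) hr (hnz s) p.1 p.2 hs
  have hset : ∀ p ∈ K, (Sset p.2).card ≤ tt (R ^ 3) := by
    intro p hp
    obtain ⟨s, hs⟩ := (hK p).1 hp
    exact hk2 s p.1 p.2 hs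
  -- the protocols for `G`
  have hGπ : ∀ i, ∃ π : Protocol (A i) (B i), (∀ a b, π.eval a b = G i a b) ∧ π.cost ≤ κ := by
    intro i
    obtain ⟨π0, h0, hc0⟩ := hπ i
    obtain ⟨π1, h1, hc1⟩ := h1_flip π0 (c i)
    exact ⟨π1, fun a b => by rw [h1, h0, hG], by rw [hc1]; exact hc0⟩
  -- the data
  obtain ⟨ζ, hζ⟩ : ∃ ζ : ((∀ i, A i) × V) → (Q × (∀ i, B i) × V) →
      AddChar (AddChar (V × (ι → ZMod 2)) ℂ) ℂ, ∀ x y, ζ x y =
      (AddChar.doubleDualEmb ((x.2 + y.2.2, fun i =>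
        if i ∈ N ∧ G i (x.1 i) (y.2.1 i) = true then 1 else 0) : V × (ι → ZMod 2)) :
        AddChar (AddChar (V × (ι → ZMod 2)) ℂ) ℂ) *
      (AddChar.doubleDualEmb (0 : V × (ι → ZMod 2)) :
        AddChar (AddChar (V × (ι → ZMod 2)) ℂ) ℂ) := ⟨_, fun _ _ => rfl⟩
  have hζt : ∀ x y t, ζ x y t = t (x.2 + y.2.2, fun i =>
        if i ∈ N ∧ G i (x.1 i) (y.2.1 i) = true then 1 else 0) := by
    intro x y t
    rw [hζ, AddChar.mul_apply, AddChar.doubleDualEmb_apply, AddChar.doubleDualEmb_apply,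
      AddChar.map_zero_eq_one, mul_one]
  have hDat : Dat (R ^ 3) (12 * tt (R ^ 3) * (1 + κ)) univ univ ζ
      (fun y : Q × (∀ i, B i) × V => coef (conv N (φ y.1))) K := by
    refine ⟨hKcard, hord, fun y _ => mix_coef (hconv1 y.1),
      fun y _ u χ h => (hK (u, χ)).2 ⟨y.1, h⟩, ?_⟩
    intro t ht
    have hfun : (fun (x : (∀ i, A i) × V) (y : Q × (∀ i, B i) × V) => ζ x y t) =
        fun x y => t (x.2 + y.2.2, fun i =>
          if i ∈ N ∧ G i (x.1 i) (y.2.1 i) = true then 1 else 0) := by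
      funext x y
      exact hζt x y t
    rw [hfun]
    have h12 : addOrderOf t ≤ (R ^ 3) ^ 6 ∧ (Sset t).card ≤ 2 * tt (R ^ 3) := by
      unfold Ns at ht
      rcases mem_union.1 ht with h | h
      · obtain ⟨p, hp, rfl⟩ := mem_image.1 h
        refine ⟨(hord p hp).trans (Nat.pow_le_pow_right (by omega) (by norm_num)), ?_⟩
        have := hset p hp
        omega
      · obtain ⟨w, hw, rfl⟩ := mem_image.1 h
        obtain ⟨hw1, hw2⟩ := mem_product.1 hw
        obtain ⟨k, hk, hkw⟩ := mem_image.1 hw1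
        obtain ⟨k', hk', hkw'⟩ := mem_image.1 hw2
        constructor
        · have h3 := h3_ord (s := w.1) (t := w.2) (n := (R ^ 3) ^ 3) (addOrderOf_pos _)
            (addOrderOf_pos _)
            (by have h := hord k hk; rw [hkw] at h; exact h)
            (by have h := hord k' hk'; rw [hkw'] at h; exact h)
          refine h3.trans (le_of_eq ?_)
          rw [← pow_add]
        · refine (card_le_card (sset_sub w.1 w.2)).trans ?_
          refine (card_union_le _ _).trans ?_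
          have h4 := hset k hk
          have h5 := hset k' hk'
          rw [hkw] at h4
          rw [hkw'] at h5
          omega
    exact cov_pt hr hGπ N t h12.1 h12.2
  obtain ⟨d, hd1, hd2, hd3⟩ := hcert (R ^ 3) hr
  obtain ⟨π, hπ1, hπ2⟩ := mix_protocol hr hd1 hd3
    (P := fun x : (∀ i, A i) × V => univ.filter fun i => i ∉ N ∧ p i (x.1 i) = true)
    (Q := fun y : Q × (∀ i, B i) × V => univ.filter fun i => i ∉ N ∧ q i (y.2.1 i) = true)
    hDat (fun x y => f y.1 (fun i => g i (x.1 i) (y.2.1 i)) (x.2 + y.2.2)) (by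
      intro x y
      rw [hζ, ev_coef]
      have h1 : conv N (φ y.1) ((univ.filter fun i => i ∉ N ∧ p i (x.1 i) = true) ∩
          univ.filter fun i => i ∉ N ∧ q i (y.2.1 i) = true)
          (((x.2 + y.2.2, fun i =>
            if i ∈ N ∧ G i (x.1 i) (y.2.1 i) = true then 1 else 0) : V × (ι → ZMod 2)) + 0) =
          φ y.1 (univ.filter fun i => G i (x.1 i) (y.2.1 i) = true) (x.2 + y.2.2) := by
        unfold conv
        rw [add_zero]
        congr 1
        ext i
        by_cases hi : i ∈ N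
        · by_cases hGi : G i (x.1 i) (y.2.1 i) = true
          · simp [hi, hGi]
          · simp [hi, hGi]
        · have h2 := hpq i hi (x.1 i) (y.2.1 i)
          simp only [Finset.mem_union, Finset.mem_sdiff, Finset.mem_inter, Finset.mem_filter,
            Finset.mem_univ, true_and, hi,
            not_false_eq_true, and_true, false_and, or_false, h2, Bool.and_eq_true]
      rw [h1, hφz x y _ (fun i => by simp)]
      by_cases hf : f y.1 (fun i => g i (x.1 i) (y.2.1 i)) (x.2 + y.2.2) = true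
      · rw [hf]; simp
      · rw [Bool.not_eq_true] at hf
        rw [hf]; simp) (le_trans hreal (Nat.le_self_pow (by norm_num) R))
  refine ⟨π, hπ1, ?_⟩
  have h1 : (π.cost : ℝ) ≤ (pF (R ^ 3) d (12 * tt (R ^ 3) * (1 + κ)) : ℝ) := by
    exact_mod_cast hπ2
  exact h1.trans (hnum R d κ hR hd1 hd2)

end Pool.Agent.AGN
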