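import Mathlib
import Pool.Agent.Lib_helper38.AGN.Defs
import Pool.Agent.Lib_helper58.XA.E1g
import Pool.Agent.Lib_helper59.XA.H1
import Pool.Agent.Lib_helper38.AGG.Defs
import Pool.Agent.Lib_helper35.XA.G1
import Pool.Agent.Lib_helper16.XA.G4
import Pool.Agent.Lib_helper58.XA.K2a
import Pool.Agent.Lib_helper16.XA.K2c
import Pool.Agent.Lib_helper67.XA.K5
import Pool.Agent.Lib_helper10.LogRank.Cube
import Pool.Agent.Lib_helper58.XA.Main
import Pool.Agent.Lib_helper10.AndRank.Core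
import Pool.Agent.Lib_helper58.AGG.G1
import Pool.Agent.Lib_helper58.AGN.H3

/-! AGN, block H4: all gadgets, a family of functions -/

set_option autoImplicit false

namespace Pool.Agent.AGN

open Finset Filter Pool.Agent.XA Pool.Agent.AGG Pool.Agent.Lib_helper10.LogRank Pool.Agent.AGN

/-- the rank of a matrix made of rows and columns of another matrix -/
theorem h4_sub {X X' Y Y' : Type} [Fintype X] [Fintype Y] [Fintype X'] [Fintype Y'] (α : X' → X)
    (β : Y' → Y) (M : Matrix X Y ℝ) :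
    (Matrix.of fun (x : X') (y : Y') => M (α x) (β y)).rank ≤ M.rank := by
  classical
  have h1 : (Matrix.of fun (x : X') (y : Y') => M (α x) (β y)) =
      (Matrix.of fun (x' : X') (x : X) => if x = α x' then (1 : ℝ) else 0) * M *
        (Matrix.of fun (y : Y) (y' : Y') => if y = β y' then (1 : ℝ) else 0) := by
    ext x' y'
    rw [Matrix.mul_apply, Finset.sum_eq_single (β y')]
    · rw [Matrix.mul_apply, Finset.sum_eq_single (α x')]
      · simp
      · intro b _ hb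
        simp only [Matrix.of_apply]
        rw [if_neg hb, zero_mul]
      · intro h
        exact absurd (Finset.mem_univ _) h
    · intro b _ hb
      simp only [Matrix.of_apply]
      rw [if_neg hb, mul_zero]
    · intro h
      exact absurd (Finset.mem_univ _) h
  rw [h1]
  exact (Matrix.rank_mul_le_left _ _).trans (Matrix.rank_mul_le_right _ _)

theorem h4_zmod (s t : Bool) :
    decide (((if s then 1 else 0 : ZMod 2) + (if t then 1 else 0 : ZMod 2)) = 1) = (s ^^ t) := by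
  revert s t
  decide

theorem h4_zmod' (s t : ZMod 2) :
    (decide (s = 1) ^^ decide (t = 1)) = decide (s + t = 1) := by
  revert s t
  decide

/-- the rank of the matrix with entries 0 and 1 and the rank of the one with entries -1 and 1 -/
theorem h4_bool {X Y : Type} [Fintype X] [Fintype Y] (g : X → Y → Bool) :
    realRank g ≤ (Matrix.of fun (x : X) (y : Y) => (if g x y then -1 else 1 : ℝ)).rank + 1 := by
  classical
  obtain ⟨B, hB⟩ : ∃ B : Matrix X Y ℝ,
      B = Matrix.of fun (x : X) (y : Y) => (if g x y then -1 else 1 : ℝ) := ⟨_, rfl⟩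
  have h1 : (Matrix.of fun (x : X) (y : Y) => if g x y then (1 : ℝ) else 0) =
      Matrix.vecMulVec (fun _ : X => (1 / 2 : ℝ)) (fun _ : Y => (1 : ℝ)) +
        B * Matrix.diagonal (fun _ : Y => (-(1 / 2) : ℝ)) := by
    ext x y
    rw [hB]
    simp only [Matrix.of_apply, Matrix.add_apply, Matrix.mul_diagonal, Matrix.vecMulVec_apply]
    cases g x y <;> norm_num
  have h2 : realRank g = (Matrix.of fun (x : X) (y : Y) => if g x y then (1 : ℝ) else 0).rank :=
    rfl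
  rw [h2, h1, ← hB]
  refine (h1_rank_add _ _).trans ?_
  have h3 := Matrix.rank_vecMulVec_le (fun _ : X => (1 / 2 : ℝ)) (fun _ : Y => (1 : ℝ))
  have h4 := Matrix.rank_mul_le_left B (Matrix.diagonal (fun _ : Y => (-(1 / 2) : ℝ)))
  omega

/-- all gadgets, without the row and column functions -/
theorem h4_main {ε : ℝ} (hε : 0 < ε) : ∃ C : ℝ, 0 ≤ C ∧ ∀ (ι : Type) [Fintype ι] [DecidableEq ι]
    (A B : ι → Type) [∀ i, Fintype (A i)] [∀ i, Fintype (B i)] (V : Type) [AddCommGroup V]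
    [Fintype V] (Q : Type) [Fintype Q] (g : ∀ i, A i → B i → Bool)
    (f : Q → (ι → Bool) → V → Bool) (κ R : ℕ), 2 ≤ R → (∀ i, DepBoth (g i)) →
    (∀ i, ∃ π : Protocol (A i) (B i), (∀ a b, π.eval a b = g i a b) ∧ π.cost ≤ κ) →
    (Matrix.of fun (x : (∀ i, A i) × V) (y : Q × (∀ i, B i) × V) =>
      (if f y.1 (fun i => g i (x.1 i) (y.2.1 i)) (x.2 + y.2.2) then -1 else 1 : ℝ)).rank ≤ R →
    (realRank fun (x : (∀ i, A i) × V) (y : Q × (∀ i, B i) × V) =>
      f y.1 (fun i => g i (x.1 i) (y.2.1 i)) (x.2 + y.2.2)) ≤ R →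
    ∃ π : Protocol ((∀ i, A i) × V) (Q × (∀ i, B i) × V),
      (∀ x y, π.eval x y = f y.1 (fun i => g i (x.1 i) (y.2.1 i)) (x.2 + y.2.2)) ∧
      (π.cost : ℝ) ≤ C * (R : ℝ) ^ ε * (1 + κ) := by
  classical
  obtain ⟨C, hC, hno⟩ := no_xorN hε
  refine ⟨C, hC, ?_⟩
  intro ι _ _ A B _ _ V _ _ Q _ g f κ R hR hdep hprot hrank hrank2
  -- the exclusive ors
  have hpq : ∀ i, ∃ (p : A i → Bool) (q : B i → Bool), XorLike (g i) →
      (∀ a b, g i a b = (p a ^^ q b)) ∧ (∀ s, ∃ a, p a = s) ∧ ∀ s, ∃ b, q b = s := by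
    intro i
    by_cases hi : XorLike (g i)
    · obtain ⟨p, q, h⟩ := hi
      have hd : DepBoth fun a b => (p a ^^ q b) := by
        have h1 : g i = fun a b => (p a ^^ q b) := funext fun a => funext fun b => h a b
        rw [← h1]
        exact hdep i
      exact ⟨p, q, fun _ => ⟨h, xor_onto hd⟩⟩
    · exact ⟨fun _ => false, fun _ => false, fun h => absurd h hi⟩
  choose p q hpq using hpq
  have hsA : ∀ i, ∃ sa : Bool → A i, XorLike (g i) → ∀ s, p i (sa s) = s := by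
    intro i
    by_cases hi : XorLike (g i)
    · choose sa hsa using (hpq i hi).2.1
      exact ⟨sa, fun _ => hsa⟩
    · obtain ⟨a, _, _, _⟩ := (hdep i).1
      exact ⟨fun _ => a, fun h => absurd h hi⟩
  choose sa hsa using hsA
  have hsB : ∀ i, ∃ sb : Bool → B i, XorLike (g i) → ∀ s, q i (sb s) = s := by
    intro i
    by_cases hi : XorLike (g i)
    · choose sb hsb using (hpq i hi).2.2
      exact ⟨sb, fun _ => hsb⟩
    · obtain ⟨_, b, _, _⟩ := (hdep i).2
      exact ⟨fun _ => b, fun h => absurd h hi⟩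
  choose sb hsb using hsB
  obtain ⟨f', hf'⟩ : ∃ f' : Q → ({i // ¬ XorLike (g i)} → Bool) →
      (({i // XorLike (g i)} → ZMod 2) × V) → Bool,
      f' = fun k z w => f k (fun i => if h : XorLike (g i) then decide (w.1 ⟨i, h⟩ = 1)
        else z ⟨i, h⟩) w.2 := ⟨_, rfl⟩
  -- the sections
  obtain ⟨α, hα⟩ : ∃ α : (∀ i : {i // ¬ XorLike (g i)}, A i) ×
      (({i // XorLike (g i)} → ZMod 2) × V) → (∀ i, A i) × V,
      α = fun x => (fun i => if h : XorLike (g i) then sa i (decide (x.2.1 ⟨i, h⟩ = 1))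
        else x.1 ⟨i, h⟩, x.2.2) := ⟨_, rfl⟩
  obtain ⟨β, hβ⟩ : ∃ β : Q × (∀ i : {i // ¬ XorLike (g i)}, B i) ×
      (({i // XorLike (g i)} → ZMod 2) × V) → Q × (∀ i, B i) × V,
      β = fun x => (x.1, fun i => if h : XorLike (g i) then sb i (decide (x.2.2.1 ⟨i, h⟩ = 1))
        else x.2.1 ⟨i, h⟩, x.2.2.2) := ⟨_, rfl⟩
  have hsec : ∀ x y, f' y.1 (fun i => g i (x.1 i) (y.2.1 i)) (x.2 + y.2.2) =
      f (β y).1 (fun i => g i ((α x).1 i) ((β y).2.1 i)) ((α x).2 + (β y).2.2) := by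
    intro x y
    rw [hf', hα, hβ]
    simp only [Prod.fst_add, Prod.snd_add, Pi.add_apply]
    congr 1
    funext i
    by_cases hi : XorLike (g i)
    · rw [dif_pos hi, dif_pos hi, dif_pos hi, (hpq i hi).1, hsa i hi, hsb i hi, h4_zmod']
    · rw [dif_neg hi, dif_neg hi, dif_neg hi]
  have hrank' : (Matrix.of fun (x : (∀ i : {i // ¬ XorLike (g i)}, A i) ×
      (({i // XorLike (g i)} → ZMod 2) × V)) (y : Q × (∀ i : {i // ¬ XorLike (g i)}, B i) ×
      (({i // XorLike (g i)} → ZMod 2) × V)) =>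
      (if f' y.1 (fun i => g i (x.1 i) (y.2.1 i)) (x.2 + y.2.2) then -1 else 1 : ℝ)).rank ≤
        R := by
    refine le_trans (le_of_eq ?_) ((h4_sub α β _).trans hrank)
    congr 1
    ext x y
    simp only [Matrix.of_apply]
    rw [hsec]
  have hrank2' : (realRank fun (x : (∀ i : {i // ¬ XorLike (g i)}, A i) ×
      (({i // XorLike (g i)} → ZMod 2) × V)) (y : Q × (∀ i : {i // ¬ XorLike (g i)}, B i) ×
      (({i // XorLike (g i)} → ZMod 2) × V)) =>
      f' y.1 (fun i => g i (x.1 i) (y.2.1 i)) (x.2 + y.2.2)) ≤ R := by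
    have h1 := h4_sub α β (Matrix.of fun (x : (∀ i, A i) × V) (y : Q × (∀ i, B i) × V) =>
      if f y.1 (fun i => g i (x.1 i) (y.2.1 i)) (x.2 + y.2.2) then (1 : ℝ) else 0)
    have h2 : (fun (x : (∀ i : {i // ¬ XorLike (g i)}, A i) ×
        (({i // XorLike (g i)} → ZMod 2) × V)) (y : Q × (∀ i : {i // ¬ XorLike (g i)}, B i) ×
        (({i // XorLike (g i)} → ZMod 2) × V)) =>
        f' y.1 (fun i => g i (x.1 i) (y.2.1 i)) (x.2 + y.2.2)) = fun x y =>
        f (β y).1 (fun i => g i ((α x).1 i) ((β y).2.1 i)) ((α x).2 + (β y).2.2) :=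
      funext fun x => funext fun y => hsec x y
    refine le_trans (le_of_eq ?_) (h1.trans hrank2)
    rw [h2]
    rfl
  obtain ⟨π, hπ, hc⟩ := hno {i // ¬ XorLike (g i)} (fun i => A i) (fun i => B i)
    (({i // XorLike (g i)} → ZMod 2) × V) Q (fun i => g i) f' κ R hR (fun i => i.2)
    (fun i => hprot i) hrank' hrank2'
  refine ⟨e1_comap
    (fun x => ((fun i : {i // ¬ XorLike (g i)} => x.1 i),
      (fun i : {i // XorLike (g i)} => if p i (x.1 i) then (1 : ZMod 2) else 0), x.2))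
    (fun y => (y.1, (fun i : {i // ¬ XorLike (g i)} => y.2.1 i),
      (fun i : {i // XorLike (g i)} => if q i (y.2.1 i) then (1 : ZMod 2) else 0), y.2.2)) π,
    ?_, ?_⟩
  · intro x y
    rw [e1_comap_eval, hπ, hf']
    simp only [Prod.fst_add, Prod.snd_add, Pi.add_apply]
    congr 1
    funext i
    by_cases hi : XorLike (g i)
    · rw [dif_pos hi, (hpq i hi).1, h4_zmod]
    · rw [dif_neg hi]
  · rw [e1_comap_cost]
    exact hc

/-! ### H4: all gadgets, a family of functions -/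

theorem fam_final {ε : ℝ} (hε : 0 < ε) : ∃ C : ℝ, 0 ≤ C ∧ ∀ (ι : Type) [Fintype ι]
    [DecidableEq ι] (A B : ι → Type) [∀ i, Fintype (A i)] [∀ i, Fintype (B i)] (V : Type)
    [AddCommGroup V] [Fintype V] (Q : Type) [Fintype Q] (g : ∀ i, A i → B i → Bool)
    (f : Q → (ι → Bool) → V → Bool) (u : (∀ i, A i) × V → Bool)
    (v : Q × (∀ i, B i) × V → Bool) (κ : ℕ), (∀ i, DepBoth (g i)) →
    (∀ i, ∃ π : Protocol (A i) (B i), (∀ a b, π.eval a b = g i a b) ∧ π.cost ≤ κ) →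
    ∃ π : Protocol ((∀ i, A i) × V) (Q × (∀ i, B i) × V),
      (∀ x y, π.eval x y =
        (f y.1 (fun i => g i (x.1 i) (y.2.1 i)) (x.2 + y.2.2) ^^ u x ^^ v y)) ∧
      (π.cost : ℝ) ≤ C * (realRank fun (x : (∀ i, A i) × V) (y : Q × (∀ i, B i) × V) =>
        (f y.1 (fun i => g i (x.1 i) (y.2.1 i)) (x.2 + y.2.2) ^^ u x ^^ v y) : ℝ) ^ ε *
          (1 + κ) := by
  classical
  obtain ⟨C0, hC0, hmain⟩ := h4_main hε
  refine ⟨C0 * 3 ^ ε + 2, by positivity, ?_⟩
  intro ι _ _ A B _ _ V _ _ Q _ g f u v κ hdep hprot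
  obtain ⟨ρ, hρ⟩ : ∃ ρ : ℕ, ρ = realRank (fun (x : (∀ i, A i) × V)
      (y : Q × (∀ i, B i) × V) =>
      (f y.1 (fun i => g i (x.1 i) (y.2.1 i)) (x.2 + y.2.2) ^^ u x ^^ v y)) := ⟨_, rfl⟩
  rw [← hρ]
  rcases Nat.eq_zero_or_pos ρ with h0 | h0
  · -- rank zero
    have hB : (Matrix.of fun (x : (∀ i, A i) × V) (y : Q × (∀ i, B i) × V) =>
        if (f y.1 (fun i => g i (x.1 i) (y.2.1 i)) (x.2 + y.2.2) ^^ u x ^^ v y) then (1 : ℝ)
          else 0) = 0 := by
      apply h1_rank_zero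
      rw [h0] at hρ
      exact hρ.symm
    refine ⟨Protocol.leaf false, fun x y => ?_, ?_⟩
    · have h1 := congrFun (congrFun hB x) y
      simp only [Matrix.of_apply, Matrix.zero_apply] at h1
      simp only [Protocol.eval]
      by_contra hc
      have h2 : (f y.1 (fun i => g i (x.1 i) (y.2.1 i)) (x.2 + y.2.2) ^^ u x ^^ v y) = true := by
        cases h3 : (f y.1 (fun i => g i (x.1 i) (y.2.1 i)) (x.2 + y.2.2) ^^ u x ^^ v y)
        · exact absurd h3.symm hc
        · rfl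
      rw [if_pos h2] at h1
      norm_num at h1
    · simp only [Protocol.cost, Nat.cast_zero]
      positivity
  have hrank : (Matrix.of fun (x : (∀ i, A i) × V) (y : Q × (∀ i, B i) × V) =>
      (if f y.1 (fun i => g i (x.1 i) (y.2.1 i)) (x.2 + y.2.2) then -1 else 1 : ℝ)).rank ≤
        ρ + 1 := by
    have h1 := h1_rank (fun (y : Q × (∀ i, B i) × V) (x : (∀ i, A i) × V) =>
      f y.1 (fun i => g i (x.1 i) (y.2.1 i)) (x.2 + y.2.2)) u v
    refine h1.trans ?_
    rw [← hρ]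
  have hrank2 : (realRank fun (x : (∀ i, A i) × V) (y : Q × (∀ i, B i) × V) =>
      f y.1 (fun i => g i (x.1 i) (y.2.1 i)) (x.2 + y.2.2)) ≤ ρ + 2 := by
    have h1 := h4_bool (fun (x : (∀ i, A i) × V) (y : Q × (∀ i, B i) × V) =>
      f y.1 (fun i => g i (x.1 i) (y.2.1 i)) (x.2 + y.2.2))
    omega
  obtain ⟨π, hπ, hc⟩ := hmain ι A B V Q g f κ (3 * ρ) (by omega) hdep hprot (by omega)
    (by omega)
  obtain ⟨π', hπ', hc'⟩ := h1_xor π u v
  refine ⟨π', fun x y => ?_, ?_⟩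
  · rw [hπ' x y, hπ x y]
  · rw [hc']
    have hρ1 : (1 : ℝ) ≤ ρ := by exact_mod_cast h0
    have h2 : ((3 * ρ : ℕ) : ℝ) ^ ε = 3 ^ ε * (ρ : ℝ) ^ ε := by
      push_cast
      exact Real.mul_rpow (by norm_num) (by positivity)
    have h3 : (1 : ℝ) ≤ (ρ : ℝ) ^ ε := Real.one_le_rpow hρ1 hε.le
    rw [h2] at hc
    obtain ⟨K, hK⟩ : ∃ K : ℝ, K = (1 : ℝ) + κ := ⟨_, rfl⟩
    have h4 : (1 : ℝ) ≤ K := by
      rw [hK]
      have h7 : (0 : ℝ) ≤ κ := Nat.cast_nonneg _
      linarith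
    rw [← hK] at hc ⊢
    push_cast
    have h8 : (1 : ℝ) ≤ (ρ : ℝ) ^ ε * K := by nlinarith
    calc (π.cost : ℝ) + 2 ≤ C0 * (3 ^ ε * (ρ : ℝ) ^ ε) * K + 2 * ((ρ : ℝ) ^ ε * K) := by
          linarith
      _ = (C0 * 3 ^ ε + 2) * (ρ : ℝ) ^ ε * K := by ring

end Pool.Agent.AGN
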