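import Mathlib
import Pool.Agent.Lib_helper38.AGN.Defs
import Pool.Agent.Lib_helper38.AGG.Defs
import Pool.Agent.Lib_helper58.XA.K2a
import Pool.Agent.Lib_helper16.XA.K2c
import Pool.Agent.Lib_helper67.XA.K5
import Pool.Agent.Lib_helper10.LogRank.Cube
import Pool.Agent.Lib_helper58.XA.Main
import Pool.Agent.Lib_helper10.AndRank.Core
import Pool.Agent.Lib_helper35.XA.G1
import Pool.Agent.Lib_helper16.XA.G4
import Pool.Agent.Lib_helper59.XA.H1
import Pool.Agent.Lib_helper10.LogRank.Proto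
import Pool.Agent.Lib_helper58.XA.E1g
import Pool.Agent.Lib_helper58.XA.H2
import Pool.Agent.Lib_helper58.AGN.H4

set_option autoImplicit false

/-! AGN, H5: gadgets and an action of an abelian group -/

namespace Pool.Agent.AGN

open Finset Filter Pool.Agent.XA Pool.Agent.AGG Pool.Agent.AGN Pool.Agent.Lib_helper10.LogRank

/-- the rank of a matrix made of columns of another matrix -/
theorem h5_col {X Y Y' : Type} [Fintype Y] [Fintype Y'] (e : Y' → Y)
    (G : X → Y → Bool) : realRank (fun (x : X) (y : Y') => G x (e y)) ≤ realRank G := by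
  classical
  unfold realRank
  have h1 : (Matrix.of fun (x : X) (y : Y') => if G x (e y) then (1 : ℝ) else 0) =
      (Matrix.of fun (x : X) (y : Y) => if G x y then (1 : ℝ) else 0) *
        (Matrix.of fun (y : Y) (y' : Y') => if y = e y' then (1 : ℝ) else 0) := by
    ext x y'
    rw [Matrix.mul_apply]
    simp only [Matrix.of_apply]
    rw [Finset.sum_eq_single (e y')]
    · simp
    · intro b _ hb
      rw [if_neg hb, mul_zero]
    · intro h
      exact absurd (Finset.mem_univ _) h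
  rw [h1]
  exact Matrix.rank_mul_le_left _ _

theorem h5_rank {X X' Y Y' : Type} [Fintype X] [Fintype Y] [Fintype Y'] (f : X' → X) (e : Y' → Y)
    (G : X → Y → Bool) : realRank (fun (x : X') (y : Y') => G (f x) (e y)) ≤ realRank G :=
  (h2_rank f (fun (x : X) (y : Y') => G x (e y))).trans (h5_col e G)

theorem act_final {ε : ℝ} (hε : 0 < ε) : ∃ C : ℝ, ∀ (ι : Type) [Fintype ι] [DecidableEq ι]
    (A B : ι → Type) [∀ i, Fintype (A i)] [∀ i, Fintype (B i)] (V : Type) [CommGroup V]
    [Finite V] (X Y : Type) [Fintype X] [Fintype Y] [MulAction V X] [MulAction V Y]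
    (g : ∀ i, A i → B i → Bool) (f : (ι → Bool) → X → Y → Bool)
    (u : (∀ i, A i) × X → Bool) (v : (∀ i, B i) × Y → Bool) (κ : ℕ),
    (∀ i, DepBoth (g i)) →
    (∀ i, ∃ π : Protocol (A i) (B i), (∀ a b, π.eval a b = g i a b) ∧ π.cost ≤ κ) →
    (∀ (b : ι → Bool) (w : V) (x : X) (y : Y), f b (w • x) (w • y) = f b x y) →
    ∃ π : Protocol ((∀ i, A i) × X) ((∀ i, B i) × Y),
      (∀ x y, π.eval x y = (f (fun i => g i (x.1 i) (y.1 i)) x.2 y.2 ^^ u x ^^ v y)) ∧
      (π.cost : ℝ) ≤ Nat.clog 2 (Nat.card (MulAction.orbitRel.Quotient V X)) +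
        C * (realRank fun (x : (∀ i, A i) × X) (y : (∀ i, B i) × Y) =>
          (f (fun i => g i (x.1 i) (y.1 i)) x.2 y.2 ^^ u x ^^ v y) : ℝ) ^ ε * (1 + κ) := by
  classical
  obtain ⟨C, hC, hfam⟩ := fam_final hε
  refine ⟨C, ?_⟩
  intro ι _ _ A B _ _ V _ _ X Y _ _ _ _ g f u v κ hdep hπ hf
  have : Fintype V := Fintype.ofFinite V
  have : Fintype (Additive V) := Fintype.ofFinite _
  have : Fintype (MulAction.orbitRel.Quotient V X) := Fintype.ofFinite _
  have : Fintype (MulAction.orbitRel.Quotient V Y) := Fintype.ofFinite _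
  obtain ⟨G, hG⟩ : ∃ G : (∀ i, A i) × X → (∀ i, B i) × Y → Bool, ∀ x y, G x y =
      (f (fun i => g i (x.1 i) (y.1 i)) x.2 y.2 ^^ u x ^^ v y) := ⟨_, fun _ _ => rfl⟩
  obtain ⟨ρ, hρ⟩ : ∃ ρ : ℕ, ρ = realRank G := ⟨_, rfl⟩
  have hG' : (fun (x : (∀ i, A i) × X) (y : (∀ i, B i) × Y) =>
      (f (fun i => g i (x.1 i) (y.1 i)) x.2 y.2 ^^ u x ^^ v y)) = G := by
    funext x y
    exact (hG x y).symm
  rw [hG', ← hρ]
  obtain ⟨c, hc⟩ : ∃ c : ℕ, c = ⌊C * (ρ : ℝ) ^ ε * (1 + κ)⌋₊ := ⟨_, rfl⟩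
  -- representatives of the orbits on `Y`
  obtain ⟨yr, hyr⟩ : ∃ yr : MulAction.orbitRel.Quotient V Y → Y, ∀ q,
      (Quotient.mk (MulAction.orbitRel V Y) (yr q) : MulAction.orbitRel.Quotient V Y) = q := by
    have h1 : ∀ q : MulAction.orbitRel.Quotient V Y, ∃ y : Y,
        (Quotient.mk (MulAction.orbitRel V Y) y : MulAction.orbitRel.Quotient V Y) = q :=
      fun q => Quotient.exists_rep q
    choose yr hyr using h1
    exact ⟨yr, hyr⟩
  have hbl : ∀ y : Y, ∃ b : V, b • yr (Quotient.mk (MulAction.orbitRel V Y) y) = y := by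
    intro y
    have h1 : (MulAction.orbitRel V Y) y (yr (Quotient.mk (MulAction.orbitRel V Y) y)) :=
      Quotient.exact (hyr _).symm
    rw [MulAction.orbitRel_apply] at h1
    obtain ⟨a, ha⟩ := h1
    exact ⟨a, ha⟩
  choose bl hbl using hbl
  have hmain : CCOn (fun _ _ => True) G
      (c + Nat.clog 2 (Fintype.card (MulAction.orbitRel.Quotient V X))) := by
    refine sendA (fun x : (∀ i, A i) × X => (Quotient.mk (MulAction.orbitRel V X) x.2 :
      MulAction.orbitRel.Quotient V X)) (Nat.le_pow_clog (by norm_num) _) fun ω => ?_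
    obtain ⟨x0, hx0⟩ : ∃ x0 : X, (Quotient.mk (MulAction.orbitRel V X) x0 :
        MulAction.orbitRel.Quotient V X) = ω := Quotient.exists_rep ω
    have hrep : ∀ x : X, ∃ a : V, (Quotient.mk (MulAction.orbitRel V X) x :
        MulAction.orbitRel.Quotient V X) = ω → a • x0 = x := by
      intro x
      by_cases hx : (Quotient.mk (MulAction.orbitRel V X) x :
        MulAction.orbitRel.Quotient V X) = ω
      · have h1 : (MulAction.orbitRel V X) x x0 := Quotient.exact (hx.trans hx0.symm)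
        rw [MulAction.orbitRel_apply] at h1
        obtain ⟨a, ha⟩ := h1
        exact ⟨a, fun _ => ha⟩
      · exact ⟨1, fun h => absurd h hx⟩
    choose al hal using hrep
    obtain ⟨π, hπ1, hπ2⟩ := hfam ι A B (Additive V) (MulAction.orbitRel.Quotient V Y) g
      (fun q b s => f b x0 (Additive.toMul s • yr q))
      (fun x => u (x.1, (Additive.toMul x.2)⁻¹ • x0))
      (fun y => v (y.2.1, Additive.toMul y.2.2 • yr y.1)) κ hdep hπ
    -- the matrix of the family is a matrix of rows and columns of `G`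
    have hfG : (fun (x : (∀ i, A i) × Additive V)
        (y : MulAction.orbitRel.Quotient V Y × (∀ i, B i) × Additive V) =>
        (f (fun i => g i (x.1 i) (y.2.1 i)) x0 (Additive.toMul (x.2 + y.2.2) • yr y.1) ^^
          u (x.1, (Additive.toMul x.2)⁻¹ • x0) ^^
          v (y.2.1, Additive.toMul y.2.2 • yr y.1))) =
        fun x y => G (x.1, (Additive.toMul x.2)⁻¹ • x0)
          (y.2.1, Additive.toMul y.2.2 • yr y.1) := by
      funext x y
      rw [hG]
      have h1 := hf (fun i => g i (x.1 i) (y.2.1 i)) (Additive.toMul x.2)⁻¹ x0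
        (Additive.toMul (x.2 + y.2.2) • yr y.1)
      have h2 : (Additive.toMul x.2)⁻¹ • (Additive.toMul (x.2 + y.2.2) • yr y.1) =
          Additive.toMul y.2.2 • yr y.1 := by
        rw [smul_smul, toMul_add, inv_mul_cancel_left]
      rw [h2] at h1
      simp only
      rw [h1]
    have hr : realRank (fun (x : (∀ i, A i) × Additive V)
        (y : MulAction.orbitRel.Quotient V Y × (∀ i, B i) × Additive V) =>
        (f (fun i => g i (x.1 i) (y.2.1 i)) x0 (Additive.toMul (x.2 + y.2.2) • yr y.1) ^^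
          u (x.1, (Additive.toMul x.2)⁻¹ • x0) ^^
          v (y.2.1, Additive.toMul y.2.2 • yr y.1))) ≤ ρ := by
      rw [hfG, hρ]
      exact h5_rank (fun x : (∀ i, A i) × Additive V =>
          ((x.1, (Additive.toMul x.2)⁻¹ • x0) : (∀ i, A i) × X))
        (fun y : MulAction.orbitRel.Quotient V Y × (∀ i, B i) × Additive V =>
          ((y.2.1, Additive.toMul y.2.2 • yr y.1) : (∀ i, B i) × Y)) G
    refine ⟨e1_comap (fun x : (∀ i, A i) × X => (x.1, Additive.ofMul (al x.2)⁻¹))
      (fun y : (∀ i, B i) × Y => (Quotient.mk (MulAction.orbitRel V Y) y.2, y.1,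
        Additive.ofMul (bl y.2))) π, ?_, ?_⟩
    · rw [e1_comap_cost, hc]
      apply Nat.le_floor
      refine hπ2.trans ?_
      have h1 : (0 : ℝ) ≤ 1 + κ := by positivity
      refine mul_le_mul_of_nonneg_right (mul_le_mul_of_nonneg_left ?_ hC) h1
      apply Real.rpow_le_rpow (Nat.cast_nonneg _) _ hε.le
      exact_mod_cast hr
    · rintro x y ⟨-, hx⟩
      rw [e1_comap_eval, hπ1, hG]
      have h1 : al x.2 • x0 = x.2 := hal x.2 hx
      have h2 : bl y.2 • yr (Quotient.mk (MulAction.orbitRel V Y) y.2) = y.2 := hbl y.2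
      have h3 : Additive.toMul (Additive.ofMul (al x.2)⁻¹ + Additive.ofMul (bl y.2)) •
          yr (Quotient.mk (MulAction.orbitRel V Y) y.2) = (al x.2)⁻¹ • y.2 := by
        rw [toMul_add, toMul_ofMul, toMul_ofMul, mul_smul, h2]
      have h4 : f (fun i => g i (x.1 i) (y.1 i)) x0 ((al x.2)⁻¹ • y.2) =
          f (fun i => g i (x.1 i) (y.1 i)) x.2 y.2 := by
        have h5 := hf (fun i => g i (x.1 i) (y.1 i)) (al x.2) x0 ((al x.2)⁻¹ • y.2)
        rw [smul_inv_smul, h1] at h5
        exact h5.symm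
      simp only [toMul_ofMul, inv_inv]
      rw [h3, h4, h1, h2]
  obtain ⟨π, h1, h2⟩ := hmain
  refine ⟨π, fun x y => (h2 x y trivial).trans (hG x y), ?_⟩
  have h3 : (π.cost : ℝ) ≤ ((c + Nat.clog 2 (Fintype.card (MulAction.orbitRel.Quotient V X)) :
      ℕ) : ℝ) := by exact_mod_cast h1
  have h4 : (c : ℝ) ≤ C * (ρ : ℝ) ^ ε * (1 + κ) := by
    rw [hc]
    exact Nat.floor_le (by positivity)
  rw [Nat.card_eq_fintype_card]
  push_cast at h3
  linarith

end Pool.Agent.AGN
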