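import Mathlib
import Pool.Agent.Lib_helper38.AGN.Defs

set_option autoImplicit false

/-! AGN, block K4: tuples with few labels -/

namespace Pool.Agent.AGN

open Finset Filter Pool.Agent.XA Pool.Agent.AGG Pool.Agent.AGN Pool.Agent.Lib_helper10.LogRank

/-- the labels after adding one entry -/
theorem k4_image {Γ L : Type} [DecidableEq L] (lab : Γ → L) {n : ℕ} (a : Γ) (c : Fin n → Γ) :
    (univ.image fun j : Fin (n + 1) => lab ((Fin.cons a c : Fin (n + 1) → Γ) j)) =
      insert (lab a) (univ.image fun j => lab (c j)) := by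
  ext l
  simp only [Finset.mem_image, Finset.mem_univ, true_and, Finset.mem_insert]
  constructor
  · rintro ⟨j, hj⟩
    refine Fin.cases ?_ (fun i => ?_) j (motive := fun j => lab ((Fin.cons a c :
      Fin (n + 1) → Γ) j) = l → (l = lab a ∨ ∃ i, lab (c i) = l)) hj
    · intro h
      left
      rw [← h]
      rfl
    · intro h
      right
      exact ⟨i, h⟩
  · rintro (h | ⟨i, hi⟩)
    · exact ⟨0, by rw [h]; rfl⟩
    · exact ⟨i.succ, hi⟩

/-- one step of the count -/
theorem k4_step {Γ L : Type} [Fintype Γ] [DecidableEq L] {w : Γ → ℝ} (hw : ∀ c, 0 ≤ w c)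
    (lab : Γ → L) {D : ℕ} (hD : 1 ≤ D)
    (hl : ∀ l, ∑ c, (if lab c = l then w c else 0) ≤ (∑ c, w c) / (16 * D))
    {n : ℕ} (c : Fin n → Γ) (P : ℝ) (hP : 0 ≤ P) :
    ∑ a, (if (insert (lab a) (univ.image fun j => lab (c j))).card < D then
      (16 : ℝ) ^ (n + 1 - (insert (lab a) (univ.image fun j => lab (c j))).card) * (w a * P)
        else 0) ≤
      (if (univ.image fun j => lab (c j)).card < D then
        (16 : ℝ) ^ (n - (univ.image fun j => lab (c j)).card) * P else 0) *
        (2 * ∑ c, w c) := by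
  set S : Finset L := univ.image fun j => lab (c j) with hS
  have hSn : S.card ≤ n := by
    rw [hS]
    refine Finset.card_image_le.trans ?_
    rw [Finset.card_univ, Fintype.card_fin]
  have hΩ : 0 ≤ ∑ c, w c := Finset.sum_nonneg fun c _ => hw c
  by_cases hc : S.card < D
  · rw [if_pos hc]
    have h1 : ∀ a, (if (insert (lab a) S).card < D then
        (16 : ℝ) ^ (n + 1 - (insert (lab a) S).card) * (w a * P) else 0) ≤
        (16 : ℝ) ^ (n - S.card) * P * w a +
          16 * (16 : ℝ) ^ (n - S.card) * P * ∑ l ∈ S, (if lab a = l then w a else 0) := by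
      intro a
      have h0 : 0 ≤ (16 : ℝ) ^ (n - S.card) := by positivity
      have h2 : 0 ≤ ∑ l ∈ S, (if lab a = l then w a else 0) := by
        apply Finset.sum_nonneg
        intro l _
        split_ifs
        · exact hw a
        · exact le_refl _
      by_cases ha : lab a ∈ S
      · rw [Finset.insert_eq_of_mem ha, if_pos hc]
        have h3 : ∑ l ∈ S, (if lab a = l then w a else 0) = w a := by
          rw [Finset.sum_ite_eq, if_pos ha]
        rw [h3]
        have h4 : n + 1 - S.card = (n - S.card) + 1 := by omega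
        rw [h4, pow_succ]
        have h5 : 0 ≤ (16 : ℝ) ^ (n - S.card) * P * w a :=
          mul_nonneg (mul_nonneg h0 hP) (hw a)
        nlinarith
      · have h3 : (if (insert (lab a) S).card < D then
            (16 : ℝ) ^ (n + 1 - (insert (lab a) S).card) * (w a * P) else 0) ≤
            (16 : ℝ) ^ (n - S.card) * P * w a := by
          rw [Finset.card_insert_of_notMem ha]
          have h4 : n + 1 - (S.card + 1) = n - S.card := by omega
          rw [h4]
          split_ifs
          · apply le_of_eq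
            ring
          · exact mul_nonneg (mul_nonneg h0 hP) (hw a)
        have h5 : 0 ≤ 16 * (16 : ℝ) ^ (n - S.card) * P *
            ∑ l ∈ S, (if lab a = l then w a else 0) :=
          mul_nonneg (mul_nonneg (by positivity) hP) h2
        linarith
    refine (Finset.sum_le_sum fun a _ => h1 a).trans ?_
    rw [Finset.sum_add_distrib, ← Finset.mul_sum, ← Finset.mul_sum, Finset.sum_comm]
    have h6 : ∑ l ∈ S, ∑ a, (if lab a = l then w a else 0) ≤ (∑ c, w c) / 16 := by
      calc ∑ l ∈ S, ∑ a, (if lab a = l then w a else 0)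
          ≤ ∑ _l ∈ S, (∑ c, w c) / (16 * D) := Finset.sum_le_sum fun l _ => hl l
        _ = S.card * ((∑ c, w c) / (16 * D)) := by rw [Finset.sum_const, nsmul_eq_mul]
        _ ≤ D * ((∑ c, w c) / (16 * D)) := by
            apply mul_le_mul_of_nonneg_right
            · exact_mod_cast hc.le
            · positivity
        _ = (∑ c, w c) / 16 := by
            have : (D : ℝ) ≠ 0 := by
              have : 0 < D := hD
              positivity
            field_simp
    have h7 : 0 ≤ 16 * (16 : ℝ) ^ (n - S.card) * P := mul_nonneg (by positivity) hP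
    have h8 := mul_le_mul_of_nonneg_left h6 h7
    nlinarith
  · rw [if_neg hc, zero_mul]
    apply le_of_eq
    apply Finset.sum_eq_zero
    intro a _
    rw [if_neg]
    have h1 : S.card ≤ (insert (lab a) S).card := Finset.card_le_card (Finset.subset_insert _ _)
    omega

/-- the count with the weight 16 for every repetition -/
theorem k4_count {Γ L : Type} [Fintype Γ] [DecidableEq L] {w : Γ → ℝ} (hw : ∀ c, 0 ≤ w c)
    (lab : Γ → L) {D : ℕ} (hD : 1 ≤ D)
    (hl : ∀ l, ∑ c, (if lab c = l then w c else 0) ≤ (∑ c, w c) / (16 * D)) (n : ℕ) :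
    ∑ c : Fin n → Γ, (if (univ.image fun j => lab (c j)).card < D then
      (16 : ℝ) ^ (n - (univ.image fun j => lab (c j)).card) * ∏ j, w (c j) else 0) ≤
      (2 * ∑ c, w c) ^ n := by
  have hΩ : 0 ≤ ∑ c, w c := Finset.sum_nonneg fun c _ => hw c
  induction n with
  | zero =>
    rw [pow_zero]
    have h1 : ∀ c : Fin 0 → Γ, (if (univ.image fun j => lab (c j)).card < D then
        (16 : ℝ) ^ (0 - (univ.image fun j => lab (c j)).card) * ∏ j, w (c j) else 0) ≤ 1 := by
      intro c
      split_ifs
      · simp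
      · norm_num
    refine (Finset.sum_le_sum fun c _ => h1 c).trans ?_
    rw [Finset.sum_const, Finset.card_univ]
    simp
  | succ n ih =>
    have h1 : ∑ c : Fin (n + 1) → Γ, (if (univ.image fun j => lab (c j)).card < D then
        (16 : ℝ) ^ (n + 1 - (univ.image fun j => lab (c j)).card) * ∏ j, w (c j) else 0) =
        ∑ c : Fin n → Γ, ∑ a, (if (insert (lab a) (univ.image fun j => lab (c j))).card < D then
          (16 : ℝ) ^ (n + 1 - (insert (lab a) (univ.image fun j => lab (c j))).card) *
            (w a * ∏ j, w (c j)) else 0) := by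
      rw [← (Fin.consEquiv fun _ : Fin (n + 1) => Γ).sum_comp, Fintype.sum_prod_type,
        Finset.sum_comm]
      apply Finset.sum_congr rfl
      intro c _
      apply Finset.sum_congr rfl
      intro a _
      have e1 : ((Fin.consEquiv fun _ : Fin (n + 1) => Γ) (a, c)) =
          (Fin.cons a c : Fin (n + 1) → Γ) := rfl
      rw [e1, k4_image, Fin.prod_univ_succ]
      rfl
    rw [h1]
    refine (Finset.sum_le_sum fun c _ => k4_step hw lab hD hl c (∏ j, w (c j))
      (Finset.prod_nonneg fun j _ => hw _)).trans ?_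
    rw [← Finset.sum_mul, pow_succ]
    exact mul_le_mul_of_nonneg_right ih (by linarith)

theorem distinct_bound {Γ L : Type} [Fintype Γ] [DecidableEq L] {w : Γ → ℝ} (hw : ∀ c, 0 ≤ w c)
    (lab : Γ → L) {D : ℕ} (hD : 1 ≤ D)
    (hl : ∀ l, ∑ c, (if lab c = l then w c else 0) ≤ (∑ c, w c) / (16 * D)) :
    ∑ c : Fin (2 * D) → Γ, (if (univ.image fun j => lab (c j)).card < D then ∏ j, w (c j) else 0) ≤
      (1 / 4) ^ (D + 2) * (∑ c, w c) ^ (2 * D) := by
  have h1 := k4_count hw lab hD hl (2 * D)
  have h2 : ∑ c : Fin (2 * D) → Γ,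
      (if (univ.image fun j => lab (c j)).card < D then ∏ j, w (c j) else 0) ≤
      (1 / 16) ^ (D + 1) * ∑ c : Fin (2 * D) → Γ,
        (if (univ.image fun j => lab (c j)).card < D then
          (16 : ℝ) ^ (2 * D - (univ.image fun j => lab (c j)).card) * ∏ j, w (c j) else 0) := by
    rw [Finset.mul_sum]
    apply Finset.sum_le_sum
    intro c _
    have hP : 0 ≤ ∏ j, w (c j) := Finset.prod_nonneg fun j _ => hw _
    by_cases hc : (univ.image fun j => lab (c j)).card < D
    · rw [if_pos hc, if_pos hc, ← mul_assoc]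
      have h3 : (1 : ℝ) ≤ (1 / 16) ^ (D + 1) *
          16 ^ (2 * D - (univ.image fun j => lab (c j)).card) := by
        obtain ⟨e, he⟩ : ∃ e, 2 * D - (univ.image fun j => lab (c j)).card = (D + 1) + e :=
          ⟨2 * D - (univ.image fun j => lab (c j)).card - (D + 1), by omega⟩
        rw [he, pow_add (16 : ℝ), ← mul_assoc, ← mul_pow]
        norm_num
        apply one_le_pow₀
        norm_num
      calc ∏ j, w (c j) = 1 * ∏ j, w (c j) := by rw [one_mul]
        _ ≤ _ := mul_le_mul_of_nonneg_right h3 hP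
    · rw [if_neg hc, if_neg hc, mul_zero]
  refine h2.trans ?_
  refine (mul_le_mul_of_nonneg_left h1 (by positivity)).trans (le_of_eq ?_)
  have h5 : (1 / 16 : ℝ) ^ (D + 1) * (2 * ∑ c, w c) ^ (2 * D) =
      ((1 / 16 : ℝ) ^ (D + 1) * 2 ^ (2 * D)) * (∑ c, w c) ^ (2 * D) := by
    rw [mul_pow]
    ring
  rw [h5]
  congr 1
  have h6 : (1 / 16 : ℝ) = (1 / 4) ^ 2 := by norm_num
  have h7 : (2 : ℝ) ^ (2 * D) = 4 ^ D := by
    rw [pow_mul]
    norm_num
  rw [h6, h7, ← pow_mul]
  have h8 : 2 * (D + 1) = (D + 2) + D := by ring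
  rw [h8, pow_add, mul_assoc, ← mul_pow]
  norm_num

end Pool.Agent.AGN
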