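import Mathlib
import Pool.Agent.Lib_helper38.AGN.Defs
import Pool.Agent.Lib_helper38.AGG.Defs
import Pool.Agent.Lib_helper58.XA.K2a
import Pool.Agent.Lib_helper16.XA.K2c
import Pool.Agent.Lib_helper67.XA.K5
import Pool.Agent.Lib_helper10.LogRank.Cube
import Pool.Agent.Lib_helper58.XA.Main
import Pool.Agent.Lib_helper58.AGG.B1
import Pool.Agent.Lib_helper58.AGG.B3
import Pool.Agent.Lib_helper58.AGG.D5
import Pool.Agent.Lib_helper58.AGN.K4

set_option autoImplicit false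

/-! AGN, block K5: v_stepN -/

namespace Pool.Agent.AGN

open Finset Filter Pool.Agent.XA Pool.Agent.AGG Pool.Agent.AGN Pool.Agent.Lib_helper10.LogRank

variable {ι : Type} [Fintype ι] [DecidableEq ι] {V : Type} [AddCommGroup V] [Fintype V]
  [DecidableEq V]

open Classical in
/-- the weights -/
noncomputable def k5_w {N : ℕ} (C : Finset (Fin N × Finset (AddChar V ℂ))) (H : Finset (Fin N))
    (W : Finset (AddChar V ℂ)) (c : Fin N × Finset (AddChar V ℂ)) : ℝ :=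
  if c ∈ C ∧ c.1 ∉ H then om W c.2 else 0

theorem k5_w_nonneg {N : ℕ} (C : Finset (Fin N × Finset (AddChar V ℂ))) (H : Finset (Fin N))
    (W : Finset (AddChar V ℂ)) (c : Fin N × Finset (AddChar V ℂ)) : 0 ≤ k5_w C H W c := by
  unfold k5_w
  split_ifs
  · exact om_nonneg _ _
  · exact le_rfl

theorem k5_w_ne {N : ℕ} {C : Finset (Fin N × Finset (AddChar V ℂ))} {H : Finset (Fin N)}
    {W : Finset (AddChar V ℂ)} {c : Fin N × Finset (AddChar V ℂ)} (h : k5_w C H W c ≠ 0) :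
    c ∈ C := by
  unfold k5_w at h
  split_ifs at h with h1
  · exact h1.1
  · exact absurd rfl h

theorem k5_sum {N : ℕ} (C : Finset (Fin N × Finset (AddChar V ℂ))) (H : Finset (Fin N))
    (W : Finset (AddChar V ℂ)) : ∑ c, k5_w C H W c = OmN C H W := by
  classical
  unfold k5_w OmN
  rw [← Finset.sum_filter]
  apply Finset.sum_congr
  · ext c
    simp only [Finset.mem_filter, Finset.mem_univ, true_and]
  · intro c _
    rfl

open Classical in
theorem k5_sumi {N : ℕ} (C : Finset (Fin N × Finset (AddChar V ℂ))) (H : Finset (Fin N))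
    (W : Finset (AddChar V ℂ)) (j : Fin N) :
    ∑ c, (if c.1 = j then k5_w C H W c else 0) =
      ∑ c ∈ C.filter (fun c => c.1 ∉ H ∧ c.1 = j), om W c.2 := by
  have h1 : ∀ c : Fin N × Finset (AddChar V ℂ), (if c.1 = j then k5_w C H W c else 0) =
      if c ∈ C.filter (fun c => c.1 ∉ H ∧ c.1 = j) then om W c.2 else 0 := by
    intro c
    unfold k5_w
    by_cases h1 : c.1 = j <;> by_cases h2 : c ∈ C <;> by_cases h3 : c.1 ∉ H <;>
      simp [h1, h2, h3]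
  rw [Finset.sum_congr rfl fun c _ => h1 c, ← Finset.sum_filter]
  apply Finset.sum_congr
  · ext c
    simp
  · intro c _
    rfl

open Classical in
/-- a tuple with a common point has few labels -/
theorem k5_tuples {N D : ℕ} (hD : 1 ≤ D) {C : Finset (Fin N × Finset (AddChar V ℂ))}
    (hlab : ∀ ζ, (univ.filter fun j => ∃ c ∈ C, c.1 = j ∧ ζ ∈ c.2).card < D)
    {H : Finset (Fin N)} {W : Finset (AddChar V ℂ)}
    (hpop : ∀ j, ∑ c ∈ C.filter (fun c => c.1 ∉ H ∧ c.1 = j), om W c.2 ≤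
      OmN C H W / (16 * D)) :
    ∑ c : Fin (2 * D) → Fin N × Finset (AddChar V ℂ),
      (if ∃ ζ ∈ W, ∀ j, ζ ∈ (c j).2 then ∏ j, k5_w C H W (c j) else 0) ≤
      (1 / 4) ^ (D + 2) * OmN C H W ^ (2 * D) := by
  have hw : ∀ c, 0 ≤ k5_w C H W c := k5_w_nonneg C H W
  have h1 := distinct_bound (w := k5_w C H W) hw
    (fun c : Fin N × Finset (AddChar V ℂ) => c.1) hD (by
      intro j
      rw [k5_sum]
      exact (le_of_eq (k5_sumi C H W j)).trans (hpop j))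
  rw [k5_sum] at h1
  refine le_trans (Finset.sum_le_sum fun c _ => ?_) h1
  by_cases h2 : (univ.image fun j => (c j).1).card < D
  · rw [if_pos h2]
    split_ifs
    · exact le_rfl
    · exact Finset.prod_nonneg fun j _ => hw (c j)
  · rw [if_neg h2]
    split_ifs with h3
    · obtain ⟨ζ, hζ, h4⟩ := h3
      by_contra h5
      have h6 : ∀ j, k5_w C H W (c j) ≠ 0 := by
        intro j hj
        exact h5 (le_of_eq (Finset.prod_eq_zero (Finset.mem_univ j) hj))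
      refine h2 (lt_of_le_of_lt (Finset.card_le_card ?_) (hlab ζ))
      intro j hj
      obtain ⟨i, _, rfl⟩ := Finset.mem_image.1 hj
      rw [Finset.mem_filter]
      exact ⟨Finset.mem_univ _, c i, k5_w_ne (h6 i), rfl, h4 i⟩
    · exact le_rfl

open Classical in
theorem v_stepN {d N D : ℕ} (hD : 1 ≤ D) {S : Finset V}
    {C : Finset (Fin N × Finset (AddChar V ℂ))}
    (hC : ∀ c ∈ C, ∃ T ⊆ S, T.card ≤ d ∧ ∃ ξ, c.2 = Cos T ξ)
    (hlab : ∀ ζ, (univ.filter fun j => ∃ c ∈ C, c.1 = j ∧ ζ ∈ c.2).card < D)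
    {H : Finset (Fin N)} {T : Finset V} {ζ₀ : AddChar V ℂ} (hpos : 0 < OmN C H (Cos T ζ₀))
    (hpop : ∀ j, ∑ c ∈ C.filter (fun c => c.1 ∉ H ∧ c.1 = j), om (Cos T ζ₀) c.2 ≤
      OmN C H (Cos T ζ₀) / (16 * D)) :
    ∃ T' ⊆ S, T'.card ≤ 2 * D * d ∧
      OmN C H (Cos (T ∪ T') ζ₀) ≤ 3 / 4 * OmN C H (Cos T ζ₀) := by
  have hkey := k5_tuples hD hlab hpop
  have hsum : ∑ c, k5_w C H (Cos T ζ₀) c = OmN C H (Cos T ζ₀) := k5_sum C H (Cos T ζ₀)
  have hw : ∀ c, 0 ≤ k5_w C H (Cos T ζ₀) c := k5_w_nonneg C H (Cos T ζ₀)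
  generalize hΩ : OmN C H (Cos T ζ₀) = Ω at *
  have hlt : (1 / 4 : ℝ) ^ (D + 2) * Ω ^ (2 * D) < (Ω / 2) ^ (2 * D) := by
    have h1 : (0 : ℝ) < Ω ^ (2 * D) := pow_pos hpos _
    have h2 : (Ω / 2) ^ (2 * D) = (1 / 4 : ℝ) ^ D * Ω ^ (2 * D) := by
      rw [div_pow, pow_mul (2 : ℝ) 2 D, div_eq_mul_inv, mul_comm, ← inv_pow]
      congr 2
      norm_num
    rw [h2]
    refine mul_lt_mul_of_pos_right ?_ h1
    exact pow_lt_pow_right_of_lt_one₀ (by norm_num) (by norm_num) (by omega)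
  have hζ₀ : ζ₀ ∈ Cos T ζ₀ := mem_Cos.2 fun _ _ => rfl
  obtain ⟨k, hkq, c, hc1, ⟨ξs, hξs, hξs2⟩, hc3⟩ :=
    extract hw (fun c : Fin N × Finset (AddChar V ℂ) => c.2) (Cos T ζ₀) ⟨ζ₀, hζ₀⟩ (2 * D)
      (by
        rw [hsum]
        exact lt_of_le_of_lt hkey hlt)
  rw [hsum] at hc3
  have hcC : ∀ j, c j ∈ C := fun j => k5_w_ne (hc1 j).ne'
  have hcert : ∀ j, ∃ Tj ⊆ S, Tj.card ≤ d ∧ ∃ ξj, (c j).2 = Cos Tj ξj :=
    fun j => hC _ (hcC j)
  choose Tj hTj1 hTj2 ξj hTj3 using hcert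
  refine ⟨univ.biUnion Tj, ?_, ?_, ?_⟩
  · intro t ht
    obtain ⟨j, _, hj⟩ := Finset.mem_biUnion.mp ht
    exact hTj1 j hj
  · calc (univ.biUnion Tj).card ≤ ∑ j : Fin k, (Tj j).card := Finset.card_biUnion_le
      _ ≤ ∑ _j : Fin k, d := Finset.sum_le_sum fun j _ => hTj2 j
      _ = k * d := by simp
      _ ≤ 2 * D * d := Nat.mul_le_mul_right d hkq.le
  · have hmeet : ∀ z, z ∈ Cos (T ∪ univ.biUnion Tj) ξs → z ∈ Cos T ζ₀ ∧ ∀ j, z ∈ (c j).2 := by
      intro z hz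
      rw [mem_Cos] at hz
      rw [mem_Cos] at hξs
      refine ⟨mem_Cos.mpr fun t ht => ?_, fun j => ?_⟩
      · rw [hz t (Finset.mem_union_left _ ht), hξs t ht]
      · have h2 := hξs2 j
        rw [hTj3 j, mem_Cos] at h2
        rw [hTj3 j, mem_Cos]
        intro t ht
        rw [hz t (Finset.mem_union_right _ (Finset.mem_biUnion.mpr ⟨j, Finset.mem_univ j, ht⟩)),
          h2 t ht]
    have hpt : ∀ c' : Fin N × Finset (AddChar V ℂ),
        k5_w C H (Cos (T ∪ univ.biUnion Tj) ζ₀) c' ≤ 1 / 2 * k5_w C H (Cos T ζ₀) c' +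
          1 / 2 * (if ∃ ζ ∈ Cos T ζ₀, (∀ j, ζ ∈ (c j).2) ∧ ζ ∈ c'.2 then
            k5_w C H (Cos T ζ₀) c' else 0) := by
      intro c'
      by_cases hin : c' ∈ C ∧ c'.1 ∉ H
      · have e1 : ∀ W : Finset (AddChar V ℂ), k5_w C H W c' = om W c'.2 := by
          intro W
          unfold k5_w
          rw [if_pos hin]
        obtain ⟨T2, _, _, ξ2, hT2⟩ := hC c' hin.1
        rw [e1, e1]
        by_cases hex : ∃ ζ ∈ Cos T ζ₀, (∀ j, ζ ∈ (c j).2) ∧ ζ ∈ c'.2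
        · rw [if_pos hex]
          have h5 : om (Cos (T ∪ univ.biUnion Tj) ζ₀) c'.2 ≤ om (Cos T ζ₀) c'.2 := by
            rw [hT2]
            exact om_le hζ₀
          linarith
        · rw [if_neg hex]
          have h5 : 2 * om (Cos (T ∪ univ.biUnion Tj) ζ₀) c'.2 ≤ om (Cos T ζ₀) c'.2 := by
            rw [hT2]
            refine om_half hζ₀ hξs ?_
            rw [← hT2, Finset.eq_empty_iff_forall_notMem]
            intro z hz
            obtain ⟨hz1, hz2⟩ := Finset.mem_inter.mp hz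
            obtain ⟨hz3, hz4⟩ := hmeet z hz1
            exact hex ⟨z, hz3, hz4, hz2⟩
          linarith
      · have e1 : ∀ W : Finset (AddChar V ℂ), k5_w C H W c' = 0 := by
          intro W
          unfold k5_w
          rw [if_neg hin]
        rw [e1, e1]
        simp
    have hsum2 : ∑ c', (1 / 2 * k5_w C H (Cos T ζ₀) c' +
          1 / 2 * (if ∃ ζ ∈ Cos T ζ₀, (∀ j, ζ ∈ (c j).2) ∧ ζ ∈ c'.2 then
            k5_w C H (Cos T ζ₀) c' else 0)) = 1 / 2 * Ω + 1 / 2 * ∑ c',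
          (if ∃ ζ ∈ Cos T ζ₀, (∀ j, ζ ∈ (c j).2) ∧ ζ ∈ c'.2 then
            k5_w C H (Cos T ζ₀) c' else 0) := by
      rw [Finset.sum_add_distrib, ← Finset.mul_sum, ← Finset.mul_sum, hsum]
    have h7 : ∑ c', (if ∃ ζ ∈ Cos T ζ₀, (∀ j, ζ ∈ (c j).2) ∧ ζ ∈ c'.2 then
        k5_w C H (Cos T ζ₀) c' else 0) ≤ Ω / 2 := by
      refine le_trans (le_of_eq (Finset.sum_congr rfl fun c' _ => ?_)) hc3
      by_cases hex : ∃ ζ ∈ Cos T ζ₀, (∀ j, ζ ∈ (c j).2) ∧ ζ ∈ c'.2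
      · simp only [if_pos hex]
      · simp only [if_neg hex]
    rw [← k5_sum C H (Cos (T ∪ univ.biUnion Tj) ζ₀)]
    refine (Finset.sum_le_sum fun c' _ => hpt c').trans ?_
    rw [hsum2]
    linarith

end Pool.Agent.AGN
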