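import Mathlib
import Pool.Agent.Lib_helper38.AGN.Defs
import Pool.Agent.Lib_helper38.AGG.Defs
import Pool.Agent.Lib_helper58.XA.K2a
import Pool.Agent.Lib_helper16.XA.K2c
import Pool.Agent.Lib_helper67.XA.K5
import Pool.Agent.Lib_helper10.LogRank.Cube
import Pool.Agent.Lib_helper58.XA.Main
import Pool.Agent.Lib_helper58.AGG.B1
import Pool.Agent.Lib_helper58.AGG.B3
import Pool.Agent.Lib_helper58.AGN.K5

set_option autoImplicit false

/-! AGN, block K6: loopN -/

namespace Pool.Agent.AGN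

open Finset Filter Pool.Agent.XA Pool.Agent.AGG Pool.Agent.AGN Pool.Agent.Lib_helper10.LogRank

variable {ι : Type} [Fintype ι] [DecidableEq ι] {V : Type} [AddCommGroup V] [Fintype V]
  [DecidableEq V]

/-- small weight: nothing meets the coset -/
theorem k6_small {N : ℕ} {C : Finset (Fin N × Finset (AddChar V ℂ))} {H : Finset (Fin N)}
    {W : Finset (AddChar V ℂ)} (h : OmN C H W < 1) :
    ∀ c ∈ C, c.1 ∉ H → Disjoint W c.2 := by
  intro c hc hcH
  by_contra hd
  rw [Finset.not_disjoint_iff] at hd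
  obtain ⟨ζ, h1, h2⟩ := hd
  have h3 := one_le_om h1 h2
  have h4 : om W c.2 ≤ OmN C H W := by
    unfold OmN
    exact Finset.single_le_sum (f := fun c : Fin N × Finset (AddChar V ℂ) => om W c.2)
      (fun c' _ => om_nonneg W c'.2) (Finset.mem_filter.2 ⟨hc, hcH⟩)
  linarith

open Classical in
/-- a popular index is put into `H` -/
theorem k6_step {N : ℕ} {K : ℝ} {C : Finset (Fin N × Finset (AddChar V ℂ))}
    {H : Finset (Fin N)} {W : Finset (AddChar V ℂ)} {j : Fin N}
    (hpop : OmN C H W / K < ∑ c ∈ C.filter (fun c => c.1 ∉ H ∧ c.1 = j), om W c.2) :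
    OmN C (insert j H) W ≤ (1 - 1 / K) * OmN C H W := by
  have e1 : OmN C H W = ∑ c ∈ C.filter (fun c => c.1 ∉ H ∧ c.1 = j), om W c.2 +
      OmN C (insert j H) W := by
    unfold OmN
    rw [← Finset.sum_filter_add_sum_filter_not (C.filter fun c => c.1 ∉ H) (fun c => c.1 = j)]
    refine congrArg₂ (· + ·) (Finset.sum_congr ?_ fun _ _ => rfl)
      (Finset.sum_congr ?_ fun _ _ => rfl)
    · ext c
      simp only [Finset.mem_filter]
      tauto
    · ext c
      simp only [Finset.mem_filter, Finset.mem_insert, not_or]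
      tauto
  have e2 : (1 - 1 / K) * OmN C H W = OmN C H W - OmN C H W / K := by ring
  rw [e2]
  linarith

open Classical in
theorem k6_main {d N D : ℕ} (hD : 1 ≤ D) {S : Finset V}
    {C : Finset (Fin N × Finset (AddChar V ℂ))}
    (hC : ∀ c ∈ C, ∃ T ⊆ S, T.card ≤ d ∧ ∃ ξ, c.2 = Cos T ξ)
    (hlab : ∀ ζ, (univ.filter fun j => ∃ c ∈ C, c.1 = j ∧ ζ ∈ c.2).card < D)
    (ζ₀ : AddChar V ℂ) :
    ∀ (s j k : ℕ) (H : Finset (Fin N)) (T : Finset V), j + k = s → T ⊆ S →
      OmN C H (Cos T ζ₀) < (4 / 3) ^ k → OmN C H (Cos T ζ₀) * (1 - 1 / (16 * D)) ^ j < 1 →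
      ∃ T' ⊆ S, T'.card ≤ T.card + k * (2 * D * d) ∧ ∃ H' : Finset (Fin N),
        H'.card ≤ H.card + j ∧ ∀ c ∈ C, c.1 ∉ H' → Disjoint (Cos T' ζ₀) c.2 := by
  have hD1 : (1 : ℝ) ≤ D := by exact_mod_cast hD
  have hK0 : (0 : ℝ) < 16 * D := by linarith
  have hk0 : 0 ≤ 1 - 1 / (16 * (D : ℝ)) := by
    rw [sub_nonneg, div_le_one hK0]
    linarith
  have hk1 : 1 - 1 / (16 * (D : ℝ)) ≤ 1 := by
    have : 0 ≤ 1 / (16 * (D : ℝ)) := by positivity
    linarith
  intro s
  induction s with
  | zero =>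
    intro j k H T hs hTS h1 h2
    have hk : k = 0 := by omega
    subst hk
    rw [pow_zero] at h1
    exact ⟨T, hTS, Nat.le_add_right _ _, H, Nat.le_add_right _ _, k6_small h1⟩
  | succ s ih =>
    intro j k H T hs hTS h1 h2
    by_cases hsmall : OmN C H (Cos T ζ₀) < 1
    · exact ⟨T, hTS, Nat.le_add_right _ _, H, Nat.le_add_right _ _, k6_small hsmall⟩
    · rw [not_lt] at hsmall
      have hpos : 0 < OmN C H (Cos T ζ₀) := by linarith
      cases j with
      | zero =>
        rw [pow_zero, mul_one] at h2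
        linarith
      | succ j =>
        cases k with
        | zero =>
          rw [pow_zero] at h1
          linarith
        | succ k =>
          by_cases hpop : ∃ i, OmN C H (Cos T ζ₀) / (16 * D) <
              ∑ c ∈ C.filter (fun c => c.1 ∉ H ∧ c.1 = i), om (Cos T ζ₀) c.2
          · obtain ⟨i, hi⟩ := hpop
            have hst := k6_step hi
            have hle : OmN C (insert i H) (Cos T ζ₀) ≤ OmN C H (Cos T ζ₀) :=
              hst.trans (mul_le_of_le_one_left hpos.le hk1)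
            obtain ⟨T', hT1, hT2, H', hH1, hH2⟩ := ih j (k + 1) (insert i H) T (by omega) hTS
              (lt_of_le_of_lt hle h1) (by
                calc OmN C (insert i H) (Cos T ζ₀) * (1 - 1 / (16 * D)) ^ j
                    ≤ ((1 - 1 / (16 * D)) * OmN C H (Cos T ζ₀)) * (1 - 1 / (16 * D)) ^ j :=
                      mul_le_mul_of_nonneg_right hst (pow_nonneg hk0 _)
                  _ = OmN C H (Cos T ζ₀) * (1 - 1 / (16 * D)) ^ (j + 1) := by ring
                  _ < 1 := h2)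
            refine ⟨T', hT1, hT2, H', ?_, hH2⟩
            have := Finset.card_insert_le i H
            omega
          · push Not at hpop
            obtain ⟨T₁, hT1, hT2, hT3⟩ := v_stepN hD hC hlab hpos hpop
            obtain ⟨T', hT'1, hT'2, H', hH1, hH2⟩ := ih (j + 1) k H (T ∪ T₁) (by omega)
              (Finset.union_subset hTS hT1) (by
                rw [pow_succ] at h1
                linarith) (by
                refine lt_of_le_of_lt (mul_le_mul_of_nonneg_right ?_ (pow_nonneg hk0 _)) h2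
                linarith)
            refine ⟨T', hT'1, ?_, H', hH1, hH2⟩
            have h3 := Finset.card_union_le T T₁
            have h4 : (k + 1) * (2 * D * d) = k * (2 * D * d) + 2 * D * d := by ring
            omega

open Classical in
theorem loopN {d N D k h : ℕ} (hD : 1 ≤ D) {S : Finset V}
    {C : Finset (Fin N × Finset (AddChar V ℂ))}
    (hC : ∀ c ∈ C, ∃ T ⊆ S, T.card ≤ d ∧ ∃ ξ, c.2 = Cos T ξ)
    (hlab : ∀ ζ, (univ.filter fun j => ∃ c ∈ C, c.1 = j ∧ ζ ∈ c.2).card < D)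
    (hk : OmN C ∅ univ < (4 / 3) ^ k) (hh : OmN C ∅ univ * (1 - 1 / (16 * D)) ^ h < 1)
    (ζ₀ : AddChar V ℂ) :
    ∃ T ⊆ S, T.card ≤ k * (2 * D * d) ∧ ∃ H : Finset (Fin N), H.card ≤ h ∧
      ∀ c ∈ C, c.1 ∉ H → Disjoint (Cos T ζ₀) c.2 := by
  obtain ⟨T, h1, h2, H, h3, h4⟩ := k6_main hD hC hlab ζ₀ (h + k) h k ∅ ∅ rfl
    (Finset.empty_subset S) (by rwa [Cos_empty]) (by rwa [Cos_empty])
  refine ⟨T, h1, ?_, H, ?_, h4⟩
  · rw [Finset.card_empty, Nat.zero_add] at h2
    exact h2
  · rw [Finset.card_empty, Nat.zero_add] at h3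
    exact h3

end Pool.Agent.AGN
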