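import Mathlib
import Pool.Agent.Lib_helper38.AGN.Defs
import Pool.Agent.Lib_helper58.XA.K2a

set_option autoImplicit false

/-! AGN, N2: clean monomials are alone in their class (helper14) -/

namespace Pool.Agent.AGN

open Finset Pool.Agent.XA Pool.Agent.AGG Pool.Agent.AGN Pool.Agent.Lib_helper10.LogRank

variable {ι : Type} [Fintype ι] [DecidableEq ι] {V : Type} [AddCommGroup V] [Fintype V]
  [DecidableEq V] {W : Type} [AddCommGroup W] [Fintype W] [DecidableEq W]

/-- a monomial of the restricted function comes from a monomial of the function -/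
theorem n2_pre {a : Finset ι → V → ℂ} {D : Finset ι → AddChar V ℂ → Prop} (hD : Dn D)
    (U : Finset ι) (π : V →+ W) (ζ : AddChar V ℂ) {q : Finset ι × W}
    (hq : q ∈ mon (mpush π (setU U a) ζ)
      (fun z ζ' => D (U ∪ z) (ζ * ζ'.compAddMonoidHom π))) :
    q.1.Nonempty ∧ Disjoint q.1 U ∧
      (∃ ζ' : AddChar W ℂ, D (U ∪ q.1) (ζ * ζ'.compAddMonoidHom π)) ∧
      ∃ p ∈ mon a D, (p.1 \ U, π p.2) = q := by
  classical
  unfold mon at hq
  rw [Finset.mem_filter] at hq
  obtain ⟨-, hne, hnz, ζ', hζ'⟩ := hq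
  obtain ⟨χ, hχ, hχq⟩ := push_ne hnz
  have hdis : Disjoint q.1 U := by
    by_contra hd
    apply hχ
    unfold setU
    rw [if_neg hd]
  have hs : ∃ s ∈ U.powerset, a (q.1 ∪ s) χ ≠ 0 := by
    by_contra hcon
    push Not at hcon
    apply hχ
    unfold setU
    rw [if_pos hdis]
    exact Finset.sum_eq_zero hcon
  obtain ⟨s, hsU, has⟩ := hs
  rw [Finset.mem_powerset] at hsU
  refine ⟨hne, hdis, ⟨ζ', hζ'⟩, (q.1 ∪ s, χ), ?_, ?_⟩
  · unfold mon
    rw [Finset.mem_filter]
    refine ⟨Finset.mem_univ _, ?_, has, ζ * ζ'.compAddMonoidHom π, ?_⟩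
    · obtain ⟨i, hi⟩ := hne
      exact ⟨i, Finset.mem_union_left _ hi⟩
    · refine hD _ _ _ ?_ hζ'
      intro i hi
      rcases Finset.mem_union.1 hi with h | h
      · exact Finset.mem_union_right _ h
      · exact Finset.mem_union_left _ (hsU h)
  · refine Prod.ext ?_ hχq
    ext i
    simp only [Finset.mem_sdiff, Finset.mem_union]
    constructor
    · rintro ⟨h1 | h1, h2⟩
      · exact h1
      · exact absurd (hsU h1) h2
    · intro h
      exact ⟨Or.inl h, Finset.disjoint_left.1 hdis h⟩

open Classical in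
theorem clean_many {a : Finset ι → V → ℂ} {D : Finset ι → AddChar V ℂ → Prop} (hD : Dn D)
    (U : Finset ι) (T : Finset V) (π : V →+ W)
    (hπ : ∀ v, π v = 0 ↔ v ∈ AddSubgroup.closure (T : Set V)) (ζ : AddChar V ℂ) :
    2 * (mon (mpush π (setU U a) ζ)
      (fun z ζ' => D (U ∪ z) (ζ * ζ'.compAddMonoidHom π))).card ≤
      (mon a D).card + ((mon a D).filter (Clean D (mon a D) U T (Cos T ζ))).card := by
  set M' := mon (mpush π (setU U a) ζ)
      (fun z ζ' => D (U ∪ z) (ζ * ζ'.compAddMonoidHom π)) with hM'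
  set M := mon a D with hM
  set C := M.filter (Clean D M U T (Cos T ζ)) with hC
  let φ : Finset ι × V → Finset ι × W := fun p => (p.1 \ U, π p.2)
  have hfib : ∀ q ∈ M', 2 ≤ (M.filter fun p => φ p = q).card + (C.filter fun p => φ p = q).card := by
    intro q hq
    obtain ⟨hne, hdis, ⟨ζ', hζ'⟩, p, hp, hpq⟩ := n2_pre hD U π ζ hq
    have hpF : p ∈ M.filter fun p => φ p = q := Finset.mem_filter.2 ⟨hp, hpq⟩
    by_cases hone : ∀ p' ∈ M.filter (fun p => φ p = q), p' = p
    · have hcl : p ∈ C := by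
        rw [hC, Finset.mem_filter]
        have hq1 : p.1 \ U = q.1 := congrArg Prod.fst hpq
        have hq2 : π p.2 = q.2 := congrArg Prod.snd hpq
        refine ⟨hp, ?_, ?_, ?_⟩
        · rw [hq1]; exact hne
        · refine ⟨ζ * ζ'.compAddMonoidHom π, ?_, ?_⟩
          · unfold Cos
            rw [Finset.mem_filter]
            refine ⟨Finset.mem_univ _, fun t ht => ?_⟩
            have h0 : π t = 0 := (hπ t).2 (AddSubgroup.subset_closure ht)
            rw [AddChar.mul_apply, AddChar.compAddMonoidHom_apply, h0, AddChar.map_zero_eq_one,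
              mul_one]
          · have hU : U ∪ p.1 = U ∪ q.1 := by
              rw [← hq1, Finset.union_sdiff_self_eq_union]
            rw [hU]; exact hζ'
        · intro p' hp' h1 h2
          apply hone
          rw [Finset.mem_filter]
          refine ⟨hp', ?_⟩
          rw [← hpq]
          refine Prod.ext h1 ?_
          have h3 : π (p'.2 - p.2) = 0 := (hπ _).2 h2
          rw [map_sub, sub_eq_zero] at h3
          exact h3
      have h1 : 1 ≤ (M.filter fun p => φ p = q).card :=
        Finset.card_pos.2 ⟨p, hpF⟩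
      have h2 : 1 ≤ (C.filter fun p => φ p = q).card :=
        Finset.card_pos.2 ⟨p, Finset.mem_filter.2 ⟨hcl, hpq⟩⟩
      omega
    · push Not at hone
      obtain ⟨p', hp', hne'⟩ := hone
      have h1 : 1 < (M.filter fun p => φ p = q).card :=
        Finset.one_lt_card.2 ⟨p', hp', p, hpF, hne'⟩
      omega
  have hsum : ∀ S : Finset (Finset ι × V), ∑ q ∈ M', (S.filter fun p => φ p = q).card ≤ S.card := by
    intro S
    rw [Finset.sum_card_fiberwise_eq_card_filter]
    exact Finset.card_filter_le _ _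
  calc 2 * M'.card = ∑ q ∈ M', 2 := by rw [Finset.sum_const, smul_eq_mul, mul_comm]
    _ ≤ ∑ q ∈ M', ((M.filter fun p => φ p = q).card + (C.filter fun p => φ p = q).card) :=
        Finset.sum_le_sum hfib
    _ = ∑ q ∈ M', (M.filter fun p => φ p = q).card +
        ∑ q ∈ M', (C.filter fun p => φ p = q).card := Finset.sum_add_distrib
    _ ≤ M.card + C.card := Nat.add_le_add (hsum M) (hsum C)

theorem card_mon_rest {a : Finset ι → V → ℂ} {D : Finset ι → AddChar V ℂ → Prop} (hD : Dn D)
    (U : Finset ι) (T : Finset V) (π : V →+ W)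
    (hπ : ∀ v, π v = 0 ↔ v ∈ AddSubgroup.closure (T : Set V)) (ζ : AddChar V ℂ) :
    (mon (mpush π (setU U a) ζ)
      (fun z ζ' => D (U ∪ z) (ζ * ζ'.compAddMonoidHom π))).card ≤ (mon a D).card := by
  classical
  have h1 := clean_many (a := a) hD U T π hπ ζ
  have h2 : ((mon a D).filter (Clean D (mon a D) U T (Cos T ζ))).card ≤ (mon a D).card :=
    Finset.card_filter_le _ _
  omega

end Pool.Agent.AGN
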